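import Pool.Agent.Lib.MP_193dd3_co_ARC.Dim

/-!
Project ARC (MP_193dd3_co), module EXTRACT: separating polynomials for the points off a curve of
small degree.
-/

namespace Pool.Agent.Lib.Arc3

open MvPolynomial

variable {p : ℕ}

namespace ExtAux

/-- Only the zero polynomial of degree at most `s` vanishes on `T`. -/
def Inj (s : ℕ) (T : Finset (Pt p)) : Prop :=
  ∀ f : Poly p, f.totalDegree ≤ s → Van T f → f = 0

theorem Inj.card [Fact p.Prime] {s : ℕ} {T : Finset (Pt p)} (h : Inj s T) :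
    (s + 1) * (s + 2) ≤ 2 * T.card := by
  by_contra hlt
  obtain ⟨f, hf0, hfd, hfv⟩ := exists_van s T (by omega)
  exact hf0 (h f hfd hfv)

/-- A minimal set with the property `Inj`. -/
theorem exists_min_inj [Fact p.Prime] (s : ℕ) (R : Finset (Pt p)) (h : Inj s R) :
    ∃ T ⊆ R, Inj s T ∧ ∀ Q ∈ T, ¬ Inj s (T.erase Q) := by
  classical
  induction R using Finset.strongInduction with
  | H R ih =>
    by_cases h1 : ∀ Q ∈ R, ¬ Inj s (R.erase Q)
    · exact ⟨R, Finset.Subset.refl _, h, h1⟩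
    · push Not at h1
      obtain ⟨Q, hQ, hQi⟩ := h1
      obtain ⟨T, hT, h2⟩ := ih (R.erase Q) (Finset.erase_ssubset hQ) hQi
      exact ⟨T, hT.trans (Finset.erase_subset _ _), h2⟩

/-- The Lagrange polynomials of a minimal set. -/
theorem exists_lagrange [Fact p.Prime] (s : ℕ) (T : Finset (Pt p))
    (h : ∀ Q ∈ T, ¬ Inj s (T.erase Q)) (hT : Inj s T) (Q : Pt p) (hQ : Q ∈ T) :
    ∃ L : Poly p, L.totalDegree ≤ s ∧ ev Q L = 1 ∧ ∀ R ∈ T, R ≠ Q → ev R L = 0 := by
  have h1 := h Q hQ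
  unfold Inj at h1
  push Not at h1
  obtain ⟨f, hfd, hfv, hf0⟩ := h1
  have hfQ : ev Q f ≠ 0 := by
    intro h0
    apply hf0
    apply hT f hfd
    intro R hR
    by_cases hRQ : R = Q
    · rw [hRQ]; exact h0
    · exact hfv R (Finset.mem_erase.mpr ⟨hRQ, hR⟩)
  refine ⟨C (ev Q f)⁻¹ * f, (totalDegree_C_mul_le _ _).trans hfd, ?_, ?_⟩
  · rw [map_mul, ev_C, inv_mul_cancel₀ hfQ]
  · intro R hR hRQ
    rw [map_mul, hfv R (Finset.mem_erase.mpr ⟨hRQ, hR⟩), mul_zero]

/-- An affine form through `Q` not through `P`. -/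
theorem exists_lin (P Q : Pt p) (h : Q ≠ P) :
    ∃ l : Poly p, l.totalDegree ≤ 1 ∧ ev Q l = 0 ∧ ev P l ≠ 0 := by
  by_cases h1 : Q.1 = P.1
  · have h2 : Q.2 ≠ P.2 := fun h3 => h (Prod.ext h1 h3)
    refine ⟨lin 0 1 (-Q.2), totalDegree_lin_le _ _ _, by rw [ev_lin]; ring, ?_⟩
    rw [ev_lin]
    intro h3
    apply h2
    have h4 : P.2 - Q.2 = 0 := by rw [← h3]; ring
    exact (sub_eq_zero.mp h4).symm
  · refine ⟨lin 1 0 (-Q.1), totalDegree_lin_le _ _ _, by rw [ev_lin]; ring, ?_⟩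
    rw [ev_lin]
    intro h3
    apply h1
    have h4 : P.1 - Q.1 = 0 := by rw [← h3]; ring
    exact (sub_eq_zero.mp h4).symm

/-- Separation from one minimal set. -/
theorem sep_min [Fact p.Prime] (s : ℕ) (T : Finset (Pt p))
    (h : ∀ Q ∈ T, ¬ Inj s (T.erase Q)) (hT : Inj s T) (P : Pt p) : Sep T P (s + 1) := by
  classical
  by_cases hP : P ∈ T
  · obtain ⟨L, hLd, hLP, hL⟩ := exists_lagrange s T h hT P hP
    refine ⟨L, by omega, ?_, hL⟩
    rw [hLP]
    exact one_ne_zero
  · choose! L hLd hLQ hL using exists_lagrange s T h hT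
    have h1 : (∑ Q ∈ T, L Q) = 1 := by
      have h2 : ((∑ Q ∈ T, L Q) - 1 : Poly p) = 0 := by
        apply hT
        · refine (totalDegree_sub _ _).trans (max_le ?_ ?_)
          · exact totalDegree_finsetSum_le fun Q hQ => hLd Q hQ
          · simp
        · intro R hR
          rw [map_sub, map_sum, map_one, Finset.sum_eq_single_of_mem R hR]
          · rw [hLQ R hR, sub_self]
          · intro Q hQ hQR
            exact hL Q hQ R hR (Ne.symm hQR)
      exact sub_eq_zero.mp h2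
    have h3 : ∃ Q ∈ T, ev P (L Q) ≠ 0 := by
      by_contra hno
      push Not at hno
      have h4 := congrArg (ev P) h1
      rw [map_sum, Finset.sum_eq_zero hno, map_one] at h4
      exact zero_ne_one h4
    obtain ⟨Q, hQ, hQP⟩ := h3
    have hne : Q ≠ P := fun h0 => hP (h0 ▸ hQ)
    obtain ⟨l, hld, hlQ, hlP⟩ := exists_lin P Q hne
    refine ⟨l * L Q, ?_, ?_, ?_⟩
    · have h5 := totalDegree_mul l (L Q)
      have h6 := hLd Q hQ
      omega
    · rw [map_mul]
      exact mul_ne_zero hlP hQP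
    · intro R hR hRP
      rw [map_mul]
      by_cases hRQ : R = Q
      · rw [hRQ, hlQ, zero_mul]
      · rw [hL Q hQ R hR hRQ, mul_zero]

end ExtAux

open ExtAux in
/-- Module EXTRACT. -/
theorem extract [Fact p.Prime] (s : ℕ) (A : Finset (Pt p)) :
    ∃ (G : Poly p) (k : ℕ), G ≠ 0 ∧ G.totalDegree ≤ s ∧ k * ((s + 1) * (s + 2)) ≤ 2 * A.card ∧
      ∀ P : Pt p, ev P G ≠ 0 → Sep A P (s + k * (s + 1)) := by
  classical
  induction A using Finset.strongInduction with
  | H A ih =>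
    by_cases hA : Inj s A
    · obtain ⟨T, hTA, hT, hmin⟩ := exists_min_inj s A hA
      have hcard := hT.card
      have hpos : 0 < (s + 1) * (s + 2) := by positivity
      have hTne : T.Nonempty := Finset.card_pos.mp (by omega)
      have hlt : A \ T ⊂ A := Finset.sdiff_ssubset hTA hTne
      obtain ⟨G, k, hG0, hGd, hk, hsep⟩ := ih (A \ T) hlt
      refine ⟨G, k + 1, hG0, hGd, ?_, ?_⟩
      · have h1 := Finset.card_sdiff_add_card_eq_card hTA
        nlinarith
      · intro P hP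
        obtain ⟨H1, hH1d, hH1P, hH1⟩ := hsep P hP
        obtain ⟨H2, hH2d, hH2P, hH2⟩ := sep_min s T hmin hT P
        refine ⟨H1 * H2, ?_, ?_, ?_⟩
        · have h5 := totalDegree_mul H1 H2
          have h6 : s + (k + 1) * (s + 1) = s + k * (s + 1) + (s + 1) := by ring
          omega
        · rw [map_mul]
          exact mul_ne_zero hH1P hH2P
        · intro Q hQ hQP
          rw [map_mul]
          by_cases hQT : Q ∈ T
          · rw [hH2 Q hQT hQP, mul_zero]
          · rw [hH1 Q (Finset.mem_sdiff.mpr ⟨hQ, hQT⟩) hQP, zero_mul]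
    · unfold Inj at hA
      push Not at hA
      obtain ⟨G, hGd, hGv, hG0⟩ := hA
      refine ⟨G, 0, hG0, hGd, by omega, ?_⟩
      intro P hP
      refine ⟨G, by omega, hP, ?_⟩
      intro Q hQ _
      exact hGv Q hQ

end Pool.Agent.Lib.Arc3
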