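import Pool.Agent.Lib.MP_193dd3_co_ARC.Basic

/-!
Shared definitions of project ARC (MP_193dd3_co): `HasIdent`, `Rich`, and two small lemmas.
-/

namespace Pool.Agent.Lib.Arc3

open MvPolynomial

variable {p : ℕ}

/-- The identity with its data. -/
def HasIdent (A : Finset (Pt p)) (t : ℕ) : Prop :=
  ∃ (γ : Pt p → ZMod p) (l : Pt p → List (Pt p)),
    (∀ P ∈ A, γ P ≠ 0) ∧ (∀ P ∈ A, (l P).length = t) ∧ (∀ P ∈ A, ∀ v ∈ l P, v ≠ 0) ∧
    (∀ P ∈ A, ∀ a b : ZMod p, (a, b) ≠ (0, 0) →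
      ((l P).filter (fun v => v.1 * a + v.2 * b = 0)).length ≤ 2) ∧
    ∀ Ψ : Poly p, Ψ.totalDegree + 1 ≤ p + t → ∑ P ∈ A, γ P * ev P (iterD (l P) Ψ) = 0

/-- Conclusion of RICH. -/
def Rich (A : Finset (Pt p)) (e : ℕ) (M : Poly p) : Prop :=
  Squarefree M ∧ 0 < M.totalDegree ∧ M.totalDegree ≤ 4 ∧
    (∀ K, Irreducible K → K ∣ M → 2 ≤ K.totalDegree) ∧
    (A.filter (fun Q => ev Q M ≠ 0)).card ≤ e + 32

/-- A nonzero polynomial of minimal degree vanishing on `A` is squarefree. -/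
theorem exists_min (A : Finset (Pt p)) [Fact p.Prime] (f : Poly p) (hf : f ≠ 0) (hv : Van A f) :
    ∃ B : Poly p, B ≠ 0 ∧ Van A B ∧ B.totalDegree ≤ f.totalDegree ∧ Squarefree B ∧
      ∀ g : Poly p, g ≠ 0 → Van A g → B.totalDegree ≤ g.totalDegree := by
  classical
  have hex : ∃ n, ∃ g : Poly p, g ≠ 0 ∧ Van A g ∧ g.totalDegree = n := ⟨_, f, hf, hv, rfl⟩
  obtain ⟨B, hB0, hBv, hBd⟩ := Nat.find_spec hex
  have hmin : ∀ g : Poly p, g ≠ 0 → Van A g → B.totalDegree ≤ g.totalDegree := by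
    intro g hg hgv
    rw [hBd]; exact Nat.find_min' hex ⟨g, hg, hgv, rfl⟩
  refine ⟨B, hB0, hBv, hmin f hf hv, ?_, hmin⟩
  rintro x ⟨y, hy⟩
  have hx0 : x ≠ 0 := by rintro rfl; apply hB0; rw [hy]; ring
  have hy0 : y ≠ 0 := by rintro rfl; apply hB0; rw [hy]; ring
  have hxy0 : x * y ≠ 0 := mul_ne_zero hx0 hy0
  have h1 : Van A (x * y) := by
    intro Q hQ
    have := hBv Q hQ
    rw [hy, map_mul, map_mul] at this
    rw [map_mul]
    rcases mul_eq_zero.mp this with h | h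
    · rcases mul_eq_zero.mp h with h | h <;> rw [h] <;> ring
    · rw [h]; ring
  have h2 := hmin _ hxy0 h1
  have h3 : B.totalDegree = x.totalDegree + (x * y).totalDegree := by
    rw [hy, mul_assoc, totalDegree_mul_of_isDomain hx0 hxy0]
  have h4 : x.totalDegree = 0 := by omega
  rw [totalDegree_eq_zero_iff_eq_C] at h4
  rw [h4]
  apply IsUnit.map
  rw [isUnit_iff_ne_zero]
  intro h5
  apply hx0
  rw [h4, h5, map_zero]

theorem NoFour.subset {A B : Finset (Pt p)} (hA : NoFour A) (h : B ⊆ A) : NoFour B := by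
  intro a b c hab
  exact (Finset.card_le_card (Finset.filter_subset_filter _ h)).trans (hA a b c hab)

end Pool.Agent.Lib.Arc3
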