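import Pool.Agent.Lib.MP_193dd3_co_ARC.Points
import Pool.Agent.Lib.MP_193dd3_co_ARC.Defs2

/-!
Project ARC (MP_193dd3_co), module FINAL: no set of almost `2p` points with at most three points
on a line is almost contained in a curve of degree at most four.
-/

namespace Pool.Agent.Lib.Arc3

open MvPolynomial

variable {p : ℕ}

namespace Final

/-! ### The restriction of a polynomial to a line -/

/-- The restriction of `M` to the line `P + z v`. -/
noncomputable def rs (P v : Pt p) (M : Poly p) : Polynomial (ZMod p) :=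
  aeval ![Polynomial.C P.1 + Polynomial.C v.1 * Polynomial.X,
    Polynomial.C P.2 + Polynomial.C v.2 * Polynomial.X] M

theorem eval_rs (P v : Pt p) (M : Poly p) (z : ZMod p) :
    (rs P v M).eval z = ev (P.1 + z * v.1, P.2 + z * v.2) M := by
  induction M using MvPolynomial.induction_on with
  | C a => simp [rs]
  | add f g hf hg => simp only [rs, map_add, Polynomial.eval_add] at *; rw [hf, hg]
  | mul_X f i hf =>
    simp only [rs, map_mul, Polynomial.eval_mul, aeval_X] at *
    rw [hf]
    congr 1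
    fin_cases i
    · change Polynomial.eval z (Polynomial.C P.1 + Polynomial.C v.1 * Polynomial.X) = _
      rw [show (ev (P.1 + z * v.1, P.2 + z * v.2) (X ((fun i ↦ i) ⟨0, by omega⟩ : Fin 2)) : ZMod p)
        = P.1 + z * v.1 from ev_X0 _]
      simp only [Polynomial.eval_add, Polynomial.eval_mul, Polynomial.eval_C, Polynomial.eval_X]
      ring
    · change Polynomial.eval z (Polynomial.C P.2 + Polynomial.C v.2 * Polynomial.X) = _
      rw [show (ev (P.1 + z * v.1, P.2 + z * v.2) (X ((fun i ↦ i) ⟨1, by omega⟩ : Fin 2)) : ZMod p)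
        = P.2 + z * v.2 from ev_X1 _]
      simp only [Polynomial.eval_add, Polynomial.eval_mul, Polynomial.eval_C, Polynomial.eval_X]
      ring

theorem derivative_rs (P v : Pt p) (M : Poly p) :
    Polynomial.derivative (rs P v M) =
      Polynomial.C v.1 * rs P v (pderiv 0 M) + Polynomial.C v.2 * rs P v (pderiv 1 M) := by
  induction M using MvPolynomial.induction_on with
  | C a => simp [rs]
  | add f g hf hg =>
    simp only [rs, map_add] at *; rw [hf, hg]; ring
  | mul_X f i hf =>
    simp only [rs, map_mul, aeval_X, Polynomial.derivative_mul, Derivation.leibniz, smul_eq_mul,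
      map_add] at *
    rw [hf]
    fin_cases i
    · simp [pderiv_X]; ring
    · simp [pderiv_X]; ring

/-- The value of the leading form at `v`. -/
noncomputable def lf (M : Poly p) (v : Pt p) : ZMod p :=
  ∑ d ∈ M.support with d 0 + d 1 = 4, M.coeff d * (v.1 ^ d 0 * v.2 ^ d 1)

theorem natDegree_lin_le (a b : ZMod p) :
    (Polynomial.C a + Polynomial.C b * Polynomial.X : Polynomial (ZMod p)).natDegree ≤ 1 := by
  rw [add_comm]; exact Polynomial.natDegree_linear_le

theorem rs_eq (P v : Pt p) (M : Poly p) : rs P v M = ∑ d ∈ M.support,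
    Polynomial.C (M.coeff d) * ((Polynomial.C P.1 + Polynomial.C v.1 * Polynomial.X) ^ d 0 *
      (Polynomial.C P.2 + Polynomial.C v.2 * Polynomial.X) ^ d 1) := by
  rw [rs, aeval_def, eval₂_eq']
  simp [Fin.prod_univ_two]

theorem deg_le_of_mem {M : Poly p} (hM : M.totalDegree ≤ 4) {d : Fin 2 →₀ ℕ}
    (hd : d ∈ M.support) : d 0 + d 1 ≤ 4 := by
  have := le_totalDegree hd
  rw [Finsupp.sum_fintype _ _ (by simp), Fin.sum_univ_two] at this
  omega

theorem natDegree_rs_le (P v : Pt p) (M : Poly p) (hM : M.totalDegree ≤ 4) :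
    (rs P v M).natDegree ≤ 4 := by
  rw [rs_eq]
  refine Polynomial.natDegree_sum_le_of_forall_le _ _ ?_
  intro d hd
  have h4 := deg_le_of_mem hM hd
  refine (Polynomial.natDegree_C_mul_le _ _).trans ?_
  refine Polynomial.natDegree_mul_le.trans ?_
  have h0 : ((Polynomial.C P.1 + Polynomial.C v.1 * Polynomial.X : Polynomial (ZMod p)) ^ d 0).natDegree
      ≤ d 0 := by
    refine Polynomial.natDegree_pow_le.trans ?_
    have := natDegree_lin_le P.1 v.1
    nlinarith
  have h1 : ((Polynomial.C P.2 + Polynomial.C v.2 * Polynomial.X : Polynomial (ZMod p)) ^ d 1).natDegree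
      ≤ d 1 := by
    refine Polynomial.natDegree_pow_le.trans ?_
    have := natDegree_lin_le P.2 v.2
    nlinarith
  omega

theorem coeff_rs (P v : Pt p) (M : Poly p) (hM : M.totalDegree ≤ 4) :
    (rs P v M).coeff 4 = lf M v := by
  rw [rs_eq, Polynomial.finsetSum_coeff, lf, Finset.sum_filter]
  refine Finset.sum_congr rfl ?_
  intro d hd
  have h4 := deg_le_of_mem hM hd
  have h0 := natDegree_lin_le P.1 v.1
  have h1 := natDegree_lin_le P.2 v.2
  have k0 : ((Polynomial.C P.1 + Polynomial.C v.1 * Polynomial.X : Polynomial (ZMod p)) ^ d 0).natDegree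
      ≤ d 0 := by
    refine Polynomial.natDegree_pow_le.trans ?_
    nlinarith
  have k1 : ((Polynomial.C P.2 + Polynomial.C v.2 * Polynomial.X : Polynomial (ZMod p)) ^ d 1).natDegree
      ≤ d 1 := by
    refine Polynomial.natDegree_pow_le.trans ?_
    nlinarith
  rw [Polynomial.coeff_C_mul]
  split_ifs with h
  · congr 1
    rw [← h, Polynomial.coeff_mul_add_eq_of_natDegree_le k0 k1]
    congr 1
    · have := Polynomial.coeff_pow_of_natDegree_le (m := d 0) h0
      rw [mul_one] at this
      rw [this]; simp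
    · have := Polynomial.coeff_pow_of_natDegree_le (m := d 1) h1
      rw [mul_one] at this
      rw [this]; simp
  · rw [Polynomial.coeff_eq_zero_of_natDegree_lt, mul_zero]
    refine Polynomial.natDegree_mul_le.trans_lt ?_
    omega

/-- The dehomogenised leading form. -/
noncomputable def lh (M : Poly p) : Polynomial (ZMod p) :=
  ∑ d ∈ M.support with d 0 + d 1 = 4, Polynomial.C (M.coeff d) * Polynomial.X ^ d 1

theorem lf_eq (M : Poly p) [Fact p.Prime] (v : Pt p) (hv : v.1 ≠ 0) :
    lf M v = v.1 ^ 4 * (lh M).eval (v.2 / v.1) := by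
  rw [lf, lh, Polynomial.eval_finsetSum, Finset.mul_sum]
  refine Finset.sum_congr rfl ?_
  intro d hd
  rw [Finset.mem_filter] at hd
  rw [← hd.2]
  simp only [Polynomial.eval_mul, Polynomial.eval_C, Polynomial.eval_pow, Polynomial.eval_X]
  rw [div_pow, pow_add]
  field_simp

theorem natDegree_lh_le (M : Poly p) : (lh M).natDegree ≤ 4 := by
  rw [lh]
  refine Polynomial.natDegree_sum_le_of_forall_le _ _ ?_
  intro d hd
  rw [Finset.mem_filter] at hd
  refine (Polynomial.natDegree_C_mul_X_pow_le _ _).trans ?_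
  omega

theorem lh_ne_zero (M : Poly p) (hM : M.totalDegree = 4) : lh M ≠ 0 := by
  classical
  have hM0 : M ≠ 0 := by rintro rfl; simp at hM
  obtain ⟨d, hd, hd4⟩ : ∃ d ∈ M.support, d 0 + d 1 = 4 := by
    have hne : M.support.Nonempty := by
      rw [Finset.nonempty_iff_ne_empty, Ne, support_eq_empty]; exact hM0
    obtain ⟨d, hd, h⟩ := Finset.exists_mem_eq_sup M.support hne (fun s => s.sum fun _ e => e)
    refine ⟨d, hd, ?_⟩
    rw [← hM, totalDegree, h, Finsupp.sum_fintype _ _ (by simp), Fin.sum_univ_two]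
  intro h0
  have h1 : (lh M).coeff (d 1) = 0 := by rw [h0]; simp
  rw [lh, Polynomial.finsetSum_coeff, Finset.sum_eq_single_of_mem d] at h1
  · rw [Polynomial.coeff_C_mul, Polynomial.coeff_X_pow_self, mul_one] at h1
    exact (mem_support_iff.mp hd) h1
  · rw [Finset.mem_filter]; exact ⟨hd, hd4⟩
  · intro b hb hbd
    rw [Finset.mem_filter] at hb
    rw [Polynomial.coeff_C_mul, Polynomial.coeff_X_pow, if_neg, mul_zero]
    intro h2
    apply hbd
    ext i
    fin_cases i
    · simp; omega
    · simp; omega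

/-- A polynomial of degree four with three known roots has a fourth root. -/
theorem fourth [Fact p.Prime] (m : Polynomial (ZMod p)) (ρ : ZMod p) (h0 : ρ ≠ 0) (h1 : ρ ≠ 1)
    (hd : m.natDegree ≤ 4) (h4 : m.coeff 4 ≠ 0) (e0 : m.eval 0 = 0) (e1 : m.eval 1 = 0)
    (eρ : m.eval ρ = 0) :
    ∃ z, m.eval z = 0 ∧ ((z = 0 ∨ z = 1 ∨ z = ρ) → (Polynomial.derivative m).eval z = 0) := by
  obtain ⟨m1, hm1⟩ := Polynomial.dvd_iff_isRoot.mpr (show m.IsRoot 0 from e0)
  have f1 : m1.eval 1 = 0 := by
    rw [hm1] at e1; simpa using e1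
  obtain ⟨m2, hm2⟩ := Polynomial.dvd_iff_isRoot.mpr (show m1.IsRoot 1 from f1)
  have f2 : m2.eval ρ = 0 := by
    rw [hm1, hm2] at eρ
    simp only [Polynomial.eval_mul, Polynomial.eval_sub, Polynomial.eval_X,
      Polynomial.eval_C, sub_zero] at eρ
    rcases mul_eq_zero.mp eρ with h | h
    · exact absurd h h0
    · rcases mul_eq_zero.mp h with h | h
      · exact absurd (sub_eq_zero.mp h) h1
      · exact h
  obtain ⟨q, hq⟩ := Polynomial.dvd_iff_isRoot.mpr (show m2.IsRoot ρ from f2)
  have hm : m = (Polynomial.X - Polynomial.C 0) * ((Polynomial.X - Polynomial.C 1) *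
      ((Polynomial.X - Polynomial.C ρ) * q)) := by rw [← hq, ← hm2, ← hm1]
  have hm0 : m ≠ 0 := by rintro rfl; simp at h4
  have hq0 : q ≠ 0 := by rintro rfl; apply hm0; rw [hm]; simp
  have hnd : m.natDegree = 4 := Polynomial.natDegree_eq_of_le_of_coeff_ne_zero hd h4
  have hqd : q.natDegree = 1 := by
    rw [hm, Polynomial.natDegree_mul (Polynomial.X_sub_C_ne_zero _)
      (mul_ne_zero (Polynomial.X_sub_C_ne_zero _) (mul_ne_zero (Polynomial.X_sub_C_ne_zero _) hq0)),
      Polynomial.natDegree_mul (Polynomial.X_sub_C_ne_zero _)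
        (mul_ne_zero (Polynomial.X_sub_C_ne_zero _) hq0),
      Polynomial.natDegree_mul (Polynomial.X_sub_C_ne_zero _) hq0,
      Polynomial.natDegree_X_sub_C, Polynomial.natDegree_X_sub_C,
      Polynomial.natDegree_X_sub_C] at hnd
    omega
  obtain ⟨z, hz⟩ := Polynomial.exists_root_of_degree_eq_one
    (p := q) (by rw [Polynomial.degree_eq_natDegree hq0, hqd]; rfl)
  have hz' : q.eval z = 0 := hz
  refine ⟨z, ?_, ?_⟩
  · rw [hm]; simp [hz']
  · intro h
    rw [hm]
    simp only [Polynomial.derivative_mul, Polynomial.derivative_sub, Polynomial.derivative_X,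
      Polynomial.derivative_C, Polynomial.eval_add, Polynomial.eval_mul, Polynomial.eval_sub,
      Polynomial.eval_X, Polynomial.eval_C, hz', sub_zero, Polynomial.eval_one]
    rcases h with h | h | h <;> subst h <;> ring

/-! ### Counting -/

open Classical in
/-- The slope of the line `P Q`. -/
noncomputable def sl [Fact p.Prime] (P Q : Pt p) : Option (ZMod p) :=
  if Q.1 = P.1 then none else some ((Q.2 - P.2) / (Q.1 - P.1))

/-- The points of `A` other than `P` on the line through `P` of slope `s`. -/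
noncomputable def fib [Fact p.Prime] (A : Finset (Pt p)) (P : Pt p) (s : Option (ZMod p)) : Finset (Pt p) :=
  open Classical in (A.erase P).filter (fun Q => sl P Q = s)

theorem two_le (A : Finset (Pt p)) (hA : NoFour A) (P : Pt p) (hP : P ∈ A) (a b : ZMod p)
    (hab : (a, b) ≠ (0, 0)) :
    ((A.erase P).filter (fun Q => a * (Q.1 - P.1) + b * (Q.2 - P.2) = 0)).card ≤ 2 := by
  classical
  have h := hA a b (a * P.1 + b * P.2) hab
  have h1 : P ∈ A.filter (fun Q => a * Q.1 + b * Q.2 = a * P.1 + b * P.2) := by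
    rw [Finset.mem_filter]; exact ⟨hP, rfl⟩
  have h2 : (A.erase P).filter (fun Q => a * (Q.1 - P.1) + b * (Q.2 - P.2) = 0) ⊆
      (A.filter (fun Q => a * Q.1 + b * Q.2 = a * P.1 + b * P.2)).erase P := by
    intro Q hQ
    rw [Finset.mem_filter, Finset.mem_erase] at hQ
    rw [Finset.mem_erase, Finset.mem_filter]
    refine ⟨hQ.1.1, hQ.1.2, ?_⟩
    linear_combination hQ.2
  have h3 := Finset.card_le_card h2
  rw [Finset.card_erase_of_mem h1] at h3
  omega

theorem card_fib_le [Fact p.Prime] (A : Finset (Pt p)) (hA : NoFour A) (P : Pt p) (hP : P ∈ A)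
    (s : Option (ZMod p)) : (fib A P s).card ≤ 2 := by
  classical
  rcases s with _ | s
  · refine (Finset.card_le_card ?_).trans (two_le A hA P hP 1 0 (by simp))
    intro Q hQ
    rw [fib, Finset.mem_filter] at hQ
    rw [Finset.mem_filter]
    refine ⟨hQ.1, ?_⟩
    have : Q.1 = P.1 := by
      by_contra h
      have := hQ.2
      rw [sl, if_neg h] at this
      simp at this
    rw [this]; ring
  · refine (Finset.card_le_card ?_).trans (two_le A hA P hP (-s) 1 (by simp))
    intro Q hQ
    rw [fib, Finset.mem_filter] at hQ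
    rw [Finset.mem_filter]
    refine ⟨hQ.1, ?_⟩
    have h := hQ.2
    rw [sl] at h
    split_ifs at h with h1
    rw [Option.some_inj] at h
    have h2 : Q.1 - P.1 ≠ 0 := sub_ne_zero.mpr h1
    rw [div_eq_iff h2] at h
    rw [h]; ring

/-- Points of equal slope are on one line. -/
theorem exists_ratio [Fact p.Prime] (P Q R : Pt p) (hQ : Q ≠ P) (hR : R ≠ P)
    (h : sl P Q = sl P R) :
    ∃ ρ : ZMod p, ρ ≠ 0 ∧ R.1 = P.1 + ρ * (Q.1 - P.1) ∧ R.2 = P.2 + ρ * (Q.2 - P.2) := by
  classical
  rw [sl, sl] at h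
  by_cases hQ1 : Q.1 = P.1
  · rw [if_pos hQ1] at h
    have hR1 : R.1 = P.1 := by
      by_contra hc
      rw [if_neg hc] at h
      simp at h
    have hQ2 : Q.2 - P.2 ≠ 0 := by
      intro hc
      exact hQ (Prod.ext hQ1 (sub_eq_zero.mp hc))
    have hR2 : R.2 - P.2 ≠ 0 := by
      intro hc
      exact hR (Prod.ext hR1 (sub_eq_zero.mp hc))
    refine ⟨(R.2 - P.2) / (Q.2 - P.2), div_ne_zero hR2 hQ2, ?_, ?_⟩
    · rw [hQ1, hR1]; ring
    · rw [div_mul_cancel₀ _ hQ2]; ring
  · rw [if_neg hQ1] at h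
    have hR1 : R.1 ≠ P.1 := by
      intro hc
      rw [if_pos hc] at h
      simp at h
    rw [if_neg hR1, Option.some_inj] at h
    have hQ2 : Q.1 - P.1 ≠ 0 := sub_ne_zero.mpr hQ1
    have hR2 : R.1 - P.1 ≠ 0 := sub_ne_zero.mpr hR1
    refine ⟨(R.1 - P.1) / (Q.1 - P.1), div_ne_zero hR2 hQ2, ?_, ?_⟩
    · rw [div_mul_cancel₀ _ hQ2]; ring
    · rw [div_eq_div_iff hQ2 hR2] at h
      field_simp
      linear_combination -h

/-- Points on the line `P Q` have the slope of `P Q`. -/
theorem sl_line [Fact p.Prime] (P Q : Pt p) (z : ZMod p) (hz : z ≠ 0) :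
    sl P (P.1 + z * (Q.1 - P.1), P.2 + z * (Q.2 - P.2)) = sl P Q := by
  classical
  rw [sl, sl]
  by_cases hQ1 : Q.1 = P.1
  · rw [if_pos hQ1, if_pos]
    rw [hQ1]; ring
  · have hQ2 : Q.1 - P.1 ≠ 0 := sub_ne_zero.mpr hQ1
    have h3 : ¬ (P.1 + z * (Q.1 - P.1) = P.1) := by
      intro h
      have : z * (Q.1 - P.1) = 0 := by linear_combination h
      rcases mul_eq_zero.mp this with h | h
      · exact hz h
      · exact hQ2 h
    rw [if_neg hQ1, if_neg h3]
    congr 1
    simp only [add_sub_cancel_left]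
    rw [mul_div_mul_left _ _ hz]

/-- The points that are alone on their line through `P`. -/
noncomputable def alone [Fact p.Prime] (A : Finset (Pt p)) (P : Pt p) : Finset (Pt p) :=
  (A.erase P).filter (fun Q => (fib A P (sl P Q)).card = 1)

theorem card_alone [Fact p.Prime] (A : Finset (Pt p)) (hA : NoFour A) (P : Pt p) (hP : P ∈ A)
    (t : ℕ) (hcard : A.card + t = 2 * p + 3) : (alone A P).card ≤ t := by
  classical
  have hU : (Finset.univ : Finset (Option (ZMod p))).card = p + 1 := by
    rw [Finset.card_univ, Fintype.card_option, ZMod.card]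
  have h1 : (A.erase P).card = ∑ s : Option (ZMod p), (fib A P s).card := by
    rw [Finset.card_eq_sum_card_fiberwise (f := sl P) (t := Finset.univ) (by simp)]
    rfl
  have h2 : (alone A P).card ≤ ∑ s : Option (ZMod p), (2 - (fib A P s).card) := by
    rw [Finset.card_eq_sum_card_fiberwise (f := sl P) (s := alone A P) (t := Finset.univ) (by simp)]
    refine Finset.sum_le_sum ?_
    intro s _
    by_cases h : ((alone A P).filter (fun Q => sl P Q = s)) = ∅
    · rw [h]; simp
    · obtain ⟨Q, hQ⟩ := Finset.nonempty_iff_ne_empty.mpr h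
      rw [Finset.mem_filter, alone, Finset.mem_filter] at hQ
      have h3 : (fib A P s).card = 1 := by rw [← hQ.2]; exact hQ.1.2
      rw [h3]
      have : ((alone A P).filter (fun Q => sl P Q = s)) ⊆ fib A P s := by
        intro R hR
        rw [Finset.mem_filter, alone, Finset.mem_filter] at hR
        rw [fib, Finset.mem_filter]
        exact ⟨hR.1.1, hR.2⟩
      have := Finset.card_le_card this
      omega
  have h3 : ∑ s : Option (ZMod p), (2 - (fib A P s).card) + ∑ s : Option (ZMod p), (fib A P s).card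
      = 2 * (p + 1) := by
    rw [← Finset.sum_add_distrib]
    have : ∀ s ∈ (Finset.univ : Finset (Option (ZMod p))),
        (2 - (fib A P s).card) + (fib A P s).card = 2 := by
      intro s _
      have := card_fib_le A hA P hP s
      omega
    rw [Finset.sum_congr rfl this, Finset.sum_const, hU, smul_eq_mul, mul_comm]
  have h4 : (A.erase P).card = A.card - 1 := Finset.card_erase_of_mem hP
  have h5 : 0 < A.card := Finset.card_pos.mpr ⟨P, hP⟩
  omega

/-- The singular points of `M` in `A`. -/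
noncomputable def sing (A : Finset (Pt p)) (M : Poly p) : Finset (Pt p) :=
  open Classical in A.filter (fun Q => ev Q M = 0 ∧ ev Q (pderiv 0 M) = 0 ∧ ev Q (pderiv 1 M) = 0)

/-- The points `Q ≠ P` of `A`, with non-zero gradient, whose tangent passes through `P`. -/
noncomputable def tang (A : Finset (Pt p)) (M : Poly p) (P : Pt p) : Finset (Pt p) :=
  open Classical in (A.erase P).filter (fun Q =>
    (ev Q (pderiv 0 M), ev Q (pderiv 1 M)) ≠ (0, 0) ∧
      ev Q (pderiv 0 M) * (P.1 - Q.1) + ev Q (pderiv 1 M) * (P.2 - Q.2) = 0)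

/-- Zeros of `M`. -/
noncomputable def zer [Fact p.Prime] (M : Poly p) : Finset (Pt p) :=
  open Classical in Finset.univ.filter (fun Q => ev Q M = 0)

theorem ev_line (P v : Pt p) (M : Poly p) (z : ZMod p) (X : Pt p) (h1 : X.1 = P.1 + z * v.1)
    (h2 : X.2 = P.2 + z * v.2) : (rs P v M).eval z = ev X M := by
  rw [eval_rs, ← h1, ← h2]

theorem cover [Fact p.Prime] (A : Finset (Pt p)) (hA : NoFour A) (M : Poly p)
    (hM4 : M.totalDegree ≤ 4) (P : Pt p) (hP : P ∈ A) (hPM : ev P M = 0) (Q : Pt p)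
    (hQ : Q ∈ A.erase P) :
    ev Q M ≠ 0 ∨ Q ∈ alone A P ∨ (∃ R ∈ A, R ≠ P ∧ ev R M ≠ 0 ∧ sl P Q = sl P R) ∨
      lf M (Q.1 - P.1, Q.2 - P.2) = 0 ∨ (∃ X ∈ zer M \ A, sl P Q = sl P X) ∨
      ev P (pderiv 0 M) * (Q.1 - P.1) + ev P (pderiv 1 M) * (Q.2 - P.2) = 0 ∨
      Q ∈ sing A M ∨ Q ∈ tang A M P ∨ (∃ R ∈ sing A M, R ≠ P ∧ sl P Q = sl P R) ∨
      (∃ R ∈ tang A M P, R ≠ P ∧ sl P Q = sl P R) := by
  classical
  by_contra hcon
  push Not at hcon
  obtain ⟨c1, c2, c3, c4, c5, c6, c7, c8, c9, c10⟩ := hcon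
  have hQP : Q ≠ P := (Finset.mem_erase.mp hQ).1
  have hQA : Q ∈ A := (Finset.mem_erase.mp hQ).2
  have hQf : Q ∈ fib A P (sl P Q) := by
    rw [fib, Finset.mem_filter]; exact ⟨hQ, rfl⟩
  -- third point
  obtain ⟨R, hR, hRQ⟩ : ∃ R ∈ fib A P (sl P Q), R ≠ Q := by
    by_contra h
    push Not at h
    apply c2
    rw [alone, Finset.mem_filter]
    refine ⟨hQ, ?_⟩
    rw [Finset.card_eq_one]
    refine ⟨Q, ?_⟩
    ext R
    rw [Finset.mem_singleton]
    refine ⟨h R, ?_⟩
    rintro rfl
    exact hQf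
  rw [fib, Finset.mem_filter, Finset.mem_erase] at hR
  obtain ⟨⟨hRP, hRA⟩, hRs⟩ := hR
  have hRM : ev R M = 0 := by
    by_contra h
    exact c3 R hRA hRP h hRs.symm
  obtain ⟨ρ, hρ0, hR1, hR2⟩ := exists_ratio P Q R hQP hRP hRs.symm
  have hρ1 : ρ ≠ 1 := by
    rintro rfl
    apply hRQ
    refine Prod.ext ?_ ?_
    · rw [hR1]; ring
    · rw [hR2]; ring
  set v : Pt p := (Q.1 - P.1, Q.2 - P.2) with hv
  have e0 : (rs P v M).eval 0 = 0 := by
    rw [ev_line P v M 0 P (by simp) (by simp)]; exact hPM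
  have e1 : (rs P v M).eval 1 = 0 := by
    rw [ev_line P v M 1 Q (by simp [hv]) (by simp [hv])]; exact c1
  have eρ : (rs P v M).eval ρ = 0 := by
    rw [ev_line P v M ρ R hR1 hR2]; exact hRM
  obtain ⟨z, hz, hz'⟩ := fourth (rs P v M) ρ hρ0 hρ1 (natDegree_rs_le P v M hM4)
    (by rw [coeff_rs P v M hM4]; exact c4) e0 e1 eρ
  rw [derivative_rs] at hz'
  simp only [Polynomial.eval_add, Polynomial.eval_mul, Polynomial.eval_C] at hz'
  by_cases hz0 : z = 0
  · have := hz' (Or.inl hz0)
    subst hz0
    rw [ev_line P v (pderiv 0 M) 0 P (by simp) (by simp),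
      ev_line P v (pderiv 1 M) 0 P (by simp) (by simp)] at this
    apply c6
    rw [← this]; simp only [hv]; ring
  by_cases hz1 : z = 1
  · have := hz' (Or.inr (Or.inl hz1))
    subst hz1
    rw [ev_line P v (pderiv 0 M) 1 Q (by simp [hv]) (by simp [hv]),
      ev_line P v (pderiv 1 M) 1 Q (by simp [hv]) (by simp [hv])] at this
    by_cases hs : (ev Q (pderiv 0 M), ev Q (pderiv 1 M)) = (0, 0)
    · apply c7
      rw [sing, Finset.mem_filter]
      rw [Prod.mk.injEq] at hs
      exact ⟨hQA, c1, hs.1, hs.2⟩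
    · apply c8
      rw [tang, Finset.mem_filter]
      refine ⟨hQ, hs, ?_⟩
      simp only [hv] at this
      linear_combination -this
  by_cases hzρ : z = ρ
  · have := hz' (Or.inr (Or.inr hzρ))
    subst hzρ
    rw [ev_line P v (pderiv 0 M) z R hR1 hR2, ev_line P v (pderiv 1 M) z R hR1 hR2] at this
    by_cases hs : (ev R (pderiv 0 M), ev R (pderiv 1 M)) = (0, 0)
    · rw [Prod.mk.injEq] at hs
      refine c9 R ?_ hRP hRs.symm
      rw [sing, Finset.mem_filter]
      exact ⟨hRA, hRM, hs.1, hs.2⟩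
    · refine c10 R ?_ hRP hRs.symm
      rw [tang, Finset.mem_filter, Finset.mem_erase]
      refine ⟨⟨hRP, hRA⟩, hs, ?_⟩
      simp only [hv] at this
      rw [hR1, hR2]
      linear_combination (-z) * this
  -- a fourth point
  set X : Pt p := (P.1 + z * v.1, P.2 + z * v.2) with hX
  have hXM : ev X M = 0 := by rw [← hz, ev_line P v M z X rfl rfl]
  have hXP : X ≠ P := by
    intro h
    apply hQP
    have h1 : z * (Q.1 - P.1) = 0 := by
      have := congrArg Prod.fst h
      simp only [hX, hv] at this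
      linear_combination this
    have h2 : z * (Q.2 - P.2) = 0 := by
      have := congrArg Prod.snd h
      simp only [hX, hv] at this
      linear_combination this
    refine Prod.ext ?_ ?_
    · exact sub_eq_zero.mp ((mul_eq_zero.mp h1).resolve_left hz0)
    · exact sub_eq_zero.mp ((mul_eq_zero.mp h2).resolve_left hz0)
  have hsX : sl P X = sl P Q := sl_line P Q z hz0
  have hXA : X ∈ A := by
    by_contra h
    refine c5 X ?_ hsX.symm
    rw [Finset.mem_sdiff, zer, Finset.mem_filter]
    exact ⟨⟨Finset.mem_univ _, hXM⟩, h⟩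
  -- all in one fibre
  have hvne : ∀ w : ZMod p, w ≠ z → (P.1 + w * v.1, P.2 + w * v.2) ≠ X := by
    intro w hw h
    have h1 : (w - z) * (Q.1 - P.1) = 0 := by
      have := congrArg Prod.fst h
      simp only [hX, hv] at this
      linear_combination this
    have h2 : (w - z) * (Q.2 - P.2) = 0 := by
      have := congrArg Prod.snd h
      simp only [hX, hv] at this
      linear_combination this
    have hw' : w - z ≠ 0 := sub_ne_zero.mpr hw
    apply hQP
    refine Prod.ext ?_ ?_
    · exact sub_eq_zero.mp ((mul_eq_zero.mp h1).resolve_left hw')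
    · exact sub_eq_zero.mp ((mul_eq_zero.mp h2).resolve_left hw')
  have hQX : Q ≠ X := by
    have := hvne 1 (Ne.symm hz1)
    intro h
    apply this
    rw [← h]
    refine Prod.ext ?_ ?_
    · simp [hv]
    · simp [hv]
  have hRX : R ≠ X := by
    have := hvne ρ (Ne.symm hzρ)
    intro h
    apply this
    rw [← h]
    refine Prod.ext ?_ ?_
    · simp only [hv]; exact hR1.symm
    · simp only [hv]; exact hR2.symm
  have h3 : ({Q, R, X} : Finset (Pt p)) ⊆ fib A P (sl P Q) := by
    intro Y hY
    simp only [Finset.mem_insert, Finset.mem_singleton] at hY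
    rw [fib, Finset.mem_filter, Finset.mem_erase]
    rcases hY with rfl | rfl | rfl
    · exact ⟨⟨hQP, hQA⟩, rfl⟩
    · exact ⟨⟨hRP, hRA⟩, hRs⟩
    · exact ⟨⟨hXP, hXA⟩, hsX⟩
  have h4 := Finset.card_le_card h3
  rw [Finset.card_insert_of_notMem (by
      simp only [Finset.mem_insert, Finset.mem_singleton, not_or]; exact ⟨hRQ.symm, hQX⟩),
    Finset.card_insert_of_notMem (by simpa using hRX), Finset.card_singleton] at h4
  have h5 := card_fib_le A hA P hP (sl P Q)
  omega

theorem card_biUnion_fib [Fact p.Prime] (A : Finset (Pt p)) (hA : NoFour A) (P : Pt p)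
    (hP : P ∈ A) (S : Finset (Option (ZMod p))) : (S.biUnion (fib A P)).card ≤ 2 * S.card := by
  classical
  refine Finset.card_biUnion_le.trans ?_
  refine (Finset.sum_le_card_nsmul _ _ 2 (fun s _ => card_fib_le A hA P hP s)).trans ?_
  rw [smul_eq_mul, mul_comm]

theorem card_point [Fact p.Prime] (A : Finset (Pt p)) (hA : NoFour A) (M : Poly p)
    (hM4 : M.totalDegree = 4) (t : ℕ) (hcard : A.card + t = 2 * p + 3) (P : Pt p) (hP : P ∈ A)
    (hPM : ev P M = 0) (hPs : (ev P (pderiv 0 M), ev P (pderiv 1 M)) ≠ (0, 0)) :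
    (A.erase P).card ≤ 3 * (A.filter (fun Q => ev Q M ≠ 0)).card + t + 10 +
      2 * (zer M \ A).card + 2 + 3 * (sing A M).card + 3 * (tang A M P).card := by
  classical
  set N := A.filter (fun Q => ev Q M ≠ 0) with hN
  set s3 := (N.image (sl P)).biUnion (fib A P) with hs3
  set s4 := (insert none ((lh M).roots.toFinset.image some)).biUnion (fib A P) with hs4
  set s5 := ((zer M \ A).image (sl P)).biUnion (fib A P) with hs5
  set s6 := (A.erase P).filter (fun Q => ev P (pderiv 0 M) * (Q.1 - P.1) +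
    ev P (pderiv 1 M) * (Q.2 - P.2) = 0) with hs6
  set s9 := ((sing A M).image (sl P)).biUnion (fib A P) with hs9
  set s10 := ((tang A M P).image (sl P)).biUnion (fib A P) with hs10
  have hsub : A.erase P ⊆ N ∪ (alone A P ∪ (s3 ∪ (s4 ∪ (s5 ∪ (s6 ∪ (sing A M ∪
      (tang A M P ∪ (s9 ∪ s10)))))))) := by
    intro Q hQ
    have hbi : ∀ (S : Finset (Pt p)) (R : Pt p), R ∈ S → sl P Q = sl P R →
        Q ∈ (S.image (sl P)).biUnion (fib A P) := by
      intro S R hR h
      rw [Finset.mem_biUnion]
      refine ⟨sl P R, Finset.mem_image_of_mem _ hR, ?_⟩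
      rw [fib, Finset.mem_filter]; exact ⟨hQ, h⟩
    have hQA : Q ∈ A := (Finset.mem_erase.mp hQ).2
    have hQP : Q ≠ P := (Finset.mem_erase.mp hQ).1
    simp only [Finset.mem_union]
    rcases cover A hA M hM4.le P hP hPM Q hQ with h | h | h | h | h | h | h | h | h | h
    · left; rw [hN, Finset.mem_filter]; exact ⟨hQA, h⟩
    · right; left; exact h
    · right; right; left
      obtain ⟨R, hRA, _, hRM, hRs⟩ := h
      exact hbi N R (by rw [hN, Finset.mem_filter]; exact ⟨hRA, hRM⟩) hRs
    · right; right; right; left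
      rw [hs4, Finset.mem_biUnion]
      refine ⟨sl P Q, ?_, by rw [fib, Finset.mem_filter]; exact ⟨hQ, rfl⟩⟩
      rw [Finset.mem_insert, Finset.mem_image]
      by_cases h1 : Q.1 = P.1
      · left; rw [sl, if_pos h1]
      · right
        refine ⟨(Q.2 - P.2) / (Q.1 - P.1), ?_, by rw [sl, if_neg h1]⟩
        have h2 : Q.1 - P.1 ≠ 0 := sub_ne_zero.mpr h1
        rw [lf_eq M _ h2] at h
        have h3 := (mul_eq_zero.mp h).resolve_left (pow_ne_zero 4 h2)
        rw [Multiset.mem_toFinset, Polynomial.mem_roots (lh_ne_zero M hM4)]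
        exact h3
    · right; right; right; right; left
      obtain ⟨X, hX, hXs⟩ := h
      exact hbi _ X hX hXs
    · right; right; right; right; right; left
      rw [hs6, Finset.mem_filter]; exact ⟨hQ, h⟩
    · right; right; right; right; right; right; left; exact h
    · right; right; right; right; right; right; right; left; exact h
    · right; right; right; right; right; right; right; right; left
      obtain ⟨R, hR, _, hRs⟩ := h
      exact hbi _ R hR hRs
    · right; right; right; right; right; right; right; right; right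
      obtain ⟨R, hR, _, hRs⟩ := h
      exact hbi _ R hR hRs
  have k2 := card_alone A hA P hP t hcard
  have kb : ∀ S : Finset (Pt p), ((S.image (sl P)).biUnion (fib A P)).card ≤ 2 * S.card := by
    intro S
    refine (card_biUnion_fib A hA P hP _).trans ?_
    have := Finset.card_image_le (s := S) (f := sl P)
    omega
  have k3 : s3.card ≤ 2 * N.card := kb N
  have k5 : s5.card ≤ 2 * (zer M \ A).card := kb (zer M \ A)
  have k9 : s9.card ≤ 2 * (sing A M).card := kb (sing A M)
  have k10 : s10.card ≤ 2 * (tang A M P).card := kb (tang A M P)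
  have k4 : s4.card ≤ 10 := by
    refine (card_biUnion_fib A hA P hP _).trans ?_
    have h1 := Finset.card_insert_le (none : Option (ZMod p)) ((lh M).roots.toFinset.image some)
    have h2 := Finset.card_image_le (s := (lh M).roots.toFinset) (f := some)
    have h3 := Multiset.toFinset_card_le (lh M).roots
    have h4 := Polynomial.card_roots' (lh M)
    have h5 := natDegree_lh_le M
    omega
  have k6 : s6.card ≤ 2 := two_le A hA P hP _ _ hPs
  have u := Finset.card_le_card hsub
  have u1 := Finset.card_union_le N (alone A P ∪ (s3 ∪ (s4 ∪ (s5 ∪ (s6 ∪ (sing A M ∪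
      (tang A M P ∪ (s9 ∪ s10))))))))
  have u2 := Finset.card_union_le (alone A P) (s3 ∪ (s4 ∪ (s5 ∪ (s6 ∪ (sing A M ∪
      (tang A M P ∪ (s9 ∪ s10)))))))
  have u3 := Finset.card_union_le s3 (s4 ∪ (s5 ∪ (s6 ∪ (sing A M ∪ (tang A M P ∪ (s9 ∪ s10))))))
  have u4 := Finset.card_union_le s4 (s5 ∪ (s6 ∪ (sing A M ∪ (tang A M P ∪ (s9 ∪ s10)))))
  have u5 := Finset.card_union_le s5 (s6 ∪ (sing A M ∪ (tang A M P ∪ (s9 ∪ s10))))
  have u6 := Finset.card_union_le s6 (sing A M ∪ (tang A M P ∪ (s9 ∪ s10)))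
  have u7 := Finset.card_union_le (sing A M) (tang A M P ∪ (s9 ∪ s10))
  have u8 := Finset.card_union_le (tang A M P) (s9 ∪ s10)
  have u9 := Finset.card_union_le s9 s10
  omega

/-- The double count of tangents. -/
theorem sum_tang (A : Finset (Pt p)) (hA : NoFour A) (M : Poly p) (W : Finset (Pt p))
    (hW : W ⊆ A) : ∑ P ∈ W, (tang A M P).card ≤ 2 * A.card := by
  classical
  calc ∑ P ∈ W, (tang A M P).card
      ≤ ∑ P ∈ A, (tang A M P).card :=
        Finset.sum_le_sum_of_subset_of_nonneg hW (fun _ _ _ => Nat.zero_le _)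
    _ = ∑ P ∈ A, ∑ Q ∈ A, (if Q ≠ P ∧ (ev Q (pderiv 0 M), ev Q (pderiv 1 M)) ≠ (0, 0) ∧
          ev Q (pderiv 0 M) * (P.1 - Q.1) + ev Q (pderiv 1 M) * (P.2 - Q.2) = 0 then 1 else 0) := by
        refine Finset.sum_congr rfl ?_
        intro P _
        rw [← Finset.card_filter, tang]
        congr 1
        ext Q
        simp only [Finset.mem_filter, Finset.mem_erase]
        tauto
    _ = ∑ Q ∈ A, ∑ P ∈ A, (if Q ≠ P ∧ (ev Q (pderiv 0 M), ev Q (pderiv 1 M)) ≠ (0, 0) ∧
          ev Q (pderiv 0 M) * (P.1 - Q.1) + ev Q (pderiv 1 M) * (P.2 - Q.2) = 0 then 1 else 0) :=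
        Finset.sum_comm
    _ ≤ ∑ Q ∈ A, 2 := by
        refine Finset.sum_le_sum ?_
        intro Q hQ
        rw [← Finset.card_filter]
        by_cases h : (ev Q (pderiv 0 M), ev Q (pderiv 1 M)) = (0, 0)
        · rw [Finset.filter_false_of_mem]
          · simp
          · intro P _ hc; exact hc.2.1 h
        · refine (Finset.card_le_card ?_).trans (two_le A hA Q hQ _ _ h)
          intro P hP
          rw [Finset.mem_filter] at hP ⊢
          rw [Finset.mem_erase]
          exact ⟨⟨fun hc => hP.2.1 hc.symm, hP.1⟩, hP.2.2.2⟩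
    _ = 2 * A.card := by rw [Finset.sum_const, smul_eq_mul, mul_comm]

/-- The number of zeros of `M`. -/
theorem card_zer [Fact p.Prime] (hp : 10 ^ 8 ≤ p) (M : Poly p) (hsq : Squarefree M)
    (h1 : 0 < M.totalDegree) (h4 : M.totalDegree ≤ 4)
    (hirr : ∀ K, Irreducible K → K ∣ M → 2 ≤ K.totalDegree) :
    2 * (zer M).card ≤ 3 * p + 27 ∨ (M.totalDegree = 4 ∧ (zer M).card ≤ 2 * p + 24) := by
  classical
  have hM0 : M ≠ 0 := by rintro rfl; simp at h1
  have hnu : ∀ F : Poly p, IsUnit F → F.totalDegree = 0 := by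
    intro F hF
    obtain ⟨r, hr, hrF⟩ := MvPolynomial.isUnit_iff_eq_C_of_isReduced.mp hF
    rw [hrF, totalDegree_C]
  have hMu : ¬ IsUnit M := fun h => by rw [hnu M h] at h1; exact lt_irrefl _ h1
  obtain ⟨K, hK, M1, hM1⟩ := WfDvdMonoid.exists_irreducible_factor hMu hM0
  have hK0 : K ≠ 0 := hK.ne_zero
  have hM10 : M1 ≠ 0 := by rintro rfl; apply hM0; rw [hM1, mul_zero]
  have hd : M.totalDegree = K.totalDegree + M1.totalDegree := by
    rw [hM1, totalDegree_mul_of_isDomain hK0 hM10]
  have hc2 := hirr K hK ⟨M1, hM1⟩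
  by_cases hu : IsUnit M1
  · have hd1 := hnu M1 hu
    have hv : Van (zer M) K := by
      intro Q hQ
      rw [zer, Finset.mem_filter, hM1, map_mul] at hQ
      exact (mul_eq_zero.mp hQ.2).resolve_right ((hu.map (ev Q)).ne_zero)
    have hb := card_points K hK hc2 (by omega) (zer M) hv
    have hc4 : K.totalDegree ≤ 4 := by omega
    generalize hcc : K.totalDegree = c at *
    have h3 : c = 2 ∨ c = 3 ∨ c = 4 := by omega
    rcases h3 with h | h | h
    · rw [h] at hb; left; omega
    · rw [h] at hb; left; omega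
    · rw [h] at hb; right; omega
  · obtain ⟨K2, hK2, M2, hM2⟩ := WfDvdMonoid.exists_irreducible_factor hu hM10
    have hK20 : K2 ≠ 0 := hK2.ne_zero
    have hM20 : M2 ≠ 0 := by rintro rfl; apply hM10; rw [hM2, mul_zero]
    have hd2 : M1.totalDegree = K2.totalDegree + M2.totalDegree := by
      rw [hM2, totalDegree_mul_of_isDomain hK20 hM20]
    have hc22 := hirr K2 hK2 ⟨K * M2, by rw [hM1, hM2]; ring⟩
    have hM2d : M2.totalDegree = 0 := by omega
    have hM2u : IsUnit M2 := by
      rw [totalDegree_eq_zero_iff_eq_C] at hM2d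
      rw [hM2d]
      apply IsUnit.map
      rw [isUnit_iff_ne_zero]
      intro h5
      apply hM20
      rw [hM2d, h5, map_zero]
    have hb := card_points K hK hc2 (by omega) ((zer M).filter (fun Q => ev Q K = 0))
      (by intro Q hQ; exact (Finset.mem_filter.mp hQ).2)
    have hb2 := card_points K2 hK2 hc22 (by omega) ((zer M).filter (fun Q => ev Q K2 = 0))
      (by intro Q hQ; exact (Finset.mem_filter.mp hQ).2)
    have hKc : K.totalDegree = 2 := by omega
    have hK2c : K2.totalDegree = 2 := by omega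
    rw [hKc] at hb
    rw [hK2c] at hb2
    have hsub : zer M ⊆ (zer M).filter (fun Q => ev Q K = 0) ∪
        (zer M).filter (fun Q => ev Q K2 = 0) := by
      intro Q hQ
      rw [Finset.mem_union, Finset.mem_filter, Finset.mem_filter]
      have h := hQ
      rw [zer, Finset.mem_filter, hM1, hM2, map_mul, map_mul] at h
      rcases mul_eq_zero.mp h.2 with h | h
      · left; exact ⟨hQ, h⟩
      · rcases mul_eq_zero.mp h with h | h
        · right; exact ⟨hQ, h⟩
        · exact absurd h (hM2u.map (ev Q)).ne_zero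
    have := (Finset.card_le_card hsub).trans (Finset.card_union_le _ _)
    right
    omega

end Final

/-- Module FINAL. -/
theorem final [Fact p.Prime] (hp : 10 ^ 8 ≤ p) (A : Finset (Pt p)) (hA : NoFour A)
    (t : ℕ) (hcard : A.card + t = 2 * p + 3) (ht : 10 * t ≤ p) (e : ℕ) (hep : 200 * e ≤ p)
    (M : Poly p) (hM : Rich A e M) : False := by
  classical
  obtain ⟨hsq, h1, h4, hirr, hN⟩ := hM
  have hM0 : M ≠ 0 := by rintro rfl; simp at h1
  set N := A.filter (fun Q => ev Q M ≠ 0) with hNdef
  have hAZ : (A.filter (fun Q => ev Q M = 0)).card + N.card = A.card := by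
    have := Finset.card_filter_add_card_filter_not (s := A) (fun Q => ev Q M = 0)
    exact this
  have hsubZ : A.filter (fun Q => ev Q M = 0) ⊆ Final.zer M := by
    intro Q hQ
    rw [Final.zer, Finset.mem_filter]
    exact ⟨Finset.mem_univ _, (Finset.mem_filter.mp hQ).2⟩
  have hle := Finset.card_le_card hsubZ
  rcases Final.card_zer hp M hsq h1 h4 hirr with hz | ⟨hM4, hz⟩
  · omega
  -- the points of the curve outside `A`
  have hE : (Final.zer M \ A).card + (A.filter (fun Q => ev Q M = 0)).card = (Final.zer M).card := by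
    have h := Finset.card_sdiff_add_card_inter (Final.zer M) A
    have h2 : Final.zer M ∩ A = A.filter (fun Q => ev Q M = 0) := by
      ext Q
      rw [Finset.mem_inter, Finset.mem_filter, Final.zer, Finset.mem_filter]
      constructor
      · rintro ⟨⟨_, h⟩, h'⟩; exact ⟨h', h⟩
      · rintro ⟨h', h⟩; exact ⟨⟨Finset.mem_univ _, h⟩, h'⟩
    rw [← h2]; exact h
  have hS : (Final.sing A M).card ≤ 16 := by
    have := card_sing M hM0 hsq (by omega) (Final.sing A M)
      (by intro Q hQ; rw [Final.sing, Finset.mem_filter] at hQ; exact hQ.2.1)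
      (by intro Q hQ; rw [Final.sing, Finset.mem_filter] at hQ; exact hQ.2.2.1)
      (by intro Q hQ; rw [Final.sing, Finset.mem_filter] at hQ; exact hQ.2.2.2)
    rw [hM4] at this
    exact this
  set W := A.filter (fun P => ev P M = 0 ∧
    (ev P (pderiv 0 M), ev P (pderiv 1 M)) ≠ (0, 0)) with hW
  have hWc : A.card ≤ W.card + N.card + 16 := by
    have hsub : A ⊆ W ∪ (N ∪ Final.sing A M) := by
      intro Q hQ
      rw [Finset.mem_union, Finset.mem_union, hW, Finset.mem_filter, hNdef, Finset.mem_filter,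
        Final.sing, Finset.mem_filter]
      by_cases h : ev Q M = 0
      · by_cases h' : (ev Q (pderiv 0 M), ev Q (pderiv 1 M)) = (0, 0)
        · right; right
          rw [Prod.mk.injEq] at h'
          exact ⟨hQ, h, h'.1, h'.2⟩
        · left; exact ⟨hQ, h, h'⟩
      · right; left; exact ⟨hQ, h⟩
    have h5 := (Finset.card_le_card hsub).trans (Finset.card_union_le _ _)
    have h6 := Finset.card_union_le N (Final.sing A M)
    omega
  have hsum : ∑ P ∈ W, (A.card - 1) ≤ ∑ P ∈ W, (3 * N.card + t + 10 +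
      2 * (Final.zer M \ A).card + 2 + 3 * 16 + 3 * (Final.tang A M P).card) := by
    refine Finset.sum_le_sum ?_
    intro P hP
    rw [hW, Finset.mem_filter] at hP
    have h := Final.card_point A hA M hM4 t hcard P hP.1 hP.2.1 hP.2.2
    rw [Finset.card_erase_of_mem hP.1] at h
    refine h.trans ?_
    change 3 * N.card + t + 10 + 2 * (Final.zer M \ A).card + 2 + 3 * (Final.sing A M).card +
      3 * (Final.tang A M P).card ≤ _
    omega
  rw [Finset.sum_add_distrib, Finset.sum_const, Finset.sum_const, ← Finset.mul_sum] at hsum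
  have htg := Final.sum_tang A hA M W (Finset.filter_subset _ _)
  simp only [smul_eq_mul] at hsum
  set n := A.card
  set w := W.card
  set a := N.card
  set ee := (Final.zer M \ A).card
  have hee : ee ≤ t + e + 53 := by omega
  have hk : 3 * a + t + 10 + 2 * ee + 2 + 3 * 16 ≤ p := by omega
  have hwn : w ≤ n := Finset.card_le_card (Finset.filter_subset _ _)
  have h7 : w * (n - 1) ≤ w * p + 3 * (2 * n) := by
    refine hsum.trans ?_
    have : w * (3 * a + t + 10 + 2 * ee + 2 + 3 * 16) ≤ w * p := Nat.mul_le_mul_left _ hk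
    omega
  have h8 : p ≤ w := by omega
  have h9 : p + 800 ≤ n - 1 - 0 := by omega
  have h10 : w * (n - 1) ≥ w * (p + 800) := Nat.mul_le_mul_left _ (by omega)
  have h11 : n ≤ 3 * p := by omega
  nlinarith

end Pool.Agent.Lib.Arc3
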