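import Pool.Agent.Lib.MP_193dd3_co_ARC.Points

/-!
Project ARC (MP_193dd3_co), module FLEX: points of `A` where `Wr B` vanishes.
-/

namespace Pool.Agent.Lib.Arc3

open MvPolynomial

variable {p : ℕ}

/-- A polynomial of degree at most `1` is an affine form. -/
theorem exists_lin_of_totalDegree_le_one (f : Poly p) (hf : f.totalDegree ≤ 1) :
    ∃ a b c : ZMod p, f = lin a b c := by
  refine ⟨coeff (Finsupp.single 0 1) f, coeff (Finsupp.single 1 1) f, coeff 0 f, ?_⟩
  ext m
  by_cases hm : 1 < m.sum fun _ e => e
  · have h1 : coeff m f = 0 := coeff_eq_zero_of_totalDegree_lt (lt_of_le_of_lt hf hm)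
    have h2 : coeff m (lin (coeff (Finsupp.single 0 1) f) (coeff (Finsupp.single 1 1) f)
        (coeff 0 f)) = 0 :=
      coeff_eq_zero_of_totalDegree_lt (lt_of_le_of_lt (totalDegree_lin_le _ _ _) hm)
    rw [h1, h2]
  · have hsum : (m.sum fun _ e => e) = m 0 + m 1 := by
      rw [Finsupp.sum_fintype _ _ (fun _ => rfl), Fin.sum_univ_two]
    rw [hsum] at hm
    have hcases : m = 0 ∨ m = Finsupp.single 0 1 ∨ m = Finsupp.single 1 1 := by
      rcases Nat.eq_zero_or_pos (m 0) with h0 | h0 <;> rcases Nat.eq_zero_or_pos (m 1) with h1 | h1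
      · left; ext i; fin_cases i
        · exact h0
        · exact h1
      · right; right; ext i; fin_cases i
        · simp [h0]
        · simp; omega
      · right; left; ext i; fin_cases i
        · simp; omega
        · simp [h1]
      · omega
    have e01 : (Finsupp.single (0 : Fin 2) 1 : Fin 2 →₀ ℕ) ≠ Finsupp.single 1 1 := by
      intro h
      have := DFunLike.congr_fun h 0
      simp at this
    have e0 : (0 : Fin 2 →₀ ℕ) ≠ Finsupp.single (0 : Fin 2) 1 := by
      intro h
      have := DFunLike.congr_fun h 0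
      simp at this
    have e1 : (0 : Fin 2 →₀ ℕ) ≠ Finsupp.single (1 : Fin 2) 1 := by
      intro h
      have := DFunLike.congr_fun h 1
      simp at this
    unfold lin
    rcases hcases with rfl | rfl | rfl
    · simp [coeff_C_mul]
    · rw [coeff_add, coeff_add, coeff_C_mul, coeff_C_mul, coeff_X, coeff_X, coeff_C,
        if_pos rfl, if_neg e01.symm, if_neg e0]
      ring
    · rw [coeff_add, coeff_add, coeff_C_mul, coeff_C_mul, coeff_X, coeff_X, coeff_C,
        if_neg e01, if_pos rfl, if_neg e1]
      ring

theorem irreducible_deg_pos [Fact p.Prime] (K : Poly p) (hK : Irreducible K) :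
    1 ≤ K.totalDegree := by
  by_contra h
  have h0 : K.totalDegree = 0 := by omega
  rw [totalDegree_eq_zero_iff_eq_C] at h0
  apply hK.not_isUnit
  rw [h0]
  apply IsUnit.map
  rw [isUnit_iff_ne_zero]
  intro h5
  apply hK.ne_zero
  rw [h0, h5, map_zero]

theorem totalDegree_Wr_le (B : Poly p) : (Wr B).totalDegree ≤ 3 * B.totalDegree := by
  have h1 : ∀ i : Fin 2, (pderiv i B).totalDegree ≤ B.totalDegree := fun i =>
    (totalDegree_pderiv_le i B).trans (Nat.sub_le _ _)
  have h2 : ∀ i j : Fin 2, (pderiv i (pderiv j B)).totalDegree ≤ B.totalDegree := fun i j =>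
    (totalDegree_pderiv_le i _).trans ((Nat.sub_le _ _).trans (h1 j))
  have h0 : (2 : Poly p).totalDegree ≤ 0 := by
    have : (2 : Poly p) = C 2 := by rw [map_ofNat]
    rw [this, totalDegree_C]
  unfold Wr
  refine (totalDegree_add _ _).trans (max_le ((totalDegree_sub _ _).trans (max_le ?_ ?_)) ?_)
  · refine (totalDegree_mul _ _).trans ?_
    have := (totalDegree_pow (pderiv 1 B) 2)
    have := h1 1; have := h2 0 0
    omega
  · refine (totalDegree_mul _ _).trans ?_
    have a1 := (totalDegree_mul (2 * pderiv 0 B) (pderiv 1 B))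
    have a2 := (totalDegree_mul (2 : Poly p) (pderiv 0 B))
    have := h1 0; have := h1 1; have := h2 0 1
    omega
  · refine (totalDegree_mul _ _).trans ?_
    have := (totalDegree_pow (pderiv 0 B) 2)
    have := h1 0; have := h2 1 1
    omega

/-- The points on one irreducible factor. -/
theorem card_flex_factor [Fact p.Prime] (A : Finset (Pt p)) (hA : NoFour A) (B : Poly p)
    (hB0 : B ≠ 0) (hsq : Squarefree B) (hdeg : B.totalDegree < p) (K : Poly p)
    (hK : Irreducible K) (hKB : K ∣ B) :
    (A.filter (fun P => ev P K = 0 ∧ ev P (Wr B) = 0)).card ≤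
      3 * K.totalDegree * B.totalDegree := by
  classical
  obtain ⟨M, hM⟩ := hKB
  have hM0 : M ≠ 0 := by rintro rfl; apply hB0; rw [hM, mul_zero]
  have hc1 := irreducible_deg_pos K hK
  have hdegB : B.totalDegree = K.totalDegree + M.totalDegree := by
    rw [hM, totalDegree_mul_of_isDomain hK.ne_zero hM0]
  by_cases hc : K.totalDegree = 1
  · obtain ⟨a, b, c, hlin⟩ := exists_lin_of_totalDegree_le_one K hc.le
    have hab : (a, b) ≠ (0, 0) := by
      intro h
      rw [Prod.mk.injEq] at h
      rw [hlin, h.1, h.2] at hc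
      unfold lin at hc
      simp at hc
    have h1 := hA a b (-c) hab
    have h2 : (A.filter (fun P => ev P K = 0 ∧ ev P (Wr B) = 0)).card ≤
        (A.filter (fun Q => a * Q.1 + b * Q.2 = -c)).card := by
      refine Finset.card_le_card fun P hP => ?_
      rw [Finset.mem_filter] at hP ⊢
      refine ⟨hP.1, ?_⟩
      have h3 := hP.2.1
      rw [hlin, ev_lin] at h3
      linear_combination h3
    rw [hc, mul_one]
    have : 1 ≤ B.totalDegree := by omega
    omega
  · by_cases hdvd : K ∣ Wr B
    · -- all rational points of `K` are singular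
      have hKM : ¬ K ∣ M := by
        rintro ⟨N, hN⟩
        apply hK.not_isUnit
        apply hsq
        rw [hM, hN]
        exact ⟨N, by ring⟩
      have h1 : K ∣ M ^ 3 * Wr K := by
        have h2 := wrmul K M
        rw [← hM] at h2
        have h3 := hdvd.sub h2
        have e : Wr B - (Wr B - M ^ 3 * Wr K) = M ^ 3 * Wr K := by ring
        rwa [e] at h3
      have hKW : K ∣ Wr K := by
        rcases hK.prime.dvd_or_dvd h1 with h2 | h2
        · exact absurd (hK.prime.dvd_of_dvd_pow h2) hKM
        · exact h2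
      have hns : ∀ P, ¬ SmoothAt K P := fun P hP => hc (hess K hK (by omega) P hP hKW)
      have h4 := card_sing K hK.ne_zero hK.squarefree (by omega)
        (A.filter (fun P => ev P K = 0 ∧ ev P (Wr B) = 0))
        (fun Q hQ => (Finset.mem_filter.mp hQ).2.1)
        (fun Q hQ => by
          by_contra h5
          exact hns Q ⟨(Finset.mem_filter.mp hQ).2.1, Or.inl h5⟩)
        (fun Q hQ => by
          by_contra h5
          exact hns Q ⟨(Finset.mem_filter.mp hQ).2.1, Or.inr h5⟩)
      refine h4.trans ?_
      have : K.totalDegree ≤ B.totalDegree := by omega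
      nlinarith
    · have hW0 : Wr B ≠ 0 := by
        intro h; apply hdvd; rw [h]; exact dvd_zero K
      have hcop : IsRelPrime K (Wr B) := (hK.isRelPrime_iff_not_dvd).mpr hdvd
      have h1 := bezout_points K (Wr B) hK.ne_zero hW0 hcop
        (A.filter (fun P => ev P K = 0 ∧ ev P (Wr B) = 0))
        (fun Q hQ => (Finset.mem_filter.mp hQ).2.1) (fun Q hQ => (Finset.mem_filter.mp hQ).2.2)
      refine h1.trans ?_
      have := totalDegree_Wr_le B
      nlinarith

theorem card_flex_dvd [Fact p.Prime] (A : Finset (Pt p)) (hA : NoFour A) (B : Poly p)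
    (hB0 : B ≠ 0) (hsq : Squarefree B) (hdeg : B.totalDegree < p) (M : Poly p) (hM0 : M ≠ 0)
    (hMB : M ∣ B) :
    (A.filter (fun P => ev P M = 0 ∧ ev P (Wr B) = 0)).card ≤
      3 * M.totalDegree * B.totalDegree := by
  classical
  induction M using UniqueFactorizationMonoid.induction_on_prime with
  | h₁ => exact absurd rfl hM0
  | h₂ x hx =>
    have : A.filter (fun P => ev P x = 0 ∧ ev P (Wr B) = 0) = ∅ := by
      rw [Finset.filter_eq_empty_iff]
      intro P _ h
      have := hx.map (ev P)
      rw [h.1] at this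
      exact not_isUnit_zero this
    rw [this]
    simp
  | h₃ a K ha hK ih =>
    have h1 := ih ha ((dvd_mul_left a K).trans hMB)
    have h2 := card_flex_factor A hA B hB0 hsq hdeg K hK.irreducible
      ((dvd_mul_right K a).trans hMB)
    have h3 : A.filter (fun P => ev P (K * a) = 0 ∧ ev P (Wr B) = 0) ⊆
        A.filter (fun P => ev P K = 0 ∧ ev P (Wr B) = 0) ∪
        A.filter (fun P => ev P a = 0 ∧ ev P (Wr B) = 0) := by
      intro P hP
      rw [Finset.mem_filter, map_mul, mul_eq_zero] at hP
      rw [Finset.mem_union, Finset.mem_filter, Finset.mem_filter]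
      tauto
    have h4 := (Finset.card_le_card h3).trans (Finset.card_union_le _ _)
    rw [totalDegree_mul_of_isDomain hK.ne_zero ha]
    nlinarith

/-- Module FLEX: points of `A` where the Wronskian form vanishes. -/
theorem card_flex [Fact p.Prime] (A : Finset (Pt p)) (hA : NoFour A) (B : Poly p) (hB0 : B ≠ 0)
    (hsq : Squarefree B) (hdeg : B.totalDegree < p) (hB : Van A B) :
    (A.filter (fun P => ev P (Wr B) = 0)).card ≤ 3 * B.totalDegree ^ 2 := by
  classical
  have h1 := card_flex_dvd A hA B hB0 hsq hdeg B hB0 dvd_rfl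
  have h2 : A.filter (fun P => ev P (Wr B) = 0) =
      A.filter (fun P => ev P B = 0 ∧ ev P (Wr B) = 0) := by
    refine Finset.filter_congr fun P hP => ?_
    rw [hB P hP]
    simp
  rw [h2]
  refine h1.trans ?_
  rw [mul_assoc, ← sq]

end Pool.Agent.Lib.Arc3
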