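import Pool.Agent.Lib.MP_193dd3_co_ARC.Basic

/-!
Project ARC (MP_193dd3_co), module BEZ: the weak form of Bezout's theorem for rational points, and
its version with tangency conditions.
-/

namespace Pool.Agent.Lib.Arc3

open MvPolynomial

variable {p : ℕ}

namespace BezAux

/-- The exponents of total degree at most `d`, as pairs. -/
def Sd (d : ℕ) : Finset (ℕ × ℕ) :=
  (Finset.range (d + 1)).biUnion Finset.HasAntidiagonal.antidiagonal

theorem mem_Sd (d : ℕ) (x : ℕ × ℕ) : x ∈ Sd d ↔ x.1 + x.2 ≤ d := by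
  unfold Sd
  rw [Finset.mem_biUnion]
  constructor
  · rintro ⟨i, hi, hx⟩
    rw [Finset.mem_range] at hi
    rw [Finset.HasAntidiagonal.mem_antidiagonal] at hx
    omega
  · intro h
    exact ⟨x.1 + x.2, Finset.mem_range.2 (by omega), Finset.HasAntidiagonal.mem_antidiagonal.2 rfl⟩

theorem card_Sd (d : ℕ) : 2 * (Sd d).card = (d + 1) * (d + 2) := by
  unfold Sd
  rw [Finset.card_biUnion]
  · simp only [Finset.Nat.card_antidiagonal]
    have h := Finset.sum_range_id_mul_two (d + 2)
    rw [Finset.sum_range_succ'] at h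
    simp only [add_zero, Nat.add_one_sub_one] at h
    rw [mul_comm, h]
    ring
  · intro i _ j _ hij
    refine Finset.disjoint_left.2 ?_
    intro x hx hx'
    rw [Finset.HasAntidiagonal.mem_antidiagonal] at hx hx'
    exact hij (hx.symm.trans hx')

theorem finrank_V [Fact p.Prime] (d : ℕ) :
    2 * Module.finrank (ZMod p) (restrictTotalDegree (Fin 2) (ZMod p) d) =
      (d + 1) * (d + 2) := by
  have h1 : Module.finrank (ZMod p) (restrictTotalDegree (Fin 2) (ZMod p) d) =
      Nat.card {n : Fin 2 →₀ ℕ | (n.sum fun _ e => e) ≤ d} :=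
    Module.finrank_eq_nat_card_basis (basisRestrictSupport (ZMod p)
      {n : Fin 2 →₀ ℕ | (n.sum fun _ e => e) ≤ d})
  have h2 : Nat.card {n : Fin 2 →₀ ℕ | (n.sum fun _ e => e) ≤ d} = (Sd d).card := by
    have h3 : Nat.card (Sd d) = (Sd d).card := by
      rw [Nat.card_eq_fintype_card, Fintype.card_coe]
    rw [← h3]
    refine Nat.card_congr ((Finsupp.equivFunOnFinite.trans (finTwoArrowEquiv ℕ)).subtypeEquiv ?_)
    intro n
    rw [mem_Sd]
    show (n.sum fun _ e => e) ≤ d ↔ n 0 + n 1 ≤ d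
    rw [Finsupp.sum_fintype _ _ (fun _ => rfl), Fin.sum_univ_two]
  rw [h1, h2, card_Sd]

/-- The map `(u, v) ↦ F u + G v`. -/
noncomputable def Phi (F G : Poly p) (d : ℕ) :
    (restrictTotalDegree (Fin 2) (ZMod p) (d - F.totalDegree) ×
      restrictTotalDegree (Fin 2) (ZMod p) (d - G.totalDegree)) →ₗ[ZMod p] Poly p :=
  (LinearMap.mulLeft (ZMod p) F ∘ₗ Submodule.subtype _).coprod
    (LinearMap.mulLeft (ZMod p) G ∘ₗ Submodule.subtype _)

/-- The map `w ↦ (G w, -F w)`. -/
noncomputable def Psi (F G : Poly p) (d : ℕ) (hd : F.totalDegree + G.totalDegree ≤ d) :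
    restrictTotalDegree (Fin 2) (ZMod p) (d - F.totalDegree - G.totalDegree) →ₗ[ZMod p]
    (restrictTotalDegree (Fin 2) (ZMod p) (d - F.totalDegree) ×
      restrictTotalDegree (Fin 2) (ZMod p) (d - G.totalDegree)) :=
  ((LinearMap.mulLeft (ZMod p) G ∘ₗ Submodule.subtype _).codRestrict _ (by
    intro w
    rw [mem_restrictTotalDegree]
    have h := (mem_restrictTotalDegree _ _ _).1 w.2
    refine (totalDegree_mul _ _).trans ?_
    simp only [Submodule.subtype_apply]
    omega)).prod
  ((LinearMap.mulLeft (ZMod p) (-F) ∘ₗ Submodule.subtype _).codRestrict _ (by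
    intro w
    rw [mem_restrictTotalDegree]
    have h := (mem_restrictTotalDegree _ _ _).1 w.2
    refine (totalDegree_mul _ _).trans ?_
    rw [totalDegree_neg]
    simp only [Submodule.subtype_apply]
    omega))

theorem arith (a b d x1 x2 x3 x4 y1 y2 y3 y4 : ℕ) (hd : a + b ≤ d)
    (e1 : 2 * y1 = (d + 1) * (d + 2)) (e2 : 2 * y2 = (d - a + 1) * (d - a + 2))
    (e3 : 2 * y3 = (d - b + 1) * (d - b + 2)) (e4 : 2 * y4 = (d - a - b + 1) * (d - a - b + 2))
    (k1 : x1 ≤ y4) (k2 : x2 + x1 = y2 + y3) (k3 : x4 + x3 = y1) (k4 : x2 ≤ x3) :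
    x4 ≤ a * b := by
  obtain ⟨m, rfl⟩ : ∃ m, d = a + b + m := ⟨d - (a + b), by omega⟩
  have d1 : a + b + m - a = b + m := by omega
  have d2 : a + b + m - b = a + m := by omega
  have d3 : b + m - b = m := by omega
  rw [d1] at e2 e4
  rw [d2] at e3
  rw [d3] at e4
  have h : 2 * x4 ≤ 2 * (a * b) := by
    zify at *
    linarith
  omega

theorem bez_gen [Fact p.Prime] (F G : Poly p) (_hF : F ≠ 0) (hG : G ≠ 0)
    (hcop : IsRelPrime F G) {W : Type*} [AddCommGroup W] [Module (ZMod p) W]
    [FiniteDimensional (ZMod p) W] (L : Poly p →ₗ[ZMod p] W) (d : ℕ)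
    (hd : F.totalDegree + G.totalDegree ≤ d)
    (hsurj : ∀ w, ∃ f : Poly p, f.totalDegree ≤ d ∧ L f = w)
    (h1 : ∀ u, L (F * u) = 0) (h2 : ∀ v, L (G * v) = 0) :
    Module.finrank (ZMod p) W ≤ F.totalDegree * G.totalDegree := by
  set Φ := Phi F G d with hΦ
  set Ψ := Psi F G d hd with hΨ
  have hker : LinearMap.ker Φ ≤ LinearMap.range Ψ := by
    rintro ⟨u, v⟩ huv
    rw [LinearMap.mem_ker] at huv
    have huv' : F * (u : Poly p) + G * (v : Poly p) = 0 := huv
    have hdvd : G ∣ F * (u : Poly p) := ⟨-(v : Poly p), by linear_combination huv'⟩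
    obtain ⟨w, hw⟩ := hcop.symm.dvd_of_dvd_mul_left hdvd
    have hv : (v : Poly p) = -F * w := by
      have : G * ((v : Poly p) + F * w) = 0 := by
        rw [hw] at huv'
        linear_combination huv'
      rcases mul_eq_zero.1 this with h | h
      · exact absurd h hG
      · linear_combination h
    have hwd : w.totalDegree ≤ d - F.totalDegree - G.totalDegree := by
      by_cases hw0 : w = 0
      · rw [hw0, totalDegree_zero]
        exact Nat.zero_le _
      · have h3 := (mem_restrictTotalDegree _ _ _).1 u.2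
        rw [hw, totalDegree_mul_of_isDomain hG hw0] at h3
        omega
    refine ⟨⟨w, (mem_restrictTotalDegree _ _ _).2 hwd⟩, ?_⟩
    apply Prod.ext
    · apply Subtype.ext
      exact hw.symm
    · apply Subtype.ext
      exact hv.symm
  have e1 := finrank_V (p := p) d
  have e2 := finrank_V (p := p) (d - F.totalDegree)
  have e3 := finrank_V (p := p) (d - G.totalDegree)
  have e4 := finrank_V (p := p) (d - F.totalDegree - G.totalDegree)
  -- the kernel of `Φ` is small
  have k1 : Module.finrank (ZMod p) (LinearMap.ker Φ) ≤ Module.finrank (ZMod p)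
      (restrictTotalDegree (Fin 2) (ZMod p) (d - F.totalDegree - G.totalDegree)) :=
    (Submodule.finrank_mono hker).trans (LinearMap.finrank_range_le Ψ)
  have k2 := LinearMap.finrank_range_add_finrank_ker Φ
  rw [Module.finrank_prod] at k2
  -- the map `L` on the polynomials of degree at most `d`
  set L' := L ∘ₗ (restrictTotalDegree (Fin 2) (ZMod p) d).subtype with hL'
  have hL's : Function.Surjective L' := by
    intro w
    obtain ⟨f, hf, hfw⟩ := hsurj w
    exact ⟨⟨f, (mem_restrictTotalDegree _ _ _).2 hf⟩, hfw⟩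
  have k3 := LinearMap.finrank_range_add_finrank_ker L'
  rw [LinearMap.range_eq_top.2 hL's, finrank_top] at k3
  have hΦd : ∀ x, Φ x ∈ restrictTotalDegree (Fin 2) (ZMod p) d := by
    rintro ⟨u, v⟩
    rw [mem_restrictTotalDegree]
    have hu := (mem_restrictTotalDegree _ _ _).1 u.2
    have hv := (mem_restrictTotalDegree _ _ _).1 v.2
    show (F * (u : Poly p) + G * (v : Poly p)).totalDegree ≤ d
    refine (totalDegree_add _ _).trans (max_le ?_ ?_)
    · exact (totalDegree_mul _ _).trans (by omega)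
    · exact (totalDegree_mul _ _).trans (by omega)
  have k4 : Module.finrank (ZMod p) (LinearMap.range Φ) ≤
      Module.finrank (ZMod p) (LinearMap.ker L') := by
    have hle : LinearMap.range Φ ≤ (LinearMap.ker L').map
        (restrictTotalDegree (Fin 2) (ZMod p) d).subtype := by
      rintro _ ⟨x, rfl⟩
      refine ⟨⟨Φ x, hΦd x⟩, ?_, rfl⟩
      rw [SetLike.mem_coe, LinearMap.mem_ker]
      obtain ⟨u, v⟩ := x
      show L (F * (u : Poly p) + G * (v : Poly p)) = 0
      rw [map_add, h1, h2, add_zero]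
    refine (Submodule.finrank_mono hle).trans ?_
    exact Submodule.finrank_map_le _ _
  exact arith _ _ d _ _ _ _ _ _ _ _ hd e1 e2 e3 e4 k1 k2 k3 k4

theorem exists_line [Fact p.Prime] (Q P : Pt p) (h : Q ≠ P) :
    ∃ l : Poly p, l.totalDegree ≤ 1 ∧ ev Q l = 0 ∧ ev P l ≠ 0 := by
  by_cases h1 : Q.1 = P.1
  · have h2 : Q.2 ≠ P.2 := fun h2 => h (Prod.ext h1 h2)
    refine ⟨lin 0 1 (-Q.2), totalDegree_lin_le _ _ _, by simp, ?_⟩
    rw [ev_lin]
    intro h3
    exact h2 (by linear_combination -h3)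
  · refine ⟨lin 1 0 (-Q.1), totalDegree_lin_le _ _ _, by simp, ?_⟩
    rw [ev_lin]
    intro h3
    exact h1 (by linear_combination -h3)

theorem exists_prod [Fact p.Prime] (S : Finset (Pt p)) (P : Pt p) (k : ℕ) :
    ∃ h : Poly p, h.totalDegree ≤ k * S.card ∧ ev P h ≠ 0 ∧
      ∀ Q ∈ S, Q ≠ P → h ∈ (mI Q) ^ k := by
  classical
  have hex : ∀ Q : Pt p, ∃ l : Poly p, l.totalDegree ≤ 1 ∧ (Q ≠ P → ev Q l = 0) ∧ ev P l ≠ 0 := by
    intro Q
    by_cases h : Q = P
    · exact ⟨C 1, by simp, fun h' => absurd h h', by simp⟩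
    · obtain ⟨l, h1, h2, h3⟩ := exists_line Q P h
      exact ⟨l, h1, fun _ => h2, h3⟩
  choose l hl1 hl2 hl3 using hex
  refine ⟨∏ Q ∈ S, l Q ^ k, ?_, ?_, ?_⟩
  · refine (totalDegree_finsetProd _ _).trans ?_
    have : ∀ Q ∈ S, (l Q ^ k).totalDegree ≤ k := fun Q _ =>
      (totalDegree_pow _ _).trans (by have := hl1 Q; nlinarith)
    refine (Finset.sum_le_sum this).trans ?_
    rw [Finset.sum_const, smul_eq_mul, mul_comm]
  · rw [map_prod, Finset.prod_ne_zero_iff]
    intro Q _
    rw [map_pow]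
    exact pow_ne_zero _ (hl3 Q)
  · intro Q hQ hQP
    rw [← Finset.mul_prod_erase S _ hQ]
    exact pow_mul_mem Q (l Q) _ k (hl2 Q hQP)

end BezAux

open BezAux

/-- Module BEZ, first part. -/
theorem bezout_points [Fact p.Prime] (F G : Poly p) (hF : F ≠ 0) (hG : G ≠ 0)
    (hcop : IsRelPrime F G) (S : Finset (Pt p)) (hSF : Van S F) (hSG : Van S G) :
    S.card ≤ F.totalDegree * G.totalDegree := by
  classical
  let L : Poly p →ₗ[ZMod p] (S → ZMod p) :=
    { toFun := fun f Q => ev (Q : Pt p) f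
      map_add' := by
        intro f g
        funext Q
        simp
      map_smul' := by
        intro a f
        funext Q
        simp [smul_eq_C_mul] }
  have h := bez_gen F G hF hG hcop L (F.totalDegree + G.totalDegree + 1 * S.card) (by omega) ?_ ?_ ?_
  · rwa [Module.finrank_fintype_fun_eq_card, Fintype.card_coe] at h
  · intro w
    choose h hd h0 h1 using fun P : Pt p => exists_prod S P 1
    refine ⟨∑ P : S, C (w P / ev (P : Pt p) (h P)) * h P, ?_, ?_⟩
    · refine totalDegree_finsetSum_le fun P _ => ?_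
      refine (totalDegree_C_mul_le _ _).trans ((hd P).trans (by omega))
    · funext Q
      show ev (Q : Pt p) (∑ P : S, C (w P / ev (P : Pt p) (h P)) * h P) = w Q
      rw [map_sum, Finset.sum_eq_single Q]
      · rw [map_mul, ev_C, div_mul_cancel₀ _ (h0 Q)]
      · intro P _ hP
        have h2 := h1 P Q Q.2 (fun h' => hP (Subtype.ext h'.symm))
        rw [pow_one, mem_mI] at h2
        rw [map_mul, h2, mul_zero]
      · intro h'
        exact absurd (Finset.mem_univ _) h'
  · intro u
    funext Q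
    show ev (Q : Pt p) (F * u) = 0
    rw [map_mul, hSF Q Q.2, zero_mul]
  · intro u
    funext Q
    show ev (Q : Pt p) (G * u) = 0
    rw [map_mul, hSG Q Q.2, zero_mul]

/-- Module BEZ, second part. -/
theorem bezout_double [Fact p.Prime] (F G : Poly p) (hF : F ≠ 0) (hG : G ≠ 0)
    (hcop : IsRelPrime F G) (S : Finset (Pt p)) (hSF : ∀ Q ∈ S, SmoothAt F Q) (hSG : Van S G)
    (hpar : ∀ Q ∈ S, ev Q (pderiv 0 F) * ev Q (pderiv 1 G) =
      ev Q (pderiv 1 F) * ev Q (pderiv 0 G)) :
    2 * S.card ≤ F.totalDegree * G.totalDegree := by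
  classical
  let τ : Pt p → Pt p := fun Q => (-ev Q (pderiv 1 F), ev Q (pderiv 0 F))
  let L : Poly p →ₗ[ZMod p] ((S → ZMod p) × (S → ZMod p)) :=
    { toFun := fun f => (fun Q => ev (Q : Pt p) f, fun Q => ev (Q : Pt p) (dd (τ Q) f))
      map_add' := by
        intro f g
        ext Q <;> simp
      map_smul' := by
        intro a f
        ext Q <;> simp [smul_eq_C_mul] }
  have h := bez_gen F G hF hG hcop L (F.totalDegree + G.totalDegree + (2 * S.card + 1)) (by omega)
    ?_ ?_ ?_
  · rw [Module.finrank_prod, Module.finrank_fintype_fun_eq_card, Fintype.card_coe] at h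
    omega
  · rintro ⟨w1, w2⟩
    choose h hd h0 h1 using fun P : Pt p => exists_prod S P 2
    -- an affine form through `P`, not killed by `τ P`
    have hex : ∀ P : S, ∃ m : Poly p, ∃ c : ZMod p, c ≠ 0 ∧ m.totalDegree ≤ 1 ∧
        ev (P : Pt p) m = 0 ∧ dd (τ P) m = C c := by
      intro P
      rcases (hSF P P.2).2 with h2 | h2
      · exact ⟨lin 0 1 (-(P : Pt p).2), (τ P).2, h2, totalDegree_lin_le _ _ _, by simp, by simp⟩
      · exact ⟨lin 1 0 (-(P : Pt p).1), (τ P).1, neg_ne_zero.2 h2, totalDegree_lin_le _ _ _,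
          by simp, by simp⟩
    choose m c hc hm1 hm2 hm3 using hex
    let α : S → ZMod p := fun P => w1 P / ev (P : Pt p) (h P)
    let β : S → ZMod p := fun P =>
      (w2 P - ev (P : Pt p) (dd (τ P) (h P)) * α P) / (ev (P : Pt p) (h P) * c P)
    let f : S → Poly p := fun P => h P * (C (α P) + C (β P) * m P)
    have hfQ : ∀ P Q : S, P ≠ Q → ev (Q : Pt p) (f P) = 0 ∧
        ev (Q : Pt p) (dd (τ Q) (f P)) = 0 := by
      intro P Q hPQ
      have h2 : f P ∈ (mI (Q : Pt p)) ^ 2 :=
        Ideal.mul_mem_right _ _ (h1 P Q Q.2 (fun h' => hPQ (Subtype.ext h'.symm)))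
      constructor
      · exact mem_mI.1 (Ideal.pow_le_self two_ne_zero h2)
      · exact ev_iterD_eq_zero (Q : Pt p) 2 [τ Q] (f P) h2 (by simp)
    have hfP1 : ∀ P : S, ev (P : Pt p) (f P) = w1 P := by
      intro P
      show ev (P : Pt p) (h P * (C (α P) + C (β P) * m P)) = w1 P
      rw [map_mul, map_add, map_mul, ev_C, ev_C, hm2, mul_zero, add_zero, mul_comm]
      exact div_mul_cancel₀ _ (h0 P)
    have hfP2 : ∀ P : S, ev (P : Pt p) (dd (τ P) (f P)) = w2 P := by
      intro P
      show ev (P : Pt p) (dd (τ P) (h P * (C (α P) + C (β P) * m P))) = w2 P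
      rw [dd_mul, map_add (dd (τ P)), dd_C, zero_add, dd_mul, dd_C, hm3, mul_zero, add_zero]
      simp only [map_add, map_mul, ev_C, hm2, mul_zero, add_zero]
      have h3 := h0 (P : Pt p)
      have h4 := hc P
      have h5 : ev (P : Pt p) (h P) * (β P * c P) =
          w2 P - ev (P : Pt p) (dd (τ P) (h P)) * α P := by
        simp only [β]
        field_simp
      rw [h5]
      ring
    refine ⟨∑ P : S, f P, ?_, ?_⟩
    · refine totalDegree_finsetSum_le fun P _ => ?_
      refine (totalDegree_mul _ _).trans ?_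
      have h3 := hd P
      have h4 : (C (α P) + C (β P) * m P : Poly p).totalDegree ≤ 1 := by
        refine (totalDegree_add _ _).trans (max_le (by simp) ?_)
        exact (totalDegree_C_mul_le _ _).trans (hm1 P)
      omega
    · have e1 : ∀ Q : S, ev (Q : Pt p) (∑ P : S, f P) = w1 Q := by
        intro Q
        rw [map_sum, Finset.sum_eq_single Q, hfP1]
        · intro P _ hP
          exact (hfQ P Q hP).1
        · intro h'
          exact absurd (Finset.mem_univ _) h'
      have e2 : ∀ Q : S, ev (Q : Pt p) (dd (τ Q) (∑ P : S, f P)) = w2 Q := by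
        intro Q
        rw [map_sum, map_sum, Finset.sum_eq_single Q, hfP2]
        · intro P _ hP
          exact (hfQ P Q hP).2
        · intro h'
          exact absurd (Finset.mem_univ _) h'
      exact Prod.ext (funext e1) (funext e2)
  · intro u
    have e1 : ∀ Q : S, ev (Q : Pt p) (F * u) = 0 := by
      intro Q
      rw [map_mul, (hSF Q Q.2).1, zero_mul]
    have e2 : ∀ Q : S, ev (Q : Pt p) (dd (τ Q) (F * u)) = 0 := by
      intro Q
      rw [dd_mul, map_add, map_mul, map_mul, (hSF Q Q.2).1, zero_mul, zero_add, ev_dd]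
      simp only [τ]
      ring
    exact Prod.ext (funext e1) (funext e2)
  · intro u
    have e1 : ∀ Q : S, ev (Q : Pt p) (G * u) = 0 := by
      intro Q
      rw [map_mul, hSG Q Q.2, zero_mul]
    have e2 : ∀ Q : S, ev (Q : Pt p) (dd (τ Q) (G * u)) = 0 := by
      intro Q
      rw [dd_mul, map_add, map_mul, map_mul, hSG Q Q.2, zero_mul, zero_add, ev_dd]
      simp only [τ]
      linear_combination (ev (Q : Pt p) u) * (hpar Q Q.2)
    exact Prod.ext (funext e1) (funext e2)

end Pool.Agent.Lib.Arc3
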