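import Pool.Agent.Lib.MP_193dd3_co_ARC.Bez

/-!
Project ARC (MP_193dd3_co), module KSEP: separation of the points of a set on an irreducible curve.
-/

namespace Pool.Agent.Lib.Arc3

open MvPolynomial BezAux

variable {p : ℕ}

namespace KsepAux

/-- Polynomials of degree at most `s` vanishing on `T` are divisible by `K`. -/
def Det (K : Poly p) (s : ℕ) (T : Finset (Pt p)) : Prop :=
  ∀ f : Poly p, f.totalDegree ≤ s → Van T f → K ∣ f

theorem arith_det (c s n1 n2 kk rr t : ℕ) (hs : c ≤ s) (e1 : 2 * n1 = (s + 1) * (s + 2))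
    (e2 : 2 * n2 = (s - c + 1) * (s - c + 2)) (k1 : kk ≤ n2) (k2 : rr + kk = n1) (k3 : rr ≤ t) :
    c * (2 * s + 3 - c) ≤ 2 * t := by
  obtain ⟨r, rfl⟩ : ∃ r, s = c + r := ⟨s - c, by omega⟩
  have h1 : c + r - c = r := by omega
  rw [h1] at e2
  have h2 : 2 * (c + r) + 3 - c = c + 2 * r + 3 := by omega
  rw [h2]
  nlinarith

/-- Lower bound for the size of a set with `Det`. -/
theorem card_det [Fact p.Prime] (K : Poly p) (hK : K ≠ 0) (s : ℕ) (hs : K.totalDegree ≤ s)
    (T : Finset (Pt p)) (hT : Det K s T) :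
    K.totalDegree * (2 * s + 3 - K.totalDegree) ≤ 2 * T.card := by
  classical
  let L : Poly p →ₗ[ZMod p] (T → ZMod p) :=
    { toFun := fun f Q => ev (Q : Pt p) f
      map_add' := by
        intro f g
        funext Q
        simp
      map_smul' := by
        intro a f
        funext Q
        simp [smul_eq_C_mul] }
  let L' := L ∘ₗ (restrictTotalDegree (Fin 2) (ZMod p) s).subtype
  let Ψ : restrictTotalDegree (Fin 2) (ZMod p) (s - K.totalDegree) →ₗ[ZMod p]
      restrictTotalDegree (Fin 2) (ZMod p) s :=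
    { toFun := fun g => ⟨K * (g : Poly p), by
        rw [mem_restrictTotalDegree]
        have hg := (mem_restrictTotalDegree _ _ _).1 g.2
        exact (totalDegree_mul _ _).trans (by omega)⟩
      map_add' := by
        intro f g
        apply Subtype.ext
        show K * ((f : Poly p) + (g : Poly p)) = K * (f : Poly p) + K * (g : Poly p)
        ring
      map_smul' := by
        intro a f
        apply Subtype.ext
        show K * (a • (f : Poly p)) = a • (K * (f : Poly p))
        rw [mul_smul_comm] }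
  have hker : LinearMap.ker L' ≤ LinearMap.range Ψ := by
    rintro ⟨f, hf⟩ hfk
    rw [LinearMap.mem_ker] at hfk
    have hfd := (mem_restrictTotalDegree _ _ _).1 hf
    have hv : Van T f := by
      intro Q hQ
      exact congrFun hfk ⟨Q, hQ⟩
    obtain ⟨g, hg⟩ := hT f hfd hv
    have hgd : g.totalDegree ≤ s - K.totalDegree := by
      by_cases hg0 : g = 0
      · rw [hg0, totalDegree_zero]; exact Nat.zero_le _
      · rw [hg, totalDegree_mul_of_isDomain hK hg0] at hfd
        omega
    exact ⟨⟨g, (mem_restrictTotalDegree _ _ _).2 hgd⟩, Subtype.ext hg.symm⟩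
  have k1 : Module.finrank (ZMod p) (LinearMap.ker L') ≤ Module.finrank (ZMod p)
      (restrictTotalDegree (Fin 2) (ZMod p) (s - K.totalDegree)) :=
    (Submodule.finrank_mono hker).trans (LinearMap.finrank_range_le Ψ)
  have k2 := LinearMap.finrank_range_add_finrank_ker L'
  have k3 : Module.finrank (ZMod p) (LinearMap.range L') ≤ T.card := by
    refine (Submodule.finrank_le _).trans ?_
    rw [Module.finrank_fintype_fun_eq_card, Fintype.card_coe]
  have e1 := finrank_V (p := p) s
  have e2 := finrank_V (p := p) (s - K.totalDegree)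
  exact arith_det _ s _ _ _ _ _ hs e1 e2 k1 k2 k3

/-- A minimal set with `Det` is separated by polynomials of degree at most `s + 1`. -/
theorem sep_good [Fact p.Prime] (K : Poly p) (s : ℕ) (T : Finset (Pt p))
    (hT : Det K s T) (hmin : ∀ Q ∈ T, ¬ Det K s (T.erase Q)) (P : Pt p) (hP : ev P K = 0) :
    ∃ H : Poly p, H.totalDegree ≤ s + 1 ∧ ev P H ≠ 0 ∧ ∀ Q ∈ T, Q ≠ P → ev Q H = 0 := by
  classical
  have hex : ∀ Q : Pt p, ∃ f : Poly p, Q ∈ T → f.totalDegree ≤ s ∧ ev Q f = 1 ∧
      ∀ R ∈ T, R ≠ Q → ev R f = 0 := by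
    intro Q
    by_cases hQ : Q ∈ T
    · have h := hmin Q hQ
      unfold Det at h
      push Not at h
      obtain ⟨f, hfd, hfv, hfK⟩ := h
      have hfQ : ev Q f ≠ 0 := by
        intro h0
        apply hfK
        apply hT f hfd
        intro R hR
        by_cases hRQ : R = Q
        · rw [hRQ]; exact h0
        · exact hfv R (Finset.mem_erase.mpr ⟨hRQ, hR⟩)
      refine ⟨C (ev Q f)⁻¹ * f, fun _ => ⟨(totalDegree_C_mul_le _ _).trans hfd, ?_, ?_⟩⟩
      · rw [map_mul, ev_C, inv_mul_cancel₀ hfQ]
      · intro R hR hRQ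
        rw [map_mul, hfv R (Finset.mem_erase.mpr ⟨hRQ, hR⟩), mul_zero]
    · exact ⟨0, fun h => absurd h hQ⟩
  choose L hL using hex
  by_cases hPT : P ∈ T
  · obtain ⟨h1, h2, h3⟩ := hL P hPT
    refine ⟨L P, by omega, by rw [h2]; exact one_ne_zero, h3⟩
  · -- the sum of the `L Q` is one on the curve
    have hsum : K ∣ ∑ Q ∈ T, L Q - 1 := by
      apply hT
      · refine (totalDegree_sub _ _).trans (max_le ?_ ?_)
        · exact totalDegree_finsetSum_le fun Q hQ => (hL Q hQ).1
        · rw [totalDegree_one]; exact Nat.zero_le _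
      · intro R hR
        rw [map_sub, map_one, map_sum, Finset.sum_eq_single_of_mem R hR, (hL R hR).2.1, sub_self]
        intro Q hQ hQR
        exact (hL Q hQ).2.2 R hR (Ne.symm hQR)
    obtain ⟨g, hg⟩ := hsum
    have h1 : ∑ Q ∈ T, ev P (L Q) = 1 := by
      have := congrArg (ev P) hg
      rw [map_mul, hP, zero_mul, map_sub, map_one, map_sum, sub_eq_zero] at this
      exact this
    obtain ⟨Q, hQ, hQP⟩ : ∃ Q ∈ T, ev P (L Q) ≠ 0 := by
      by_contra hcon
      push Not at hcon
      rw [Finset.sum_eq_zero hcon] at h1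
      exact zero_ne_one h1
    have hne : Q ≠ P := by rintro rfl; exact hPT hQ
    obtain ⟨l, hl1, hl2, hl3⟩ := exists_line Q P hne
    refine ⟨l * L Q, ?_, ?_, ?_⟩
    · refine (totalDegree_mul _ _).trans ?_
      have := (hL Q hQ).1
      omega
    · rw [map_mul]; exact mul_ne_zero hl3 hQP
    · intro R hR _
      rw [map_mul]
      by_cases hRQ : R = Q
      · rw [hRQ, hl2, zero_mul]
      · rw [(hL Q hQ).2.2 R hR hRQ, mul_zero]

end KsepAux

open KsepAux

/-- Module KSEP. -/
theorem ksep [Fact p.Prime] (K : Poly p) (hK : Irreducible K) (s : ℕ) (hs : K.totalDegree ≤ s)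
    (A : Finset (Pt p)) (hA : Van A K) :
    ∃ k : ℕ, k * (K.totalDegree * (2 * s + 3 - K.totalDegree)) ≤ 2 * A.card ∧
      ∀ P : Pt p, ev P K = 0 → Sep A P (k * (s + 1) + K.totalDegree * s) := by
  classical
  induction A using Finset.strongInduction with
  | H A ih =>
    by_cases hdet : Det K s A
    · -- a minimal subset
      obtain ⟨T, hTA, hTd, hTmin⟩ : ∃ T ⊆ A, Det K s T ∧ ∀ Q ∈ T, ¬ Det K s (T.erase Q) := by
        have hne : (A.powerset.filter (fun T => Det K s T)).Nonempty :=
          ⟨A, Finset.mem_filter.mpr ⟨Finset.mem_powerset_self A, hdet⟩⟩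
        obtain ⟨T, hT, hm⟩ := Finset.exists_min_image _ Finset.card hne
        rw [Finset.mem_filter, Finset.mem_powerset] at hT
        refine ⟨T, hT.1, hT.2, ?_⟩
        intro Q hQ hd
        have h1 := hm (T.erase Q) (Finset.mem_filter.mpr
          ⟨Finset.mem_powerset.mpr ((Finset.erase_subset _ _).trans hT.1), hd⟩)
        have h2 := Finset.card_erase_lt_of_mem hQ
        omega
      have hTne : T.Nonempty := by
        rw [Finset.nonempty_iff_ne_empty]
        rintro rfl
        have h1 : K ∣ 1 := hTd 1 (by rw [totalDegree_one]; exact Nat.zero_le _)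
          (by intro Q hQ; exact absurd hQ (Finset.notMem_empty _))
        exact hK.not_isUnit (isUnit_of_dvd_one h1)
      obtain ⟨k, hk, hsep⟩ := ih (A \ T) (Finset.sdiff_ssubset hTA hTne)
        (fun Q hQ => hA Q (Finset.mem_sdiff.mp hQ).1)
      refine ⟨k + 1, ?_, ?_⟩
      · have h1 := card_det K hK.ne_zero s hs T hTd
        have h2 := Finset.card_sdiff_add_card_eq_card hTA
        rw [add_mul, one_mul]
        omega
      · intro P hP
        obtain ⟨H1, h1d, h1P, h1v⟩ := hsep P hP
        obtain ⟨H2, h2d, h2P, h2v⟩ := sep_good K s T hTd hTmin P hP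
        refine ⟨H1 * H2, ?_, ?_, ?_⟩
        · refine (totalDegree_mul _ _).trans ?_
          rw [add_mul, one_mul]
          omega
        · rw [map_mul]; exact mul_ne_zero h1P h2P
        · intro Q hQ hQP
          rw [map_mul]
          by_cases hQT : Q ∈ T
          · rw [h2v Q hQT hQP, mul_zero]
          · rw [h1v Q (Finset.mem_sdiff.mpr ⟨hQ, hQT⟩) hQP, zero_mul]
    · refine ⟨0, by simp, ?_⟩
      unfold Det at hdet
      push Not at hdet
      obtain ⟨f, hfd, hfv, hfK⟩ := hdet
      have hf0 : f ≠ 0 := by rintro rfl; exact hfK (dvd_zero _)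
      have hcop : IsRelPrime K f := (hK.isRelPrime_iff_not_dvd).mpr hfK
      have hc := bezout_points K f hK.ne_zero hf0 hcop A hA hfv
      intro P _
      obtain ⟨h, hd, hP, hv⟩ := exists_prod A P 1
      refine ⟨h, ?_, hP, ?_⟩
      · have : K.totalDegree * f.totalDegree ≤ K.totalDegree * s := Nat.mul_le_mul_left _ hfd
        omega
      · intro Q hQ hQP
        have := hv Q hQ hQP
        rwa [pow_one, mem_mI] at this

end Pool.Agent.Lib.Arc3
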