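import Pool.Agent.Lib.MP_193dd3_co_ARC.Defs2
import Pool.Agent.Lib.MP_193dd3_co_ARC.Extract
import Pool.Agent.Lib.MP_193dd3_co_ARC.Bez
import Pool.Agent.Lib.MP_193dd3_co_ARC.Ksep

/-!
Module RICH of project ARC (MP_193dd3_co): a set with many points that are not separated in low
degree lies, up to few points, on a curve of degree at most four without linear components.
-/

namespace Pool.Agent.Lib.Arc3

open MvPolynomial

variable {p : ℕ}

namespace RichAux

theorem Sep.mono {A : Finset (Pt p)} {P : Pt p} {D D' : ℕ} (h : Sep A P D) (hD : D ≤ D') :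
    Sep A P D' := by
  obtain ⟨H, h1, h2, h3⟩ := h
  exact ⟨H, h1.trans hD, h2, h3⟩

/-- A polynomial of degree at most `#S` vanishing on `S` and not at `P`, for `P` outside `S`. -/
theorem exists_forms [Fact p.Prime] (P : Pt p) (S : Finset (Pt p)) (hP : P ∉ S) :
    ∃ H : Poly p, H.totalDegree ≤ S.card ∧ ev P H ≠ 0 ∧ ∀ Q ∈ S, ev Q H = 0 := by
  classical
  induction S using Finset.induction_on with
  | empty => exact ⟨1, by simp, by simp, by simp⟩
  | insert R S hR ih =>
    rw [Finset.mem_insert, not_or] at hP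
    obtain ⟨H, h1, h2, h3⟩ := ih hP.2
    have hex : ∃ L : Poly p, L.totalDegree ≤ 1 ∧ ev P L ≠ 0 ∧ ev R L = 0 := by
      by_cases hx : P.1 = R.1
      · have hy : P.2 ≠ R.2 := fun h => hP.1 (Prod.ext hx h)
        refine ⟨lin 0 1 (-R.2), totalDegree_lin_le _ _ _, ?_, ?_⟩
        · rw [ev_lin]
          intro h
          apply hy
          linear_combination h
        · rw [ev_lin]; ring
      · refine ⟨lin 1 0 (-R.1), totalDegree_lin_le _ _ _, ?_, ?_⟩
        · rw [ev_lin]
          intro h
          apply hx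
          linear_combination h
        · rw [ev_lin]; ring
    obtain ⟨L, l1, l2, l3⟩ := hex
    refine ⟨L * H, ?_, ?_, ?_⟩
    · rw [Finset.card_insert_of_notMem hR]
      exact (totalDegree_mul _ _).trans (by omega)
    · rw [map_mul]; exact mul_ne_zero l2 h2
    · intro Q hQ
      rw [map_mul]
      rcases Finset.mem_insert.mp hQ with rfl | hQ
      · rw [l3, zero_mul]
      · rw [h3 Q hQ, mul_zero]

theorem prod_ne_zero' [Fact p.Prime] (s : Multiset (Poly p)) (hs : ∀ K ∈ s, Irreducible K) :
    s.prod ≠ 0 := by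
  apply Multiset.prod_ne_zero
  intro h
  exact (hs 0 h).ne_zero rfl

theorem totalDegree_assoc [Fact p.Prime] {f g : Poly p} (h : Associated f g) :
    f.totalDegree = g.totalDegree := by
  obtain ⟨u, hu⟩ := h
  by_cases hf : f = 0
  · subst hf; rw [← hu, zero_mul]
  · have hu0 : (u : Poly p) ≠ 0 := u.ne_zero
    rw [← hu, totalDegree_mul_of_isDomain hf hu0]
    have : (u : Poly p).totalDegree = 0 := by
      obtain ⟨v, hv⟩ := u.isUnit.exists_right_inv
      have hv0 : v ≠ 0 := by
        rintro rfl
        rw [mul_zero] at hv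
        exact zero_ne_one hv
      have := totalDegree_mul_of_isDomain hu0 hv0
      rw [hv, totalDegree_one] at this
      omega
    omega

theorem ev_assoc {f g : Poly p} (h : Associated f g) (P : Pt p) :
    ev P f = 0 ↔ ev P g = 0 := by
  constructor
  · intro hf
    obtain ⟨c, hc⟩ := h.dvd
    rw [hc, map_mul, hf, zero_mul]
  · intro hg
    obtain ⟨c, hc⟩ := h.symm.dvd
    rw [hc, map_mul, hg, zero_mul]

theorem sum_card_le [Fact p.Prime] (A : Finset (Pt p)) (s : Multiset (Poly p))
    (hs : ∀ K ∈ s, Irreducible K) (hsq : Squarefree s.prod) :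
    (s.map (fun K => (A.filter (fun Q => ev Q K = 0)).card)).sum ≤
      (A.filter (fun Q => ev Q s.prod = 0)).card + s.prod.totalDegree ^ 2 := by
  classical
  induction s using Multiset.induction_on with
  | empty => simp
  | cons K s ih =>
    have hK : Irreducible K := hs K (Multiset.mem_cons_self _ _)
    have hs' : ∀ L ∈ s, Irreducible L := fun L hL => hs L (Multiset.mem_cons_of_mem hL)
    rw [Multiset.prod_cons] at hsq
    have hcop : IsRelPrime K s.prod := IsRelPrime.of_squarefree_mul hsq
    have hsq' : Squarefree s.prod := hsq.squarefree_of_dvd (Dvd.intro_left _ rfl)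
    have ih' := ih hs' hsq'
    have h0 : s.prod ≠ 0 := prod_ne_zero' s hs'
    rw [Multiset.map_cons, Multiset.sum_cons, Multiset.prod_cons,
      totalDegree_mul_of_isDomain hK.ne_zero h0]
    have h1 := Finset.card_union_add_card_inter (A.filter (fun Q => ev Q K = 0))
      (A.filter (fun Q => ev Q s.prod = 0))
    have h2 : (A.filter (fun Q => ev Q K = 0) ∪ A.filter (fun Q => ev Q s.prod = 0)).card ≤
        (A.filter (fun Q => ev Q (K * s.prod) = 0)).card := by
      apply Finset.card_le_card
      intro Q hQ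
      rw [Finset.mem_union, Finset.mem_filter, Finset.mem_filter] at hQ
      rw [Finset.mem_filter, map_mul]
      rcases hQ with ⟨h, h'⟩ | ⟨h, h'⟩
      · exact ⟨h, by rw [h', zero_mul]⟩
      · exact ⟨h, by rw [h', mul_zero]⟩
    have h3 : (A.filter (fun Q => ev Q K = 0) ∩ A.filter (fun Q => ev Q s.prod = 0)).card ≤
        K.totalDegree * s.prod.totalDegree := by
      apply bezout_points K s.prod hK.ne_zero h0 hcop
      · intro Q hQ
        rw [Finset.mem_inter, Finset.mem_filter, Finset.mem_filter] at hQ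
        exact hQ.1.2
      · intro Q hQ
        rw [Finset.mem_inter, Finset.mem_filter, Finset.mem_filter] at hQ
        exact hQ.2.2
    nlinarith [Nat.zero_le (K.totalDegree * s.prod.totalDegree), Nat.zero_le (K.totalDegree ^ 2)]

theorem eq_lin (K : Poly p) (h : K.totalDegree ≤ 1) :
    K = lin (coeff (Finsupp.single 0 1) K) (coeff (Finsupp.single 1 1) K) (coeff 0 K) := by
  classical
  ext m
  have h01 : (Finsupp.single (0 : Fin 2) 1 : Fin 2 →₀ ℕ) ≠ Finsupp.single 1 1 := by
    intro h
    have := DFunLike.congr_fun h 0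
    simp at this
  have hz0 : (0 : Fin 2 →₀ ℕ) ≠ Finsupp.single 0 1 := by
    intro h
    have := DFunLike.congr_fun h 0
    simp at this
  have hz1 : (0 : Fin 2 →₀ ℕ) ≠ Finsupp.single 1 1 := by
    intro h
    have := DFunLike.congr_fun h 1
    simp at this
  unfold lin
  rw [coeff_add, coeff_add, coeff_C_mul, coeff_C_mul, coeff_X, coeff_X, coeff_C]
  by_cases hm0 : m = 0
  · subst hm0
    rw [if_neg hz0.symm, if_neg hz1.symm, if_pos rfl]
    ring
  by_cases hm1 : m = Finsupp.single 0 1
  · subst hm1
    rw [if_pos rfl, if_neg h01.symm, if_neg hz0]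
    ring
  by_cases hm2 : m = Finsupp.single 1 1
  · subst hm2
    rw [if_neg h01, if_pos rfl, if_neg hz1]
    ring
  rw [if_neg (Ne.symm hm1), if_neg (Ne.symm hm2), if_neg (Ne.symm hm0)]
  have : coeff m K = 0 := by
    apply coeff_eq_zero_of_totalDegree_lt
    refine lt_of_le_of_lt h ?_
    by_contra hcon
    push Not at hcon
    have hsum : ∑ i ∈ m.support, m i = m 0 + m 1 := by
      rw [Finset.sum_subset (Finset.subset_univ _)]
      · rw [Fin.sum_univ_two]
      · intro i _ hi
        simpa using hi
    rw [hsum] at hcon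
    have hcases : (m 0 = 0 ∧ m 1 = 0) ∨ (m 0 = 1 ∧ m 1 = 0) ∨ (m 0 = 0 ∧ m 1 = 1) := by omega
    rcases hcases with ⟨h0, h1⟩ | ⟨h0, h1⟩ | ⟨h0, h1⟩
    · apply hm0; ext i; fin_cases i <;> simp [h0, h1]
    · apply hm1; ext i; fin_cases i <;> simp [h0, h1]
    · apply hm2; ext i; fin_cases i <;> simp [h0, h1]
  rw [this]; ring

theorem card_line [Fact p.Prime] (A : Finset (Pt p)) (hA : NoFour A) (K : Poly p)
    (hK : Irreducible K) (h : K.totalDegree ≤ 1) :
    (A.filter (fun Q => ev Q K = 0)).card ≤ 3 := by
  classical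
  have e := eq_lin K h
  set a := coeff (Finsupp.single 0 1) K
  set b := coeff (Finsupp.single 1 1) K
  set c := coeff 0 K
  have hab : (a, b) ≠ (0, 0) := by
    intro hab
    have ha : a = 0 := congrArg Prod.fst hab
    have hb : b = 0 := congrArg Prod.snd hab
    have hKc : K = C c := by
      rw [e, ha, hb]
      simp [lin]
    by_cases hc : c = 0
    · apply hK.ne_zero
      rw [hKc, hc, map_zero]
    · apply hK.not_isUnit
      rw [hKc]
      exact IsUnit.map _ (isUnit_iff_ne_zero.mpr hc)
  refine le_trans (Finset.card_le_card ?_) (hA a b (-c) hab)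
  intro Q hQ
  rw [Finset.mem_filter] at hQ ⊢
  refine ⟨hQ.1, ?_⟩
  have := hQ.2
  rw [e, ev_lin] at this
  linear_combination this

theorem deg_pos [Fact p.Prime] (K : Poly p) (hK : Irreducible K) : 1 ≤ K.totalDegree := by
  by_contra h
  have h0 : K.totalDegree = 0 := by omega
  rw [totalDegree_eq_zero_iff_eq_C] at h0
  by_cases hc : coeff 0 K = 0
  · apply hK.ne_zero
    rw [h0, hc, map_zero]
  · apply hK.not_isUnit
    rw [h0]
    exact IsUnit.map _ (isUnit_iff_ne_zero.mpr hc)

theorem card_lines [Fact p.Prime] (A : Finset (Pt p)) (hA : NoFour A) (s : Multiset (Poly p))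
    (hs : ∀ K ∈ s, Irreducible K) (h1 : ∀ K ∈ s, K.totalDegree ≤ 1) :
    (A.filter (fun Q => ev Q s.prod = 0)).card ≤ 3 * s.prod.totalDegree := by
  classical
  induction s using Multiset.induction_on with
  | empty => simp
  | cons K s ih =>
    have hK : Irreducible K := hs K (Multiset.mem_cons_self _ _)
    have hs' : ∀ L ∈ s, Irreducible L := fun L hL => hs L (Multiset.mem_cons_of_mem hL)
    have ih' := ih hs' (fun L hL => h1 L (Multiset.mem_cons_of_mem hL))
    have h0 : s.prod ≠ 0 := prod_ne_zero' s hs'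
    rw [Multiset.prod_cons, totalDegree_mul_of_isDomain hK.ne_zero h0]
    have h2 := card_line A hA K hK (h1 K (Multiset.mem_cons_self _ _))
    have h3 := deg_pos K hK
    have h4 : (A.filter (fun Q => ev Q (K * s.prod) = 0)).card ≤
        (A.filter (fun Q => ev Q K = 0)).card + (A.filter (fun Q => ev Q s.prod = 0)).card := by
      refine le_trans (Finset.card_le_card ?_) (Finset.card_union_le _ _)
      intro Q hQ
      rw [Finset.mem_filter, map_mul, mul_eq_zero] at hQ
      rw [Finset.mem_union, Finset.mem_filter, Finset.mem_filter]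
      rcases hQ.2 with h | h
      · exact Or.inl ⟨hQ.1, h⟩
      · exact Or.inr ⟨hQ.1, h⟩
    omega

/-- The key estimate: a factor of degree `c` of the minimal curve contains at least
`0.44 c p` points. -/
theorem key [Fact p.Prime] (hp : 10 ^ 8 ≤ p) (A U : Finset (Pt p)) (hU : U ⊆ A) (e : ℕ)
    (he : A.card ≤ U.card + e) (hep : 200 * e ≤ p) (hns : ∀ P ∈ U, ¬ Sep A P (9 * p / 20))
    (K M : Poly p) (hK : Irreducible K) (hM : M ≠ 0) (hdeg : K.totalDegree + M.totalDegree ≤ 8)
    (hv : Van U (K * M))
    (hmin : ∀ g : Poly p, g ≠ 0 → Van U g → (K * M).totalDegree ≤ g.totalDegree) :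
    44 * (K.totalDegree * p) ≤ 100 * (A.filter (fun Q => ev Q K = 0)).card := by
  classical
  have hc1 := deg_pos K hK
  have hd := totalDegree_mul_of_isDomain hK.ne_zero hM
  have hnv : ¬ Van U M := by
    intro h
    have := hmin M hM h
    omega
  unfold Van at hnv
  push Not at hnv
  obtain ⟨P, hPU, hPM⟩ := hnv
  have hKU : ∀ Q ∈ U, ev Q K = 0 ∨ ev Q M = 0 := by
    intro Q hQ
    have := hv Q hQ
    rwa [map_mul, mul_eq_zero] at this
  have hPK : ev P K = 0 := (hKU P hPU).resolve_right hPM
  obtain ⟨k, hk1, hk2⟩ := ksep K hK 400 (by omega) (A.filter (fun Q => ev Q K = 0)) (by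
    intro Q hQ
    exact (Finset.mem_filter.mp hQ).2)
  obtain ⟨H, hH1, hH2, hH3⟩ := hk2 P hPK
  obtain ⟨E, hE1, hE2, hE3⟩ := exists_forms P (A \ U) (by
    intro h
    exact (Finset.mem_sdiff.mp h).2 hPU)
  have hcardE : (A \ U).card ≤ e := by
    rw [Finset.card_sdiff_of_subset hU]; omega
  have hsep : Sep A P ((k * (400 + 1) + K.totalDegree * 400) + M.totalDegree + e) := by
    refine ⟨H * M * E, ?_, ?_, ?_⟩
    · refine (totalDegree_mul _ _).trans ?_
      have := totalDegree_mul H M
      omega
    · rw [map_mul, map_mul]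
      exact mul_ne_zero (mul_ne_zero hH2 hPM) hE2
    · intro Q hQ hQP
      rw [map_mul, map_mul]
      by_cases hQU : Q ∈ U
      · rcases hKU Q hQU with h | h
        · rw [hH3 Q (Finset.mem_filter.mpr ⟨hQ, h⟩) hQP]; ring
        · rw [h]; ring
      · rw [hE3 Q (Finset.mem_sdiff.mpr ⟨hQ, hQU⟩)]; ring
  have hlt : 9 * p / 20 < (k * (400 + 1) + K.totalDegree * 400) + M.totalDegree + e := by
    by_contra hcon
    push Not at hcon
    exact hns P hPU (Sep.mono hsep hcon)
  have hc8 : K.totalDegree ≤ 8 := by omega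
  have h795 : 795 ≤ 2 * 400 + 3 - K.totalDegree := by omega
  have h1 : k * (K.totalDegree * 795) ≤ 2 * (A.filter (fun Q => ev Q K = 0)).card :=
    le_trans (Nat.mul_le_mul_left _ (Nat.mul_le_mul_left _ h795)) hk1
  have h2 : 44 * p ≤ 39750 * k := by omega
  have h3 : K.totalDegree * (44 * p) ≤ K.totalDegree * (39750 * k) := Nat.mul_le_mul_left _ h2
  have h4 : K.totalDegree * (39750 * k) = 50 * (k * (K.totalDegree * 795)) := by ring
  have h5 : 44 * (K.totalDegree * p) = K.totalDegree * (44 * p) := by ring
  omega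

end RichAux

open RichAux in
/-- Module RICH. -/
theorem rich [Fact p.Prime] (hp : 10 ^ 8 ≤ p) (A U : Finset (Pt p)) (hA : NoFour A)
    (hn1 : p ≤ A.card) (hn2 : A.card ≤ 2 * p + 3) (hU : U ⊆ A) (e : ℕ) (he : A.card ≤ U.card + e)
    (hep : 200 * e ≤ p) (hns : ∀ P ∈ U, ¬ Sep A P (9 * p / 20)) : ∃ M, Rich A e M := by
  classical
  obtain ⟨G, k, hG0, hG8, hk, hG⟩ := extract 8 A
  have hGU : Van U G := by
    intro P hP
    by_contra h
    refine hns P hP (Sep.mono (hG P h) ?_)
    omega
  obtain ⟨B, hB0, hBU, hBG, hBsq, hmin⟩ := exists_min U G hG0 hGU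
  have hB8 : B.totalDegree ≤ 8 := hBG.trans hG8
  set s := UniqueFactorizationMonoid.factors B with hs
  have hirr : ∀ K ∈ s, Irreducible K := fun K hK =>
    UniqueFactorizationMonoid.irreducible_of_factor K hK
  have hass : Associated s.prod B := UniqueFactorizationMonoid.factors_prod hB0
  set s1 := s.filter (fun K => 2 ≤ K.totalDegree) with hs1
  set s2 := s.filter (fun K => ¬ 2 ≤ K.totalDegree) with hs2
  have hs12 : s1 + s2 = s := Multiset.filter_add_not _ _
  have hirr1 : ∀ K ∈ s1, Irreducible K := fun K hK => hirr K (Multiset.mem_of_mem_filter hK)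
  have hirr2 : ∀ K ∈ s2, Irreducible K := fun K hK => hirr K (Multiset.mem_of_mem_filter hK)
  have hprod : s1.prod * s2.prod = s.prod := by rw [← hs12, Multiset.prod_add]
  have h10 : s1.prod ≠ 0 := prod_ne_zero' s1 hirr1
  have h20 : s2.prod ≠ 0 := prod_ne_zero' s2 hirr2
  have hdegB : s1.prod.totalDegree + s2.prod.totalDegree = B.totalDegree := by
    rw [← totalDegree_mul_of_isDomain h10 h20, hprod]
    exact totalDegree_assoc hass
  have hsqs : Squarefree s.prod := hBsq.squarefree_of_dvd hass.dvd
  have hsq1 : Squarefree s1.prod := hsqs.squarefree_of_dvd (by rw [← hprod]; exact Dvd.intro _ rfl)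
  -- the key estimate for all factors of degree at least two
  have hkey : ∀ K ∈ s1, 44 * (K.totalDegree * p) ≤
      100 * (A.filter (fun Q => ev Q K = 0)).card := by
    intro K hK
    have hKs : K ∈ s := Multiset.mem_of_mem_filter hK
    obtain ⟨s', hs'⟩ := Multiset.exists_cons_of_mem hKs
    have hirr' : ∀ L ∈ s', Irreducible L := by
      intro L hL
      apply hirr
      rw [hs']
      exact Multiset.mem_cons_of_mem hL
    have h0' : s'.prod ≠ 0 := prod_ne_zero' s' hirr'
    have hKM : K * s'.prod = s.prod := by rw [hs', Multiset.prod_cons]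
    have hdKM : (K * s'.prod).totalDegree = B.totalDegree := by
      rw [hKM]; exact totalDegree_assoc hass
    apply key hp A U hU e he hep hns K s'.prod (hirr K hKs) h0'
    · rw [← totalDegree_mul_of_isDomain (hirr K hKs).ne_zero h0', hdKM]; exact hB8
    · intro Q hQ
      rw [hKM, ev_assoc hass]
      exact hBU Q hQ
    · intro g hg hgU
      rw [hdKM]
      exact hmin g hg hgU
  have hsum := sum_card_le A s1 hirr1 hsq1
  have hdeg1 : s1.prod.totalDegree = (s1.map (fun K => K.totalDegree)).sum := by
    clear hkey hsum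
    have : ∀ t : Multiset (Poly p), (∀ K ∈ t, Irreducible K) →
        t.prod.totalDegree = (t.map (fun K => K.totalDegree)).sum := by
      intro t
      induction t using Multiset.induction_on with
      | empty => simp
      | cons K t ih =>
        intro ht
        have ht' : ∀ L ∈ t, Irreducible L := fun L hL => ht L (Multiset.mem_cons_of_mem hL)
        rw [Multiset.prod_cons, totalDegree_mul_of_isDomain
          (ht K (Multiset.mem_cons_self _ _)).ne_zero (prod_ne_zero' t ht'), ih ht',
          Multiset.map_cons, Multiset.sum_cons]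
    exact this s1 hirr1
  have hkeysum : 44 * (s1.prod.totalDegree * p) ≤
      100 * (s1.map (fun K => (A.filter (fun Q => ev Q K = 0)).card)).sum := by
    rw [hdeg1]
    clear_value s1
    clear hdeg1 hsum hsq1 hdegB h10 hprod hirr1 hs12 hs1
    induction s1 using Multiset.induction_on with
    | empty => simp
    | cons K t ih =>
      rw [Multiset.map_cons, Multiset.sum_cons, Multiset.map_cons, Multiset.sum_cons]
      have h1 := hkey K (Multiset.mem_cons_self _ _)
      have h2 := ih (fun L hL => hkey L (Multiset.mem_cons_of_mem hL))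
      have e1 : 44 * ((K.totalDegree + (t.map (fun K => K.totalDegree)).sum) * p) =
          44 * (K.totalDegree * p) + 44 * ((t.map (fun K => K.totalDegree)).sum * p) := by ring
      rw [e1, Nat.mul_add]
      exact Nat.add_le_add h1 h2
  have hdeg4 : s1.prod.totalDegree ≤ 4 := by
    by_contra hcon
    push Not at hcon
    have h1 : (A.filter (fun Q => ev Q s1.prod = 0)).card ≤ A.card :=
      Finset.card_le_card (Finset.filter_subset _ _)
    have h2 : s1.prod.totalDegree ^ 2 ≤ 64 := by
      have : s1.prod.totalDegree ≤ 8 := by omega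
      nlinarith
    have h3 : 5 * p ≤ s1.prod.totalDegree * p := Nat.mul_le_mul_right _ hcon
    omega
  have hlines := card_lines A hA s2 hirr2 (by
    intro K hK
    have := (Multiset.mem_filter.mp hK).2
    omega)
  have hoff : (A.filter (fun Q => ev Q s1.prod ≠ 0)).card ≤ e + 24 := by
    have h1 : A.filter (fun Q => ev Q s1.prod ≠ 0) ⊆
        (A \ U) ∪ A.filter (fun Q => ev Q s2.prod = 0) := by
      intro Q hQ
      rw [Finset.mem_filter] at hQ
      rw [Finset.mem_union, Finset.mem_sdiff, Finset.mem_filter]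
      by_cases hQU : Q ∈ U
      · right
        refine ⟨hQ.1, ?_⟩
        have h2 : ev Q s.prod = 0 := (ev_assoc hass Q).mpr (hBU Q hQU)
        rw [← hprod, map_mul, mul_eq_zero] at h2
        exact h2.resolve_left hQ.2
      · left
        exact ⟨hQ.1, hQU⟩
    have h2 := (Finset.card_le_card h1).trans (Finset.card_union_le _ _)
    have h3 : (A \ U).card ≤ e := by
      rw [Finset.card_sdiff_of_subset hU]; omega
    omega
  refine ⟨s1.prod, hsq1, ?_, hdeg4, ?_, by omega⟩
  · by_contra hcon
    have h0 : s1.prod.totalDegree = 0 := by omega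
    have h1 : A.filter (fun Q => ev Q s1.prod ≠ 0) = A := by
      apply Finset.filter_true_of_mem
      intro Q _
      rw [totalDegree_eq_zero_iff_eq_C] at h0
      intro h
      rw [h0, ev_C] at h
      apply h10
      rw [h0, h, map_zero]
    rw [h1] at hoff
    omega
  · intro K hK hKd
    obtain ⟨L, hL, hKL⟩ := hK.prime.exists_mem_multiset_dvd hKd
    have hass' : Associated K L := hK.associated_of_dvd (hirr1 L hL) hKL
    rw [totalDegree_assoc hass']
    exact (Multiset.mem_filter.mp hL).2

end Pool.Agent.Lib.Arc3
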