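import Pool.Agent.Lib.MP_193dd3_co_ARC.Defs2

/-!
Module USE of project ARC (MP_193dd3_co): the two applications of the main identity.
-/

namespace Pool.Agent.Lib.Arc3

open MvPolynomial

variable {p : ℕ}

namespace UseAux

theorem natCast_ne_zero [Fact p.Prime] (n : ℕ) (h : n ∣ Nat.factorial (p - 1)) :
    ((n : ℕ) : ZMod p) ≠ 0 := by
  intro h0
  rw [ZMod.natCast_eq_zero_iff] at h0
  have hp : p.Prime := Fact.out
  have h1 : p ∣ Nat.factorial (p - 1) := h0.trans h
  rw [hp.dvd_factorial] at h1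
  have := hp.pos
  omega

theorem factorial_ne_zero [Fact p.Prime] (t : ℕ) (ht : t < p) :
    ((Nat.factorial t : ℕ) : ZMod p) ≠ 0 :=
  natCast_ne_zero _ (Nat.factorial_dvd_factorial (by omega))

/-- The sum in the identity reduces to the term at `P`. -/
theorem at_P [Fact p.Prime] {A : Finset (Pt p)} {t : ℕ} {γ : Pt p → ZMod p}
    {l : Pt p → List (Pt p)} (hγ : ∀ P ∈ A, γ P ≠ 0) (hl : ∀ P ∈ A, (l P).length = t)
    (hid : ∀ Ψ : Poly p, Ψ.totalDegree + 1 ≤ p + t → ∑ P ∈ A, γ P * ev P (iterD (l P) Ψ) = 0)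
    (P : Pt p) (hP : P ∈ A) (Ψ : Poly p) (hd : Ψ.totalDegree + 1 ≤ p + t)
    (hQ : ∀ Q ∈ A, Q ≠ P → Ψ ∈ (mI Q) ^ (t + 1)) : ev P (iterD (l P) Ψ) = 0 := by
  classical
  have h := hid Ψ hd
  rw [Finset.sum_eq_single_of_mem P hP] at h
  · exact (mul_eq_zero.mp h).resolve_left (hγ P hP)
  · intro Q hQA hQP
    rw [ev_iterD_eq_zero Q (t + 1) (l Q) Ψ (hQ Q hQA hQP) (by rw [hl Q hQA]; omega), mul_zero]

theorem ev_map_prod (P : Pt p) (B : Poly p) (l : List (Pt p)) :
    ev P (l.map (fun v => dd v B)).prod = (l.map (fun v => ev P (dd v B))).prod := by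
  rw [map_list_prod, List.map_map]
  rfl

end UseAux

open UseAux in
/-- Module USE1. -/
theorem use1 [Fact p.Prime] (A : Finset (Pt p)) (t : ℕ) (ht : t < p) (hid : HasIdent A t)
    (P : Pt p) (hP : P ∈ A) (h : ℕ) (hsep : Sep A P h) (hh : (t + 1) * h + 1 ≤ p) : False := by
  classical
  obtain ⟨γ, l, hγ, hl, hv0, -, hid⟩ := hid
  obtain ⟨H, H1, H2, H3⟩ := hsep
  -- a slope outside all directions
  have hm : ∃ m : ZMod p, ∀ v ∈ l P, v.1 + v.2 * m ≠ 0 := by
    by_contra hcon
    push Not at hcon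
    have hsub : (Finset.univ : Finset (ZMod p)) ⊆
        ((l P).map (fun v => - v.1 / v.2)).toFinset := by
      intro m _
      obtain ⟨v, hv, hvm⟩ := hcon m
      rw [List.mem_toFinset, List.mem_map]
      refine ⟨v, hv, ?_⟩
      have hv2 : v.2 ≠ 0 := by
        intro h2
        apply hv0 P hP v hv
        rw [h2, zero_mul, add_zero] at hvm
        exact Prod.ext hvm h2
      field_simp
      linear_combination -hvm
    have h1 := Finset.card_le_card hsub
    have h2 := List.toFinset_card_le ((l P).map (fun v => - v.1 / v.2))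
    rw [List.length_map, hl P hP] at h2
    rw [Finset.card_univ, ZMod.card] at h1
    omega
  obtain ⟨m, hm⟩ := hm
  set L : Poly p := lin 1 m (-(P.1 + m * P.2)) with hL
  have hLP : ev P L = 0 := by rw [hL, ev_lin]; ring
  have hLd : L.totalDegree ≤ 1 := totalDegree_lin_le _ _ _
  have hdeg : (L ^ t * H ^ (t + 1)).totalDegree + 1 ≤ p + t := by
    have h1 := totalDegree_mul (L ^ t) (H ^ (t + 1))
    have h2 := totalDegree_pow L t
    have h3 := totalDegree_pow H (t + 1)
    have h4 : t * L.totalDegree ≤ t * 1 := Nat.mul_le_mul_left _ hLd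
    have h5 : (t + 1) * H.totalDegree ≤ (t + 1) * h := Nat.mul_le_mul_left _ H1
    omega
  have key := at_P hγ hl hid P hP (L ^ t * H ^ (t + 1)) hdeg (by
    intro Q hQ hQP
    rw [mul_comm]
    exact pow_mul_mem Q H _ (t + 1) (H3 Q hQ hQP))
  obtain ⟨Y, hY⟩ := iterD_pow_mul (l P) L (H ^ (t + 1)) t (by rw [hl P hP])
  rw [hY, hl P hP, map_add, map_mul, map_mul, map_mul, map_mul, ev_map_prod, Nat.sub_self,
    zero_add, pow_zero, pow_one, map_one, hLP, zero_mul, add_zero, mul_one, map_pow,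
    Nat.descFactorial_self, map_natCast] at key
  have h1 : ((Nat.factorial t : ℕ) : ZMod p) ≠ 0 := factorial_ne_zero t ht
  have h2 : ((l P).map (fun v => ev P (dd v L))).prod ≠ 0 := by
    rw [Ne, List.prod_eq_zero_iff, List.mem_map]
    rintro ⟨v, hv, hv'⟩
    rw [hL, dd_lin, ev_C, mul_one] at hv'
    exact hm v hv hv'
  exact mul_ne_zero (mul_ne_zero h1 h2) (pow_ne_zero _ H2) key

namespace UseAux

theorem ev_Wr (P : Pt p) (B : Poly p) :
    ev P (Wr B) = (ev P (pderiv 1 B)) ^ 2 * ev P (pderiv 0 (pderiv 0 B))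
      - 2 * ev P (pderiv 0 B) * ev P (pderiv 1 B) * ev P (pderiv 0 (pderiv 1 B))
      + (ev P (pderiv 0 B)) ^ 2 * ev P (pderiv 1 (pderiv 1 B)) := by
  have h2 : ev P 2 = 2 := map_ofNat (ev P) 2
  simp only [Wr, map_add, map_sub, map_mul, map_pow, h2]

theorem ev_last (P v : Pt p) (B Z L Φ Y : Poly p) (c : ZMod p) (hB : ev P B = 0)
    (hv : ev P (dd v B) = 0) (hL : ev P L = 0) (hc : ev P (dd v L) = c) :
    ev P (dd v (Z * (L * Φ) + B * Y)) = ev P Z * (c * ev P Φ) := by
  rw [(dd v).map_add, dd_mul, dd_mul, dd_mul]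
  simp only [map_add, map_mul]
  rw [hB, hv, hL, hc]
  ring

theorem ev_dd_dd (v w P : Pt p) (B : Poly p) :
    ev P (dd v (dd w B)) = v.1 * w.1 * ev P (pderiv 0 (pderiv 0 B))
      + (v.1 * w.2 + v.2 * w.1) * ev P (pderiv 0 (pderiv 1 B))
      + v.2 * w.2 * ev P (pderiv 1 (pderiv 1 B)) := by
  rw [dd_apply w B, ev_dd]
  simp only [map_add, pderiv_C_mul, map_mul, ev_C]
  rw [pderiv_comm 1 0]
  ring

/-- A vector orthogonal to `(a, b) ≠ 0` is a multiple of `(-b, a)`. -/
theorem exists_mul [Fact p.Prime] (a b : ZMod p) (hab : ¬ (a = 0 ∧ b = 0)) (v : Pt p)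
    (hv : v ≠ 0) (h : v.1 * a + v.2 * b = 0) :
    ∃ c : ZMod p, c ≠ 0 ∧ v.1 = c * (-b) ∧ v.2 = c * a := by
  by_cases hb : b = 0
  · have ha : a ≠ 0 := fun h => hab ⟨h, hb⟩
    rw [hb, mul_zero, add_zero] at h
    have hv1 : v.1 = 0 := (mul_eq_zero.mp h).resolve_right ha
    have hv2 : v.2 ≠ 0 := fun h2 => hv (Prod.ext hv1 h2)
    refine ⟨v.2 / a, div_ne_zero hv2 ha, ?_, ?_⟩
    · rw [hv1, hb]; ring
    · field_simp
  · have hv1 : v.1 ≠ 0 := by
      intro h1
      rw [h1, zero_mul, zero_add] at h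
      exact hv (Prod.ext h1 ((mul_eq_zero.mp h).resolve_right hb))
    refine ⟨-v.1 / b, div_ne_zero (neg_ne_zero.mpr hv1) hb, ?_, ?_⟩
    · field_simp
    · field_simp
      linear_combination h

end UseAux

open UseAux in
/-- Module USE2. -/
theorem use2 [Fact p.Prime] (A : Finset (Pt p)) (t : ℕ) (ht2 : 2 ≤ t) (ht : t < p)
    (hid : HasIdent A t) (B : Poly p) (hB : Van A B) (P : Pt p) (hP : P ∈ A) (D : ℕ)
    (hsep : Sep A P D) (hdeg : t * B.totalDegree + 2 * D + 2 ≤ p + t) : ev P (Wr B) = 0 := by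
  classical
  obtain ⟨γ, l, hγ, hl, hv0, hcount, hid⟩ := hid
  obtain ⟨H, H1, H2, H3⟩ := hsep
  set bx := ev P (pderiv 0 B) with hbx
  set by' := ev P (pderiv 1 B) with hby
  by_cases h00 : bx = 0 ∧ by' = 0
  · rw [ev_Wr, ← hbx, ← hby, h00.1, h00.2]; ring
  have hBP : ev P B = 0 := hB P hP
  have hddB : ∀ v : Pt p, ev P (dd v B) = v.1 * bx + v.2 * by' := fun v => ev_dd v P B
  have hpowB : ∀ k, (B ^ k).totalDegree ≤ k * B.totalDegree := fun k => totalDegree_pow B k
  have hH2 : (H ^ 2).totalDegree ≤ 2 * D :=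
    (totalDegree_pow H 2).trans (Nat.mul_le_mul_left _ H1)
  have htb : (t - 1) * B.totalDegree ≤ t * B.totalDegree := Nat.mul_le_mul_right _ (by omega)
  -- first application
  have key0 := at_P hγ hl hid P hP (B ^ t * H ^ 2) (by
      have := totalDegree_mul (B ^ t) (H ^ 2)
      have := hpowB t
      omega) (by
      intro Q hQ hQP
      have := mul_pow_mem Q B H 1 t 2 (hB Q hQ) (H3 Q hQ hQP)
      rw [mul_one] at this
      exact Ideal.pow_le_pow_right (by omega) this)
  have hex1 : ∃ v ∈ l P, v.1 * bx + v.2 * by' = 0 := by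
    obtain ⟨Y, hY⟩ := iterD_pow_mul (l P) B (H ^ 2) t (by rw [hl P hP])
    rw [hY, hl P hP, map_add, map_mul, map_mul, map_mul, map_mul, ev_map_prod, Nat.sub_self,
      zero_add, pow_zero, pow_one, map_one, hBP, zero_mul, add_zero, mul_one, map_pow,
      Nat.descFactorial_self, map_natCast] at key0
    have h1 : ((Nat.factorial t : ℕ) : ZMod p) ≠ 0 := factorial_ne_zero t ht
    have h2 : ((l P).map (fun v => ev P (dd v B))).prod = 0 := by
      rcases mul_eq_zero.mp key0 with h | h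
      · exact (mul_eq_zero.mp h).resolve_left h1
      · exact absurd h (pow_ne_zero _ H2)
    rw [List.prod_eq_zero_iff, List.mem_map] at h2
    obtain ⟨v, hv, hv'⟩ := h2
    exact ⟨v, hv, by rw [← hddB]; exact hv'⟩
  obtain ⟨v, hvl, hv⟩ := hex1
  have hperm1 : (l P).Perm (v :: (l P).erase v) := List.perm_cons_erase hvl
  set l' := (l P).erase v with hl'
  have hl'len : l'.length = t - 1 := by
    rw [hl', List.length_erase_of_mem hvl, hl P hP]
  have hvne : v ≠ 0 := hv0 P hP v hvl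
  -- second application
  have hex2 : ∃ w ∈ l', w.1 * bx + w.2 * by' = 0 := by
    have hab : ∃ a b : ZMod p, v.1 * a + v.2 * b ≠ 0 := by
      by_cases h1 : v.1 = 0
      · have h2 : v.2 ≠ 0 := fun h2 => hvne (Prod.ext h1 h2)
        exact ⟨0, 1, by simpa using h2⟩
      · exact ⟨1, 0, by simpa using h1⟩
    obtain ⟨a, b, hab⟩ := hab
    set L : Poly p := lin a b (-(a * P.1 + b * P.2)) with hL
    have hLP : ev P L = 0 := by rw [hL, ev_lin]; ring
    have hLd : L.totalDegree ≤ 1 := totalDegree_lin_le _ _ _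
    have key1 := at_P hγ hl hid P hP (B ^ (t - 1) * (L * H ^ 2)) (by
      have := totalDegree_mul (B ^ (t - 1)) (L * H ^ 2)
      have := totalDegree_mul L (H ^ 2)
      have := hpowB (t - 1)
      omega) (by
      intro Q hQ hQP
      have := mul_pow_mem Q B H L (t - 1) 2 (hB Q hQ) (H3 Q hQ hQP)
      have e : B ^ (t - 1) * H ^ 2 * L = B ^ (t - 1) * (L * H ^ 2) := by ring
      rw [e] at this
      exact Ideal.pow_le_pow_right (by omega) this)
    obtain ⟨Y, hY⟩ := iterD_pow_mul l' B (L * H ^ 2) (t - 1) (by rw [hl'len])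
    rw [iterD_perm hperm1, iterD_cons, iterD_dd_comm, hY, hl'len, Nat.sub_self, pow_zero, mul_one,
      zero_add, pow_one, Nat.descFactorial_self,
      ev_last P v B _ L _ Y (v.1 * a + v.2 * b) hBP (by rw [hddB, hv]) hLP
        (by rw [hL, dd_lin, ev_C]), map_mul, ev_map_prod, map_natCast, map_pow] at key1
    have h1 : ((Nat.factorial (t - 1) : ℕ) : ZMod p) ≠ 0 := factorial_ne_zero _ (by omega)
    have h2 : (l'.map (fun v => ev P (dd v B))).prod = 0 := by
      have h3 : ((Nat.factorial (t - 1) : ℕ) : ZMod p) *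
          (l'.map (fun v => ev P (dd v B))).prod * (ev P H ^ 2 * (v.1 * a + v.2 * b)) = 0 := by
        linear_combination key1
      rcases mul_eq_zero.mp h3 with h | h
      · exact (mul_eq_zero.mp h).resolve_left h1
      · exact absurd h (mul_ne_zero (pow_ne_zero _ H2) hab)
    rw [List.prod_eq_zero_iff, List.mem_map] at h2
    obtain ⟨w, hw, hw'⟩ := h2
    exact ⟨w, hw, by rw [← hddB]; exact hw'⟩
  obtain ⟨w, hwl, hw⟩ := hex2
  have hwne : w ≠ 0 := hv0 P hP w (List.mem_of_mem_erase hwl)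
  have hperm2 : l'.Perm (w :: l'.erase w) := List.perm_cons_erase hwl
  set l'' := l'.erase w with hl''
  have hl''len : l''.length = t - 2 := by
    rw [hl'', List.length_erase_of_mem hwl, hl'len]; omega
  have hperm : (l P).Perm (v :: w :: l'') := hperm1.trans (List.Perm.cons v hperm2)
  have hno : ∀ u ∈ l'', u.1 * bx + u.2 * by' ≠ 0 := by
    intro u hu hu0
    have h1 := hcount P hP bx by' (by
      intro h
      exact h00 ⟨congrArg Prod.fst h, congrArg Prod.snd h⟩)
    rw [(hperm.filter _).length_eq] at h1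
    rw [List.filter_cons_of_pos (by simpa using hv), List.filter_cons_of_pos (by simpa using hw)]
      at h1
    simp only [List.length_cons] at h1
    have h2 : 0 < (l''.filter (fun v => v.1 * bx + v.2 * by' = 0)).length := by
      apply List.length_pos_of_mem (a := u)
      rw [List.mem_filter]
      exact ⟨hu, by simpa using hu0⟩
    omega
  -- third application
  have key2 := at_P hγ hl hid P hP (B ^ (t - 1) * H ^ 2) (by
      have := totalDegree_mul (B ^ (t - 1)) (H ^ 2)
      have := hpowB (t - 1)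
      omega) (by
      intro Q hQ hQP
      have := mul_pow_mem Q B H 1 (t - 1) 2 (hB Q hQ) (H3 Q hQ hQP)
      rw [mul_one] at this
      exact Ideal.pow_le_pow_right (by omega) this)
  obtain ⟨Y, hY⟩ := iterD_pow_mul l'' B (H ^ 2) (t - 1) (by rw [hl''len]; omega)
  have e1 : t - 1 - (t - 2) = 1 := by omega
  rw [iterD_perm hperm, iterD_cons, iterD_dd_comm, iterD_cons, iterD_dd_comm, hY, hl''len, e1]
    at key2
  set W : Poly p := (((t - 1).descFactorial (t - 2) : ℕ) : Poly p) *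
    (l''.map (fun v => dd v B)).prod * H ^ 2 with hW
  have e2 : (((t - 1).descFactorial (t - 2) : ℕ) : Poly p) * B ^ 1 *
      (l''.map (fun v => dd v B)).prod * H ^ 2 + B ^ (1 + 1) * Y = B * (W + B * Y) := by
    rw [hW]; ring
  rw [e2, dd_mul w, (dd v).map_add, dd_mul v, dd_mul v (W + B * Y)] at key2
  simp only [map_add, map_mul, hBP, hddB, hv, hw] at key2
  have h5 : ev P (W + B * Y) * ev P (dd v (dd w B)) = 0 := by
    simp only [map_add, map_mul, hBP]
    linear_combination key2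
  have hWP : ev P (W + B * Y) ≠ 0 := by
    rw [map_add, map_mul (ev P) B Y, hBP, zero_mul, add_zero, hW, map_mul, map_mul, ev_map_prod,
      map_natCast, map_pow]
    refine mul_ne_zero (mul_ne_zero ?_ ?_) (pow_ne_zero _ H2)
    · apply natCast_ne_zero
      refine dvd_trans ?_ (Nat.factorial_dvd_factorial (show t - 1 ≤ p - 1 by omega))
      have h6 := Nat.factorial_mul_descFactorial (show t - 2 ≤ t - 1 by omega)
      exact Dvd.intro_left _ h6
    · rw [Ne, List.prod_eq_zero_iff, List.mem_map]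
      rintro ⟨u, hu, hu'⟩
      rw [hddB] at hu'
      exact hno u hu hu'
  have h6 := (mul_eq_zero.mp h5).resolve_left hWP
  obtain ⟨c, hc, hc1, hc2⟩ := exists_mul bx by' h00 v hvne hv
  obtain ⟨d, hd, hd1, hd2⟩ := exists_mul bx by' h00 w hwne hw
  rw [ev_dd_dd, hc1, hc2, hd1, hd2] at h6
  have h7 : c * d * ev P (Wr B) = 0 := by
    rw [ev_Wr, ← hbx, ← hby]
    linear_combination h6
  exact (mul_eq_zero.mp h7).resolve_left (mul_ne_zero hc hd)

end Pool.Agent.Lib.Arc3
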