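import Pool.Agent.Lib.MP_193dd3_co_ARC.Ident
import Pool.Agent.Lib.MP_193dd3_co_ARC.Use
import Pool.Agent.Lib.MP_193dd3_co_ARC.Extract
import Pool.Agent.Lib.MP_193dd3_co_ARC.Flex
import Pool.Agent.Lib.MP_193dd3_co_ARC.Rich
import Pool.Agent.Lib.MP_193dd3_co_ARC.Final

/-!
Project ARC (MP_193dd3_co): assembly.
-/

namespace Pool.Agent.Lib.Arc3

open MvPolynomial

variable {p : ℕ}

/-- Second half: curve of small degree. -/
theorem case_small [Fact p.Prime] (hp : 10 ^ 8 ≤ p) (A : Finset (Pt p)) (hA : NoFour A)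
    (t : ℕ) (hcard : A.card + t = 2 * p + 3) (ht2 : 2 ≤ t) (ht : 10 * t ≤ p) (B : Poly p)
    (hB0 : B ≠ 0) (hsq : Squarefree B) (hB : Van A B) (hb : 600 * B.totalDegree ^ 2 ≤ p)
    (htb : 100 * (t * B.totalDegree) ≤ p) : False := by
  classical
  have htp : t < p := by omega
  have hid := main_identity A hA t hcard htp
  set U := A.filter (fun P => ev P (Wr B) ≠ 0) with hU
  have hbp : B.totalDegree < p := by nlinarith
  have hfl := card_flex A hA B hB0 hsq hbp hB
  have hcc : (A.filter (fun P => ev P (Wr B) = 0)).card + U.card = A.card := by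
    rw [hU]; exact Finset.card_filter_add_card_filter_not _
  have hns : ∀ P ∈ U, ¬ Sep A P (9 * p / 20) := by
    intro P hP hsep
    rw [hU, Finset.mem_filter] at hP
    refine hP.2 (use2 A t ht2 htp hid B hB P hP.1 (9 * p / 20) hsep ?_)
    omega
  obtain ⟨M, hM⟩ := rich hp A U hA (by omega) (by omega) (Finset.filter_subset _ _)
    (3 * B.totalDegree ^ 2) (by omega) (by omega) hns
  exact final hp A hA t hcard ht _ (by omega) M hM

/-- First half: no curve of degree at most `s` contains `A`. -/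
theorem case_large [Fact p.Prime] (A : Finset (Pt p)) (hA : NoFour A)
    (t : ℕ) (hcard : A.card + t = 2 * p + 3) (ht : t < p) (s : ℕ)
    (hs : ∀ g : Poly p, g ≠ 0 → Van A g → s < g.totalDegree)
    (hst : (t + 1) * (s * (s + 2) + 4 * p + 6) + s + 2 ≤ p * (s + 2)) : False := by
  classical
  have hid := main_identity A hA t hcard ht
  obtain ⟨G, k, hG0, hGd, hk, hsep⟩ := extract s A
  have hnv : ¬ Van A G := by
    intro h
    have := hs G hG0 h
    omega
  unfold Van at hnv
  push Not at hnv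
  obtain ⟨P, hP, hPG⟩ := hnv
  refine use1 A t ht hid P hP _ (hsep P hPG) ?_
  have h1 : k * (s + 1) * (s + 2) ≤ 4 * p + 6 := by
    have : k * ((s + 1) * (s + 2)) ≤ 2 * (2 * p + 3) := hk.trans (by omega)
    nlinarith
  have h2 : (s + 2) * ((t + 1) * (s + k * (s + 1)) + 1) ≤ (s + 2) * p := by
    calc (s + 2) * ((t + 1) * (s + k * (s + 1)) + 1)
        = (t + 1) * (s * (s + 2) + k * (s + 1) * (s + 2)) + (s + 2) := by ring
      _ ≤ (t + 1) * (s * (s + 2) + (4 * p + 6)) + (s + 2) := by gcongr
      _ ≤ (s + 2) * p := by nlinarith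
  exact Nat.le_of_mul_le_mul_left h2 (by omega)


/-- The elementary bound. -/
theorem card_le_trivial [Fact p.Prime] (A : Finset (Pt p)) (hA : NoFour A) :
    A.card ≤ 2 * p + 3 := by
  classical
  rcases A.eq_empty_or_nonempty with h | ⟨P, hP⟩
  · rw [h]; simp
  · have h1 := sum_kk A P
    have h2 : ∑ m : ZMod p, kk A P 1 m ≤ ∑ m : ZMod p, 2 :=
      Finset.sum_le_sum (fun m _ => kk_le A hA P hP 1 m (by simp))
    have h3 := kk_le A hA P hP 0 1 (by simp)
    have h4 : (A.erase P).card + 1 = A.card := Finset.card_erase_add_one hP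
    simp only [Finset.sum_const, Finset.card_univ, ZMod.card, smul_eq_mul] at h2
    omega

/-- Sets on a curve of degree `b`. -/
theorem curve_bound [Fact p.Prime] (hp : 10 ^ 8 ≤ p) (A : Finset (Pt p)) (hA : NoFour A)
    (f : Poly p) (hf : f ≠ 0) (hv : Van A f) (b : ℕ) (hb : f.totalDegree ≤ b) (hb1 : 1 ≤ b) :
    (A.card : ℝ) ≤ 2 * p - p / (3000 * b) := by
  classical
  by_contra hcon
  push Not at hcon
  set q := p / (3000 * b) with hq
  have hbpos : 0 < 3000 * b := by omega
  have hq1 : q * (3000 * b) ≤ p := Nat.div_mul_le_self _ _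
  have hq2 : p < (q + 1) * (3000 * b) := by
    have := Nat.lt_div_mul_add (a := p) hbpos
    rw [← hq] at this
    linarith
  have hn : 2 * p ≤ A.card + q := by
    by_contra h
    push Not at h
    have h1 : (A.card : ℝ) + q + 1 ≤ 2 * p := by exact_mod_cast h
    have h2 : (p : ℝ) / (3000 * b) < q + 1 := by
      rw [div_lt_iff₀ (by exact_mod_cast hbpos)]
      exact_mod_cast hq2
    linarith
  have hq3 : q * 3000 ≤ p := by nlinarith
  obtain ⟨A', hA's, hA'c⟩ := Finset.exists_subset_card_eq (s := A) (n := 2 * p - 1 - q) (by omega)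
  have hA' : NoFour A' := hA.subset hA's
  have hv' : Van A' f := fun Q hQ => hv Q (hA's hQ)
  obtain ⟨B, hB0, hBv, hBd, hBsq, hBmin⟩ := exists_min A' f hf hv'
  have hcard : A'.card + (q + 4) = 2 * p + 3 := by omega
  set b1 := B.totalDegree with hb1'
  by_cases hsmall : 600 * b1 ^ 2 ≤ p
  · refine case_small hp A' hA' (q + 4) hcard (by omega) (by omega) B hB0 hBsq hBv hsmall ?_
    rw [← hb1']
    have h1 : q * b1 ≤ q * b := Nat.mul_le_mul_left _ (by omega)
    have h2 : b1 ≤ b1 ^ 2 := Nat.le_self_pow (by norm_num) _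
    nlinarith
  · push Not at hsmall
    set s := Nat.sqrt (p / 600) with hs
    have hs1 : s * s ≤ p / 600 := Nat.sqrt_le _
    have hs2 : p / 600 < (s + 1) * (s + 1) := Nat.lt_succ_sqrt _
    have hs3 : 600 * (s * s) ≤ p := by
      have := Nat.div_mul_le_self p 600
      nlinarith
    have hs4 : p < 600 * ((s + 1) * (s + 1)) := by
      have := (Nat.div_lt_iff_lt_mul (by norm_num : 0 < 600)).mp hs2
      linarith
    have hs5 : s < b1 := by
      by_contra h
      push Not at h
      have : b1 ^ 2 ≤ s * s := by rw [sq]; exact Nat.mul_le_mul h h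
      nlinarith
    have hs6 : 408 ≤ s := by
      by_contra h
      push Not at h
      have : (s + 1) * (s + 1) ≤ 408 * 408 := Nat.mul_le_mul (by omega) (by omega)
      omega
    have hq5 : 5 * q ≤ s := by
      by_contra h
      push Not at h
      have h1 : s + 1 ≤ b := by omega
      have h2 : q * (3000 * (s + 1)) ≤ p := le_trans (Nat.mul_le_mul_left _ (by omega)) hq1
      have h3 : (s + 1) * (600 * (s + 1)) ≤ q * 5 * (600 * (s + 1)) :=
        Nat.mul_le_mul_right _ (by omega)
      nlinarith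
    refine case_large A' hA' (q + 4) hcard (by omega) s (fun g hg hgv => ?_) ?_
    · exact lt_of_lt_of_le hs5 (hBmin g hg hgv)
    · have e1 : 100 * (s * (s + 2) + 4 * p + 6) ≤ 401 * p := by nlinarith
      have e2 : 401 * (q + 5) + 1 ≤ 100 * (s + 2) := by omega
      have e3 : 100 * (s + 2) ≤ p := by
        have h : s * 408 ≤ s * s := Nat.mul_le_mul_left _ hs6
        omega
      have e4 : (q + 5) * (100 * (s * (s + 2) + 4 * p + 6)) ≤ (q + 5) * (401 * p) :=
        Nat.mul_le_mul_left _ e1
      have e5 : (401 * (q + 5) + 1) * p ≤ 100 * (s + 2) * p := Nat.mul_le_mul_right _ e2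
      have e6 : 100 * ((q + 4 + 1) * (s * (s + 2) + 4 * p + 6)) =
          (q + 5) * (100 * (s * (s + 2) + 4 * p + 6)) := by ring
      have e7 : (401 * (q + 5) + 1) * p = (q + 5) * (401 * p) + p := by ring
      have e8 : 100 * (s + 2) * p = 100 * (p * (s + 2)) := by ring
      omega

end Pool.Agent.Lib.Arc3
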