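import Pool.Agent.Lib.MP_193dd3_co_ARC.Defs

/-!
Basic facts for project ARC (MP_193dd3_co).
-/

namespace Pool.Agent.Lib.Arc3

open MvPolynomial

variable {p : ℕ}

@[simp] theorem ev_C (P : Pt p) (a : ZMod p) : ev P (C a) = a := by simp [ev]
@[simp] theorem ev_X0 (P : Pt p) : ev P (X 0) = P.1 := by simp [ev]
@[simp] theorem ev_X1 (P : Pt p) : ev P (X 1) = P.2 := by simp [ev]

@[simp] theorem ev_lin (P : Pt p) (a b c : ZMod p) :
    ev P (lin a b c) = a * P.1 + b * P.2 + c := by
  simp [lin]

theorem dd_apply (v : Pt p) (f : Poly p) :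
    dd v f = C v.1 * pderiv 0 f + C v.2 * pderiv 1 f := by
  simp [dd, MvPolynomial.smul_eq_C_mul]

@[simp] theorem dd_C (v : Pt p) (a : ZMod p) : dd v (C a) = 0 := by
  simp

@[simp] theorem dd_lin (v : Pt p) (a b c : ZMod p) :
    dd v (lin a b c) = C (v.1 * a + v.2 * b) := by
  rw [dd_apply]
  have h0 : pderiv 0 (lin a b c) = C a := by
    simp [lin]
  have h1 : pderiv 1 (lin a b c) = C b := by
    simp [lin]
  rw [h0, h1, ← C_mul, ← C_mul, ← C_add]

theorem dd_mul (v : Pt p) (f g : Poly p) : dd v (f * g) = f * dd v g + g * dd v f := by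
  rw [Derivation.leibniz]; simp [smul_eq_mul]

theorem ev_dd (v : Pt p) (P : Pt p) (f : Poly p) :
    ev P (dd v f) = v.1 * ev P (pderiv 0 f) + v.2 * ev P (pderiv 1 f) := by
  simp [dd_apply]

theorem totalDegree_C_mul_le (a : ZMod p) (f : Poly p) :
    (C a * f).totalDegree ≤ f.totalDegree := by
  refine (totalDegree_mul _ _).trans ?_
  simp

theorem totalDegree_lin_le (a b c : ZMod p) : (lin a b c).totalDegree ≤ 1 := by
  have h : ∀ (a : ZMod p) (i : Fin 2), (C a * X i : Poly p).totalDegree ≤ 1 := by
    intro a i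
    rw [show (C a * X i : Poly p) = monomial (Finsupp.single i 1) a by
      rw [MvPolynomial.C_mul_X_eq_monomial]]
    refine (totalDegree_monomial_le _ _).trans ?_
    simp
  unfold lin
  refine (totalDegree_add _ _).trans (max_le ((totalDegree_add _ _).trans (max_le (h _ _) (h _ _))) ?_)
  simp

theorem totalDegree_pderiv_le (i : Fin 2) (f : Poly p) :
    (pderiv i f).totalDegree ≤ f.totalDegree - 1 := by
  classical
  rw [f.as_sum, map_sum]
  refine (totalDegree_finsetSum _ _).trans ?_
  refine Finset.sup_le ?_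
  intro s hs
  rw [pderiv_monomial]
  have hd : s.sum (fun _ e => e) ≤ f.totalDegree := le_totalDegree hs
  rw [← f.as_sum]
  by_cases h0 : s i = 0
  · simp [h0]
  · refine (totalDegree_monomial_le _ _).trans ?_
    change (s - Finsupp.single i 1).sum (fun _ e => e) ≤ _
    have h1 : s = (s - Finsupp.single i 1) + Finsupp.single i 1 := by
      rw [tsub_add_cancel_of_le]
      rw [Finsupp.single_le_iff]
      exact Nat.one_le_iff_ne_zero.mpr h0
    have h2 : s.sum (fun _ e => e) = (s - Finsupp.single i 1).sum (fun _ e => e) + 1 := by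
      conv_lhs => rw [h1]
      rw [Finsupp.sum_add_index' (by simp) (by simp)]
      simp
    omega

theorem totalDegree_dd_le (v : Pt p) (f : Poly p) :
    (dd v f).totalDegree ≤ f.totalDegree - 1 := by
  rw [dd_apply]
  refine (totalDegree_add _ _).trans (max_le ?_ ?_)
  · exact (totalDegree_C_mul_le _ _).trans (totalDegree_pderiv_le _ _)
  · exact (totalDegree_C_mul_le _ _).trans (totalDegree_pderiv_le _ _)

@[simp] theorem iterD_nil (f : Poly p) : iterD [] f = f := rfl
@[simp] theorem iterD_cons (v : Pt p) (l : List (Pt p)) (f : Poly p) :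
    iterD (v :: l) f = iterD l (dd v f) := rfl
theorem iterD_append (l m : List (Pt p)) (f : Poly p) :
    iterD (l ++ m) f = iterD m (iterD l f) := by
  simp [iterD, List.foldl_append]

theorem totalDegree_iterD_le (l : List (Pt p)) (f : Poly p) :
    (iterD l f).totalDegree ≤ f.totalDegree - l.length := by
  induction l generalizing f with
  | nil => simp
  | cons v l ih =>
    rw [iterD_cons]
    refine (ih _).trans ?_
    have := totalDegree_dd_le v f
    simp only [List.length_cons]
    omega

theorem iterD_add (l : List (Pt p)) (f g : Poly p) : iterD l (f + g) = iterD l f + iterD l g := by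
  induction l generalizing f g with
  | nil => simp
  | cons v l ih => simp [ih, map_add]

theorem iterD_C_mul (l : List (Pt p)) (a : ZMod p) (f : Poly p) :
    iterD l (C a * f) = C a * iterD l f := by
  induction l generalizing f with
  | nil => simp
  | cons v l ih =>
    rw [iterD_cons, iterD_cons, ← ih]
    congr 1
    rw [dd_mul, dd_C]; ring

@[simp] theorem iterD_zero (l : List (Pt p)) : iterD l (0 : Poly p) = 0 := by
  induction l with
  | nil => simp
  | cons v l ih => simp [ih]

theorem iterD_sum {ι : Type*} (s : Finset ι) (l : List (Pt p)) (f : ι → Poly p) :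
    iterD l (∑ i ∈ s, f i) = ∑ i ∈ s, iterD l (f i) := by
  classical
  induction s using Finset.induction_on with
  | empty => simp
  | insert a s ha ih => rw [Finset.sum_insert ha, Finset.sum_insert ha, iterD_add, ih]

theorem pderiv_comm (i j : Fin 2) (f : Poly p) :
    pderiv i (pderiv j f) = pderiv j (pderiv i f) := by
  have h : ⁅(pderiv i : Derivation (ZMod p) (Poly p) (Poly p)),
      (pderiv j : Derivation (ZMod p) (Poly p) (Poly p))⁆ = 0 := by
    apply MvPolynomial.derivation_ext
    intro k
    rw [Derivation.commutator_apply]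
    simp only [pderiv_X]
    by_cases hik : k = i
    · subst hik
      by_cases hjk : k = j
      · subst hjk; simp
      · simp [hjk]
    · by_cases hjk : k = j
      · subst hjk; simp [hik]
      · simp [hik, hjk]
  have := congrArg (fun D => D f) h
  simp only [Derivation.commutator_apply, Derivation.coe_zero, Pi.zero_apply] at this
  exact sub_eq_zero.mp this

theorem dd_comm (v w : Pt p) (f : Poly p) : dd v (dd w f) = dd w (dd v f) := by
  have h : ∀ (a : ZMod p) (i : Fin 2) (g : Poly p), pderiv i (C a * g) = C a * pderiv i g := by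
    intro a i g; rw [pderiv_C_mul]
  simp only [dd_apply, map_add, h]
  rw [pderiv_comm 0 1]
  ring

theorem iterD_dd_comm (v : Pt p) (l : List (Pt p)) (f : Poly p) :
    iterD l (dd v f) = dd v (iterD l f) := by
  induction l generalizing f with
  | nil => simp
  | cons w l ih => rw [iterD_cons, iterD_cons, dd_comm, ih]

theorem iterD_perm {l m : List (Pt p)} (h : l.Perm m) (f : Poly p) : iterD l f = iterD m f := by
  induction h generalizing f with
  | nil => rfl
  | cons v _ ih => simp [ih]
  | swap v w l => simp [dd_comm]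
  | trans _ _ ih1 ih2 => rw [ih1, ih2]

/-- The maximal ideal of a point. -/
noncomputable def mI (Q : Pt p) : Ideal (Poly p) := RingHom.ker (ev Q)

theorem mem_mI {Q : Pt p} {f : Poly p} : f ∈ mI Q ↔ ev Q f = 0 := RingHom.mem_ker

theorem dd_mem_pow (Q v : Pt p) (m : ℕ) (f : Poly p) (h : f ∈ (mI Q) ^ m) :
    dd v f ∈ (mI Q) ^ (m - 1) := by
  induction m generalizing f with
  | zero => simp
  | succ m ih =>
    rw [pow_succ] at h
    refine Submodule.mul_induction_on h ?_ ?_
    · intro a ha b hb
      rw [dd_mul]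
      refine Ideal.add_mem _ ?_ ?_
      · simpa using Ideal.mul_mem_right _ _ ha
      · have h1 := ih a ha
        rcases Nat.eq_zero_or_pos m with hm | hm
        · subst hm; simp
        · have h2 : b * dd v a ∈ (mI Q) * (mI Q) ^ (m - 1) := Ideal.mul_mem_mul hb h1
          rw [← pow_succ'] at h2
          have : m - 1 + 1 = m + 1 - 1 := by omega
          rwa [this] at h2
    · intro a b ha hb
      rw [map_add]; exact Ideal.add_mem _ ha hb

theorem iterD_mem_pow (Q : Pt p) (m : ℕ) (l : List (Pt p)) (f : Poly p) (h : f ∈ (mI Q) ^ m) :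
    iterD l f ∈ (mI Q) ^ (m - l.length) := by
  induction l generalizing f m with
  | nil => simpa using h
  | cons v l ih =>
    have := ih (m - 1) (dd v f) (dd_mem_pow Q v m f h)
    rw [iterD_cons, List.length_cons]
    have e : m - (l.length + 1) = m - 1 - l.length := by omega
    rwa [e]

/-- A product with more factors vanishing at `Q` than derivatives vanishes at `Q`. -/
theorem ev_iterD_eq_zero (Q : Pt p) (m : ℕ) (l : List (Pt p)) (f : Poly p)
    (h : f ∈ (mI Q) ^ m) (hl : l.length < m) : ev Q (iterD l f) = 0 := by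
  have h1 := iterD_mem_pow Q m l f h
  have h2 : (mI Q) ^ (m - l.length) ≤ mI Q := Ideal.pow_le_self (by omega)
  exact mem_mI.mp (h2 h1)

theorem mul_pow_mem (Q : Pt p) (F G Φ : Poly p) (m n : ℕ) (hF : ev Q F = 0) (hG : ev Q G = 0) :
    F ^ m * G ^ n * Φ ∈ (mI Q) ^ (m + n) := by
  rw [pow_add]
  exact Ideal.mul_mem_right _ _ (Ideal.mul_mem_mul (Ideal.pow_mem_pow (mem_mI.mpr hF) _)
    (Ideal.pow_mem_pow (mem_mI.mpr hG) _))

theorem pow_mul_mem (Q : Pt p) (F Φ : Poly p) (m : ℕ) (hF : ev Q F = 0) :
    F ^ m * Φ ∈ (mI Q) ^ m :=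
  Ideal.mul_mem_right _ _ (Ideal.pow_mem_pow (mem_mI.mpr hF) _)

/-- Iterated derivative of `B^m Φ` modulo a higher power of `B`. -/
theorem iterD_pow_mul (l : List (Pt p)) (B Φ : Poly p) (m : ℕ) (hm : l.length ≤ m) :
    ∃ Y : Poly p, iterD l (B ^ m * Φ) =
      (m.descFactorial l.length : Poly p) * B ^ (m - l.length) *
        (l.map (fun v => dd v B)).prod * Φ + B ^ (m - l.length + 1) * Y := by
  induction l generalizing m Φ with
  | nil => exact ⟨0, by simp⟩
  | cons v l ih =>
    simp only [List.length_cons] at hm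
    obtain ⟨k, rfl⟩ : ∃ k, m = k + 1 := ⟨m - 1, by omega⟩
    obtain ⟨Y1, hY1⟩ := ih (((k + 1 : ℕ) : Poly p) * dd v B * Φ) k (by omega)
    obtain ⟨Y2, hY2⟩ := ih (dd v Φ) (k + 1) (by omega)
    have e : dd v (B ^ (k + 1) * Φ) =
        B ^ k * (((k + 1 : ℕ) : Poly p) * dd v B * Φ) + B ^ (k + 1) * dd v Φ := by
      rw [dd_mul, Derivation.leibniz_pow]
      simp only [Nat.add_sub_cancel, nsmul_eq_mul, smul_eq_mul]
      ring
    refine ⟨Y1 + ((k+1).descFactorial l.length : Poly p) *
        (l.map (fun v => dd v B)).prod * dd v Φ + B * Y2, ?_⟩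
    rw [iterD_cons, e, iterD_add, hY1, hY2]
    simp only [List.length_cons, List.map_cons, List.prod_cons]
    have e1 : k + 1 - (l.length + 1) = k - l.length := by omega
    have e2 : k + 1 - l.length = k - l.length + 1 := by omega
    rw [e1, e2, Nat.succ_descFactorial_succ]
    push_cast
    ring

end Pool.Agent.Lib.Arc3
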