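import Mathlib

/-!
Definitions for project ARC (MP_193dd3_co): sets of points of the affine plane over `ZMod p`
with at most three points on every line.
-/

namespace Pool.Agent.Lib.Arc3

open MvPolynomial

/-- Points of the affine plane over `ZMod p`. -/
abbrev Pt (p : ℕ) := ZMod p × ZMod p

/-- Polynomials in two variables `X 0 = x`, `X 1 = y`. -/
abbrev Poly (p : ℕ) := MvPolynomial (Fin 2) (ZMod p)

variable {p : ℕ}

/-- Evaluation at a point. -/
noncomputable def ev (P : Pt p) : Poly p →+* ZMod p := MvPolynomial.eval ![P.1, P.2]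

/-- The affine form `a x + b y + c`. -/
noncomputable def lin (a b c : ZMod p) : Poly p := C a * X 0 + C b * X 1 + C c

/-- Derivative in the direction `v`. -/
noncomputable def dd (v : Pt p) : Derivation (ZMod p) (Poly p) (Poly p) :=
  v.1 • pderiv 0 + v.2 • pderiv 1

/-- Iterated directional derivative (first element of the list is applied first). -/
noncomputable def iterD (l : List (Pt p)) (f : Poly p) : Poly p :=
  l.foldl (fun g v => dd v g) f

/-- `B_y² B_xx − 2 B_x B_y B_xy + B_x² B_yy`. -/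
noncomputable def Wr (B : Poly p) : Poly p :=
  (pderiv 1 B) ^ 2 * pderiv 0 (pderiv 0 B)
    - 2 * pderiv 0 B * pderiv 1 B * pderiv 0 (pderiv 1 B)
    + (pderiv 0 B) ^ 2 * pderiv 1 (pderiv 1 B)

/-- `P` is separated from the rest of `A` by a polynomial of degree at most `D`. -/
def Sep (A : Finset (Pt p)) (P : Pt p) (D : ℕ) : Prop :=
  ∃ H : Poly p, H.totalDegree ≤ D ∧ ev P H ≠ 0 ∧ ∀ Q ∈ A, Q ≠ P → ev Q H = 0

/-- No four points of `A` on a line. -/
def NoFour (A : Finset (Pt p)) : Prop :=
  ∀ a b c : ZMod p, (a, b) ≠ (0, 0) →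
    (A.filter (fun Q => a * Q.1 + b * Q.2 = c)).card ≤ 3

/-- `f` vanishes on `A`. -/
def Van (A : Finset (Pt p)) (f : Poly p) : Prop := ∀ Q ∈ A, ev Q f = 0

/-- `P` is a rational point of `K` at which the gradient of `K` is not zero. -/
def SmoothAt (K : Poly p) (P : Pt p) : Prop :=
  ev P K = 0 ∧ (ev P (pderiv 0 K) ≠ 0 ∨ ev P (pderiv 1 K) ≠ 0)

end Pool.Agent.Lib.Arc3
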