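import Pool.Agent.Lib.MP_193dd3_co_ARC.Defs2
import Pool.Agent.Lib.MP_193dd3_co_ARC.Bez

/-!
Project ARC (MP_193dd3_co), module DIM: the dimension of the space of polynomials of bounded
degree, and polynomials vanishing on small sets.
-/

namespace Pool.Agent.Lib.Arc3

open MvPolynomial

variable {p : ℕ}

theorem finrank_V [Fact p.Prime] (d : ℕ) :
    Module.finrank (ZMod p) (restrictTotalDegree (Fin 2) (ZMod p) d) * 2 =
      (d + 1) * (d + 2) := by
  rw [mul_comm]
  exact BezAux.finrank_V d

instance finite_V [Fact p.Prime] (d : ℕ) :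
    Module.Finite (ZMod p) (restrictTotalDegree (Fin 2) (ZMod p) d) := by
  refine Module.finite_of_finrank_pos ?_
  have h := finrank_V (p := p) d
  have h2 : 0 < (d + 1) * (d + 2) := by positivity
  omega

/-- Evaluation at a point, as a linear map. -/
noncomputable def evL (P : Pt p) : Poly p →ₗ[ZMod p] ZMod p where
  toFun f := ev P f
  map_add' f g := map_add _ f g
  map_smul' a f := by
    rw [MvPolynomial.smul_eq_C_mul, map_mul, ev_C]
    rfl

@[simp] theorem evL_apply (P : Pt p) (f : Poly p) : evL P f = ev P f := rfl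

/-- Evaluation of the polynomials of degree at most `s` at the points of `T`. -/
noncomputable def evT (s : ℕ) (T : Finset (Pt p)) :
    restrictTotalDegree (Fin 2) (ZMod p) s →ₗ[ZMod p] (T → ZMod p) :=
  (LinearMap.pi fun Q : T => evL (Q : Pt p)) ∘ₗ (restrictTotalDegree (Fin 2) (ZMod p) s).subtype

theorem evT_apply (s : ℕ) (T : Finset (Pt p))
    (f : restrictTotalDegree (Fin 2) (ZMod p) s) (Q : T) :
    evT s T f Q = ev (Q : Pt p) (f : Poly p) := rfl

/-- Module DIM. -/
theorem exists_van [Fact p.Prime] (s : ℕ) (T : Finset (Pt p))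
    (h : 2 * T.card < (s + 1) * (s + 2)) :
    ∃ f : Poly p, f ≠ 0 ∧ f.totalDegree ≤ s ∧ Van T f := by
  have hr := finrank_V (p := p) s
  have h1 : Module.finrank (ZMod p) (T → ZMod p) <
      Module.finrank (ZMod p) (restrictTotalDegree (Fin 2) (ZMod p) s) := by
    rw [Module.finrank_fintype_fun_eq_card, Fintype.card_coe]
    omega
  have h2 : LinearMap.ker (evT s T) ≠ ⊥ := LinearMap.ker_ne_bot_of_finrank_lt h1
  obtain ⟨f, hf, hf0⟩ := (Submodule.ne_bot_iff _).mp h2
  refine ⟨f, ?_, (mem_restrictTotalDegree _ _ _).mp f.2, ?_⟩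
  · intro h0
    exact hf0 (Subtype.ext h0)
  · intro Q hQ
    have h3 := congrFun (LinearMap.mem_ker.mp hf) ⟨Q, hQ⟩
    rw [evT_apply] at h3
    exact h3

end Pool.Agent.Lib.Arc3
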