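import Pool.Agent.Lib.MP_193dd3_co_ARC.Defs2

/-!
Project ARC (MP_193dd3_co): the exceptional directions at a point and the product formula.
-/

namespace Pool.Agent.Lib.Arc3

open Finset

variable {p : ℕ} [Fact p.Prime]

/-- Number of other points of `A` on the line `a x + b y = const` through `P`. -/
noncomputable def kk (A : Finset (Pt p)) (P : Pt p) (a b : ZMod p) : ℕ :=
  ((A.erase P).filter (fun Q => (Q.1 - P.1) * a + (Q.2 - P.2) * b = 0)).card

/-- The list of exceptional directions of `P`. -/
noncomputable def exList (A : Finset (Pt p)) (P : Pt p) : List (Pt p) :=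
  (Finset.univ : Finset (ZMod p)).toList.flatMap
      (fun m => List.replicate (2 - kk A P 1 m) ((-m, 1) : Pt p))
    ++ List.replicate (2 - kk A P 0 1) ((1, 0) : Pt p)

theorem kk_le (A : Finset (Pt p)) (hA : NoFour A) (P : Pt p) (hP : P ∈ A) (a b : ZMod p)
    (hab : (a, b) ≠ (0, 0)) : kk A P a b ≤ 2 := by
  have h := hA a b (a * P.1 + b * P.2) hab
  have e : A.filter (fun Q => a * Q.1 + b * Q.2 = a * P.1 + b * P.2) =
      insert P ((A.erase P).filter (fun Q => (Q.1 - P.1) * a + (Q.2 - P.2) * b = 0)) := by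
    ext Q
    simp only [mem_filter, mem_insert, mem_erase]
    constructor
    · rintro ⟨h1, h2⟩
      by_cases hQ : Q = P
      · exact Or.inl hQ
      · refine Or.inr ⟨⟨hQ, h1⟩, ?_⟩
        linear_combination h2
    · rintro (rfl | ⟨⟨_, h1⟩, h2⟩)
      · exact ⟨hP, rfl⟩
      · refine ⟨h1, ?_⟩
        linear_combination h2
  rw [e, card_insert_of_notMem (by simp)] at h
  unfold kk
  omega

/-- The slope parameter of the line through `P` and `Q`. -/
noncomputable def slp (P Q : Pt p) : ZMod p := -(Q.1 - P.1) / (Q.2 - P.2)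

theorem slp_iff (P Q : Pt p) (h : Q.2 ≠ P.2) (m : ZMod p) :
    (Q.1 - P.1) * 1 + (Q.2 - P.2) * m = 0 ↔ slp P Q = m := by
  have h1 : Q.2 - P.2 ≠ 0 := sub_ne_zero.mpr h
  unfold slp
  rw [div_eq_iff h1]
  constructor
  · intro h2; linear_combination -h2
  · intro h2; linear_combination -h2

theorem kk_eq_fib (A : Finset (Pt p)) (P : Pt p) (m : ZMod p) :
    kk A P 1 m = (((A.erase P).filter (fun Q => Q.2 ≠ P.2)).filter (fun Q => slp P Q = m)).card := by
  unfold kk
  congr 1
  ext Q
  simp only [mem_filter, mem_erase]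
  constructor
  · rintro ⟨⟨h1, h2⟩, h3⟩
    have h4 : Q.2 ≠ P.2 := by
      intro h5
      apply h1
      rw [h5] at h3
      refine Prod.ext ?_ h5
      linear_combination h3
    exact ⟨⟨⟨h1, h2⟩, h4⟩, (slp_iff P Q h4 m).mp h3⟩
  · rintro ⟨⟨⟨h1, h2⟩, h4⟩, h3⟩
    exact ⟨⟨h1, h2⟩, (slp_iff P Q h4 m).mpr h3⟩

theorem kk_inf (A : Finset (Pt p)) (P : Pt p) :
    kk A P 0 1 = ((A.erase P).filter (fun Q => ¬ Q.2 ≠ P.2)).card := by
  unfold kk
  congr 1
  ext Q
  simp only [mem_filter, mem_erase, mul_zero, mul_one, zero_add, sub_eq_zero, not_not]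

theorem sum_kk (A : Finset (Pt p)) (P : Pt p) :
    ∑ m : ZMod p, kk A P 1 m + kk A P 0 1 = (A.erase P).card := by
  have h1 : ∑ m : ZMod p, kk A P 1 m = ((A.erase P).filter (fun Q => Q.2 ≠ P.2)).card := by
    rw [Finset.card_eq_sum_card_fiberwise (f := slp P) (t := Finset.univ) (by simp)]
    exact Finset.sum_congr rfl (fun m _ => kk_eq_fib A P m)
  rw [h1, kk_inf]
  exact Finset.card_filter_add_card_filter_not _

theorem exList_length (A : Finset (Pt p)) (hA : NoFour A) (P : Pt p) (hP : P ∈ A) (t : ℕ)
    (hcard : A.card + t = 2 * p + 3) : (exList A P).length = t := by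
  have h1 : (exList A P).length = ∑ m : ZMod p, (2 - kk A P 1 m) + (2 - kk A P 0 1) := by
    unfold exList
    rw [List.length_append, List.length_flatMap, List.length_replicate]
    congr 1
    simp only [List.length_replicate]
    exact Finset.sum_map_toList _ _
  have h2 : ∑ m : ZMod p, (2 - kk A P 1 m) + ∑ m : ZMod p, kk A P 1 m = 2 * p := by
    rw [← Finset.sum_add_distrib]
    rw [Finset.sum_congr rfl (g := fun _ => 2)]
    · simp [ZMod.card, mul_comm]
    · intro m _
      have := kk_le A hA P hP 1 m (by simp)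
      omega
  have h3 := kk_le A hA P hP 0 1 (by simp)
  have h4 := sum_kk A P
  have h5 : (A.erase P).card + 1 = A.card := Finset.card_erase_add_one hP
  omega

theorem exList_ne_zero (A : Finset (Pt p)) (P : Pt p) : ∀ v ∈ exList A P, v ≠ 0 := by
  intro v hv
  unfold exList at hv
  rw [List.mem_append, List.mem_flatMap] at hv
  rcases hv with ⟨m, _, hm⟩ | hv
  · rw [List.mem_replicate] at hm
    rw [hm.2]
    intro h
    have := congrArg Prod.snd h
    simp at this
  · rw [List.mem_replicate] at hv
    rw [hv.2]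
    intro h
    have := congrArg Prod.fst h
    simp at this

/-- The multiplicity of the direction orthogonal to `(a, b)` in the list. -/
theorem exList_mult (A : Finset (Pt p)) (P : Pt p) (a b : ZMod p)
    (hab : (a, b) ≠ (0, 0)) :
    ((exList A P).filter (fun v => v.1 * a + v.2 * b = 0)).length = 2 - kk A P a b := by
  unfold exList
  rw [List.filter_append, List.length_append, List.filter_flatMap, List.length_flatMap]
  simp only [List.filter_replicate]
  by_cases ha : a = 0
  · subst ha
    have hb : b ≠ 0 := by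
      intro h; apply hab; rw [h]
    have e1 : ∀ m : ZMod p, (decide ((-m) * (0 : ZMod p) + 1 * b = 0)) = false := by
      intro m; simp [hb]
    have e2 : (decide ((1 : ZMod p) * 0 + 0 * b = 0)) = true := by simp
    simp only [e1, e2]
    have e3 : kk A P 0 b = kk A P 0 1 := by
      unfold kk
      congr 1
      ext Q
      simp [hb]
    rw [e3]
    simp
  · have e2 : (decide ((1 : ZMod p) * a + 0 * b = 0)) = false := by simp [ha]
    simp only [e2]
    have e3 : kk A P a b = kk A P 1 (b / a) := by
      unfold kk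
      congr 1
      ext Q
      simp only [mem_filter, mem_erase]
      refine and_congr_right (fun _ => ?_)
      constructor
      · intro h
        have : (Q.1 - P.1) * 1 + (Q.2 - P.2) * (b / a) =
          ((Q.1 - P.1) * a + (Q.2 - P.2) * b) / a := by field_simp
        rw [this, h, zero_div]
      · intro h
        have : (Q.1 - P.1) * a + (Q.2 - P.2) * b =
          a * ((Q.1 - P.1) * 1 + (Q.2 - P.2) * (b / a)) := by field_simp
        rw [this, h, mul_zero]
    rw [e3]
    have e4 : ∀ m : ZMod p, (decide ((-m) * a + 1 * b = 0)) = decide (m = b / a) := by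
      intro m
      rw [decide_eq_decide, eq_div_iff ha]
      constructor
      · intro h; linear_combination -h
      · intro h; linear_combination -h
    simp only [e4]
    rw [Finset.sum_map_toList]
    rw [Finset.sum_eq_single (b / a)]
    · simp
    · intro m _ hm
      simp [hm]
    · simp

/-- `X^p - X` as a product. -/
theorem prod_X_sub : (∏ m : ZMod p, (Polynomial.X - Polynomial.C m)) =
    (Polynomial.X ^ p - Polynomial.X : Polynomial (ZMod p)) := by
  have h1 := FiniteField.roots_X_pow_card_sub_X (ZMod p)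
  rw [ZMod.card] at h1
  have hm : (Polynomial.X ^ p - Polynomial.X : Polynomial (ZMod p)).Monic := by
    have : (Polynomial.X ^ p - Polynomial.X : Polynomial (ZMod p)).degree = p := by
      rw [Polynomial.degree_sub_eq_left_of_degree_lt]
      · simp
      · rw [Polynomial.degree_X_pow, Polynomial.degree_X]
        exact_mod_cast (Fact.out : p.Prime).one_lt
    apply Polynomial.monic_X_pow_sub
    rw [Polynomial.degree_X]
    exact_mod_cast (Fact.out : p.Prime).one_lt
  have h2 := Polynomial.prod_multiset_X_sub_C_of_monic_of_roots_card_eq hm (by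
    rw [h1, FiniteField.X_pow_card_sub_X_natDegree_eq _ (Fact.out : p.Prime).one_lt]
    simp [ZMod.card])
  rw [h1] at h2
  rw [← h2]
  rfl

/-- The normalising constant. -/
noncomputable def gam (A : Finset (Pt p)) (P : Pt p) : ZMod p :=
  (∏ Q ∈ A.erase P, (if Q.2 ≠ P.2 then Q.2 - P.2 else Q.1 - P.1))⁻¹

theorem gam_ne_zero (A : Finset (Pt p)) (P : Pt p) : gam A P ≠ 0 := by
  unfold gam
  apply inv_ne_zero
  rw [Finset.prod_ne_zero_iff]
  intro Q hQ
  rw [mem_erase] at hQ
  split_ifs with h
  · exact sub_ne_zero.mpr h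
  · intro h1
    apply hQ.1
    rw [not_not] at h
    exact Prod.ext (sub_eq_zero.mp h1) h

/-- The linear polynomial of a vector. -/
noncomputable def vl (v : Pt p) : Polynomial (ZMod p) :=
  Polynomial.C v.1 + Polynomial.C v.2 * Polynomial.X

theorem prod_flatMap' {α β : Type*} [CommMonoid β] (l : List α) (f : α → List β) :
    (l.flatMap f).prod = (l.map (fun a => (f a).prod)).prod := by
  induction l with
  | nil => simp
  | cons a l ih => simp [List.flatMap_cons, List.prod_append, ih]

theorem prod_exList (A : Finset (Pt p)) (P : Pt p) :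
    ((exList A P).map vl).prod =
      ∏ m : ZMod p, (Polynomial.X - Polynomial.C m) ^ (2 - kk A P 1 m) := by
  unfold exList
  rw [List.map_append, List.prod_append, List.map_flatMap, prod_flatMap']
  simp only [List.map_replicate, List.prod_replicate]
  have e1 : vl ((1, 0) : Pt p) = 1 := by simp [vl]
  rw [e1, one_pow, mul_one]
  rw [Finset.prod_map_toList]
  refine Finset.prod_congr rfl (fun m _ => ?_)
  congr 1
  simp [vl]; ring

theorem prod_erase (A : Finset (Pt p)) (P : Pt p) :
    Polynomial.C (gam A P) * ∏ Q ∈ A.erase P, vl (Q - P) =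
      ∏ m : ZMod p, (Polynomial.X - Polynomial.C m) ^ (kk A P 1 m) := by
  have h1 : ∏ Q ∈ A.erase P, vl (Q - P) =
      (∏ Q ∈ A.erase P, Polynomial.C (if Q.2 ≠ P.2 then Q.2 - P.2 else Q.1 - P.1)) *
        ∏ Q ∈ (A.erase P).filter (fun Q => Q.2 ≠ P.2), (Polynomial.X - Polynomial.C (slp P Q)) := by
    rw [Finset.prod_filter, ← Finset.prod_mul_distrib]
    refine Finset.prod_congr rfl (fun Q _ => ?_)
    by_cases h : Q.2 = P.2
    · simp [h, vl]
    · have h' : Q.2 - P.2 ≠ 0 := sub_ne_zero.mpr h
      rw [if_pos h, if_pos h]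
      have h2 : (Q.2 - P.2) * slp P Q = - (Q.1 - P.1) := by
        unfold slp; field_simp
      rw [mul_sub, ← Polynomial.C_mul, h2]
      simp only [vl, Prod.fst_sub, Prod.snd_sub, Polynomial.C_neg]
      ring
  rw [h1, ← map_prod, ← mul_assoc, ← Polynomial.C_mul]
  have h3 : gam A P * ∏ Q ∈ A.erase P, (if Q.2 ≠ P.2 then Q.2 - P.2 else Q.1 - P.1) = 1 := by
    have := gam_ne_zero A P
    unfold gam at this ⊢
    exact inv_mul_cancel₀ (fun h => this (by rw [h, inv_zero]))
  rw [h3, Polynomial.C_1, one_mul]
  rw [← Finset.prod_fiberwise (s := (A.erase P).filter (fun Q => Q.2 ≠ P.2)) (g := slp P)]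
  refine Finset.prod_congr rfl (fun m _ => ?_)
  rw [kk_eq_fib]
  rw [← Finset.prod_const]
  refine Finset.prod_congr rfl (fun Q hQ => ?_)
  rw [(mem_filter.mp hQ).2]

/-- The product formula. -/
theorem gform (A : Finset (Pt p)) (hA : NoFour A) (P : Pt p) (hP : P ∈ A) :
    Polynomial.C (gam A P) * ((exList A P).map vl).prod * ∏ Q ∈ A.erase P, vl (Q - P) =
      (Polynomial.X ^ p - Polynomial.X) ^ 2 := by
  have h1 := prod_exList A P
  have h2 := prod_erase A P
  calc _ = ((exList A P).map vl).prod *
        (Polynomial.C (gam A P) * ∏ Q ∈ A.erase P, vl (Q - P)) := by ring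
    _ = _ := by
      rw [h1, h2, ← Finset.prod_mul_distrib, ← prod_X_sub, ← Finset.prod_pow]
      refine Finset.prod_congr rfl (fun m _ => ?_)
      rw [← pow_add]
      congr 1
      have := kk_le A hA P hP 1 m (by simp)
      omega

end Pool.Agent.Lib.Arc3
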