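import Pool.Agent.Lib.MP_193dd3_co_ARC.Basic

/-!
Project ARC (MP_193dd3_co), modules HESS, WRMUL, FROB: an irreducible plane curve of degree less
than `p` with a smooth rational point whose Hessian-type polynomial `Wr K` is divisible by `K` is a
line; multiplicativity of `Wr` modulo `K`; the Frobenius polynomial is not divisible by `K`.
-/

namespace Pool.Agent.Lib.Arc3

open MvPolynomial

variable {p : ℕ}

theorem pd_mul (i : Fin 2) (f g : Poly p) :
    pderiv i (f * g) = f * pderiv i g + g * pderiv i f := by
  rw [Derivation.leibniz]; simp [smul_eq_mul]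

/-- Module WRMUL. -/
theorem wrmul (K M : Poly p) : K ∣ Wr (K * M) - M ^ 3 * Wr K := by
  rw [← Ideal.mem_span_singleton, ← Ideal.Quotient.eq_zero_iff_mem]
  have hK : Ideal.Quotient.mk (Ideal.span {K}) K = 0 := by
    rw [Ideal.Quotient.eq_zero_iff_mem]
    exact Ideal.mem_span_singleton_self K
  unfold Wr
  simp only [pd_mul, map_sub, map_add, map_mul, map_pow, hK, zero_mul, zero_add, map_ofNat]
  ring

/-- The derivation `K_y ∂_x - K_x ∂_y`. -/
noncomputable def DK (K : Poly p) : Derivation (ZMod p) (Poly p) (Poly p) :=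
  (pderiv 1 K) • pderiv 0 - (pderiv 0 K) • pderiv 1

theorem DK_apply (K f : Poly p) :
    DK K f = pderiv 1 K * pderiv 0 f - pderiv 0 K * pderiv 1 f := by
  simp [DK, smul_eq_mul]

theorem DK_mul (K f g : Poly p) : DK K (f * g) = f * DK K g + g * DK K f := by
  rw [Derivation.leibniz]; simp [smul_eq_mul]

theorem DK_self (K : Poly p) : DK K K = 0 := by
  rw [DK_apply]; ring

theorem DK_wr (K : Poly p) :
    pderiv 1 K * DK K (pderiv 0 K) - pderiv 0 K * DK K (pderiv 1 K) = Wr K := by
  rw [DK_apply, DK_apply, pderiv_comm 1 0 K]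
  unfold Wr
  ring

/-- All iterated `DK`-derivatives vanish at `P`. -/
def JJ (K : Poly p) (P : Pt p) (f : Poly p) : Prop := ∀ j : ℕ, ev P ((DK K)^[j] f) = 0

theorem it_add (K f g : Poly p) (j : ℕ) : (DK K)^[j] (f + g) = (DK K)^[j] f + (DK K)^[j] g :=
  iterate_map_add (DK K) j f g

theorem it_sub (K f g : Poly p) (j : ℕ) : (DK K)^[j] (f - g) = (DK K)^[j] f - (DK K)^[j] g :=
  iterate_map_sub (DK K) j f g

theorem it_succ (K f : Poly p) (j : ℕ) : (DK K)^[j + 1] f = (DK K)^[j] (DK K f) := rfl

theorem it_mul_zero (K : Poly p) (P : Pt p) (j : ℕ) (f g : Poly p)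
    (h : ∀ i ≤ j, ev P ((DK K)^[i] f) = 0) : ev P ((DK K)^[j] (f * g)) = 0 := by
  induction j generalizing f g with
  | zero =>
    have := h 0 le_rfl
    simp only [Function.iterate_zero, id_eq] at this ⊢
    rw [map_mul, this, zero_mul]
  | succ j ih =>
    rw [it_succ, DK_mul, it_add, map_add, ih f _ (fun i hi => h i (by omega)), mul_comm g,
      ih (DK K f) g (fun i hi => by rw [← it_succ]; exact h (i + 1) (by omega)), add_zero]

theorem it_mul_lead (K : Poly p) (P : Pt p) (j : ℕ) (f g : Poly p)
    (h : ∀ i < j, ev P ((DK K)^[i] f) = 0) :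
    ev P ((DK K)^[j] (g * f)) = ev P g * ev P ((DK K)^[j] f) := by
  induction j generalizing f g with
  | zero => simp
  | succ j ih =>
    rw [it_succ, DK_mul, it_add, map_add,
      ih (DK K f) g (fun i hi => by rw [← it_succ]; exact h (i + 1) (by omega)),
      it_mul_zero K P j f (DK K g) (fun i hi => h i (by omega)), add_zero, ← it_succ]

theorem JJ_mul {K : Poly p} {P : Pt p} {f : Poly p} (h : JJ K P f) (g : Poly p) :
    JJ K P (f * g) := fun j => it_mul_zero K P j f g (fun i _ => h i)

theorem JJ_sub {K : Poly p} {P : Pt p} {f g : Poly p} (h : JJ K P f) (h' : JJ K P g) :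
    JJ K P (f - g) := fun j => by rw [it_sub, map_sub, h j, h' j, sub_zero]

theorem JJ_self {K : Poly p} {P : Pt p} (h : ev P K = 0) : JJ K P K := by
  intro j
  cases j with
  | zero => exact h
  | succ j =>
    rw [it_succ, DK_self]
    have : (DK K)^[j] (0 : Poly p) = 0 := iterate_map_zero (DK K) j
    rw [this, map_zero]

theorem it_pow (K : Poly p) (P : Pt p) (m : ℕ) (u g : Poly p) (hu : ev P u = 0) :
    ev P ((DK K)^[m] (u ^ m * g)) = m.factorial * ev P (DK K u) ^ m * ev P g := by
  induction m generalizing g with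
  | zero => simp
  | succ m ih =>
    have e : DK K (u ^ (m + 1) * g) = u ^ m * ((m + 1 : ℕ) * DK K u * g + u * DK K g) := by
      rw [DK_mul, Derivation.leibniz_pow]
      simp only [Nat.add_sub_cancel, smul_eq_mul, nsmul_eq_mul]
      ring
    rw [it_succ, e, ih, map_add, map_mul, map_mul, map_mul, hu, zero_mul, add_zero, map_natCast,
      Nat.factorial_succ]
    push_cast
    ring

/-- Module HESS. -/
theorem hess [Fact p.Prime] (K : Poly p) (hK : Irreducible K) (hdeg : K.totalDegree < p)
    (P : Pt p) (hP : SmoothAt K P) (h : K ∣ Wr K) : K.totalDegree = 1 := by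
  obtain ⟨hP0, hP1⟩ := hP
  obtain ⟨kx, hkx⟩ : ∃ kx, kx = ev P (pderiv 0 K) := ⟨_, rfl⟩
  obtain ⟨ky, hky⟩ : ∃ ky, ky = ev P (pderiv 1 K) := ⟨_, rfl⟩
  rw [← hkx, ← hky] at hP1
  obtain ⟨a, b, hab⟩ : ∃ a b : ZMod p, a * ky - b * kx = 1 := by
    rcases hP1 with h1 | h1
    · exact ⟨0, -kx⁻¹, by field_simp; ring⟩
    · exact ⟨ky⁻¹, 0, by field_simp; ring⟩
  -- the tangent line
  set L : Poly p := lin kx ky (-(kx * P.1 + ky * P.2)) with hL
  set τ : Poly p := C kx * pderiv 1 K - C ky * pderiv 0 K with hτ
  set U : Poly p := C a * pderiv 1 K - C b * pderiv 0 K with hU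
  set u : Poly p := lin a b (-(a * P.1 + b * P.2)) with hu
  have hDlin : ∀ a b c : ZMod p, DK K (lin a b c) = C a * pderiv 1 K - C b * pderiv 0 K := by
    intro a b c
    have h0 : pderiv 0 (lin a b c) = C a := by simp [lin]
    have h1 : pderiv 1 (lin a b c) = C b := by simp [lin]
    rw [DK_apply, h0, h1]
    ring
  have hDC : ∀ a : ZMod p, DK K (C a) = 0 := by
    intro a
    rw [DK_apply, pderiv_C, pderiv_C]
    ring
  have hDL : DK K L = τ := hDlin _ _ _
  have hDu : DK K u = U := hDlin _ _ _
  have hevU : ev P U = 1 := by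
    rw [hU, map_sub, map_mul, map_mul, ev_C, ev_C, ← hkx, ← hky]
    exact hab
  have hevτ : ev P τ = 0 := by
    rw [hτ, map_sub, map_mul, map_mul, ev_C, ev_C, ← hkx, ← hky]
    ring
  have hevL : ev P L = 0 := by rw [hL, ev_lin]; ring
  have hevu : ev P u = 0 := by rw [hu, ev_lin]; ring
  -- the key relation
  have key : U * DK K τ = τ * DK K U - Wr K := by
    rw [← DK_wr K, hτ, hU]
    simp only [map_sub, DK_mul, hDC]
    have hC : (C a * C ky - C b * C kx : Poly p) = 1 := by
      rw [← C_mul, ← C_mul, ← C_sub, hab, C_1]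
    linear_combination (-(pderiv 1 K * DK K (pderiv 0 K)) + pderiv 0 K * DK K (pderiv 1 K)) * hC
  obtain ⟨W, hW⟩ := h
  have hJK : JJ K P K := JJ_self hP0
  have hJτ : JJ K P τ := by
    intro j
    induction j using Nat.strong_induction_on with
    | _ j ih =>
      cases j with
      | zero => exact hevτ
      | succ j =>
        have h1 := it_mul_lead K P j (DK K τ) U (fun i hi => by
          rw [← it_succ]; exact ih (i + 1) (by omega))
        rw [key, it_sub, map_sub, it_mul_zero K P j τ _ (fun i hi => ih i (by omega)), hW,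
          JJ_mul hJK W j, hevU, one_mul, sub_zero] at h1
        rw [it_succ]
        exact h1.symm
  have hJL : JJ K P L := by
    intro j
    cases j with
    | zero => exact hevL
    | succ j => rw [it_succ, hDL]; exact hJτ j
  -- reduction modulo the tangent line
  let φ : Poly p →ₐ[ZMod p] Polynomial (ZMod p) :=
    aeval ![Polynomial.C P.1 + Polynomial.C ky * Polynomial.X,
      Polynomial.C P.2 - Polynomial.C kx * Polynomial.X]
  let ψ : Polynomial (ZMod p) →ₐ[ZMod p] Poly p := Polynomial.aeval u
  have hψφ : ∀ f : Poly p, L ∣ f - ψ (φ f) := by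
    intro f
    rw [← Ideal.mem_span_singleton, ← Ideal.Quotient.eq_zero_iff_mem, map_sub, sub_eq_zero]
    have e : (Ideal.Quotient.mkₐ (ZMod p) (Ideal.span {L})) =
        (Ideal.Quotient.mkₐ (ZMod p) (Ideal.span {L})).comp (ψ.comp φ) := by
      refine MvPolynomial.algHom_ext fun i => ?_
      rw [AlgHom.comp_apply, AlgHom.comp_apply]
      rw [Ideal.Quotient.mkₐ_eq_mk, ← sub_eq_zero, ← map_sub, Ideal.Quotient.eq_zero_iff_mem,
        Ideal.mem_span_singleton]
      fin_cases i
      · refine ⟨-C b, ?_⟩
        simp only [φ, ψ, hu, hL, lin, aeval_X, Fin.zero_eta, Fin.isValue, Matrix.cons_val_zero,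
          map_add, map_mul, Polynomial.aeval_C, Polynomial.aeval_X, MvPolynomial.algebraMap_eq,
          map_neg]
        have hC : (C a * C ky - C b * C kx : Poly p) = 1 := by
          rw [← C_mul, ← C_mul, ← C_sub, hab, C_1]
        linear_combination (-(X 0 - C P.1) : Poly p) * hC
      · refine ⟨C a, ?_⟩
        simp only [φ, ψ, hu, hL, lin, aeval_X, Fin.mk_one, Fin.isValue, Matrix.cons_val_one,
          map_add, map_mul, map_sub, Polynomial.aeval_C, Polynomial.aeval_X,
          MvPolynomial.algebraMap_eq, map_neg, Matrix.cons_val_fin_one]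
        have hC : (C a * C ky - C b * C kx : Poly p) = 1 := by
          rw [← C_mul, ← C_mul, ← C_sub, hab, C_1]
        linear_combination (-(X 1 - C P.2) : Poly p) * hC
    have := congrArg (fun F => F f) e
    exact this
  have hr0 : φ K = 0 := by
    by_contra hne
    -- order of vanishing at 0
    obtain ⟨r, hr, hr'⟩ := Polynomial.exists_eq_pow_rootMultiplicity_mul_and_not_dvd (φ K) hne 0
    set m := (φ K).rootMultiplicity 0 with hm
    have hdegφ : (φ K).natDegree ≤ K.totalDegree := by
      have := MvPolynomial.aeval_natDegree_le K le_rfl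
        (![Polynomial.C P.1 + Polynomial.C ky * Polynomial.X,
          Polynomial.C P.2 - Polynomial.C kx * Polynomial.X] : Fin 2 → Polynomial (ZMod p))
        (n := 1) (by
          intro i
          fin_cases i
          · simp only [Fin.zero_eta, Fin.isValue, Matrix.cons_val_zero]
            compute_degree
          · simp only [Fin.mk_one, Fin.isValue, Matrix.cons_val_one, Matrix.cons_val_fin_one]
            compute_degree)
      rw [mul_one] at this
      exact this
    have hmp : m < p := by
      have h1 : m ≤ (φ K).natDegree := by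
        rw [hm]
        exact (Polynomial.rootMultiplicity_le_iff hne 0 _).mpr (fun hdvd => by
          have h2 := Polynomial.natDegree_le_of_dvd hdvd hne
          rw [map_zero, sub_zero, Polynomial.natDegree_X_pow] at h2
          omega)
      omega
    have hJr : JJ K P (ψ (φ K)) := by
      obtain ⟨q, hq⟩ := hψφ K
      have : ψ (φ K) = K - L * q := by rw [← hq]; ring
      rw [this]
      exact JJ_sub hJK (JJ_mul hJL q)
    have h1 := hJr m
    have h2 : ψ (φ K) = u ^ m * ψ r := by
      rw [hr, map_mul, map_pow]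
      simp only [ψ, map_zero, sub_zero, Polynomial.aeval_X]
    rw [h2, it_pow K P m u _ hevu, hDu, hevU, one_pow, mul_one] at h1
    have h3 : ev P (ψ r) = r.eval 0 := by
      have e : (ev P).comp (ψ : Polynomial (ZMod p) →+* Poly p) = Polynomial.evalRingHom 0 := by
        refine Polynomial.ringHom_ext (fun c => ?_) ?_
        · simp [ψ]
        · simp [ψ, hevu]
      exact congrArg (fun F => F r) e
    rw [h3] at h1
    rcases mul_eq_zero.mp h1 with h4 | h4
    · have h5 : (p : ℕ) ∣ m.factorial := (ZMod.natCast_eq_zero_iff _ _).mp h4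
      rw [(Fact.out : p.Prime).dvd_factorial] at h5
      omega
    · apply hr'
      rw [Polynomial.dvd_iff_isRoot]
      exact h4
  have hLK : L ∣ K := by
    have := hψφ K
    rw [hr0, map_zero, sub_zero] at this
    exact this
  obtain ⟨q, hq⟩ := hLK
  have hLne : L ≠ 0 := by
    intro h0
    rw [hq, h0, zero_mul] at hK
    exact not_irreducible_zero hK
  have hLu : ¬ IsUnit L := by
    intro hun
    have := hun.map (ev P)
    rw [hevL] at this
    exact not_isUnit_zero this
  have hqu : IsUnit q := (hK.isUnit_or_isUnit hq).resolve_left hLu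
  obtain ⟨c, hc, hqc⟩ := MvPolynomial.isUnit_iff_eq_C_of_isReduced.mp hqu
  have h1 : K.totalDegree ≤ 1 := by
    rw [hq, hqc]
    refine (totalDegree_mul _ _).trans ?_
    rw [totalDegree_C, add_zero]
    exact totalDegree_lin_le _ _ _
  have h2 : K.totalDegree ≠ 0 := by
    intro h0
    rw [totalDegree_eq_zero_iff_eq_C] at h0
    rw [h0] at hP0 hK
    rw [ev_C] at hP0
    rw [hP0, C_0] at hK
    exact not_irreducible_zero hK
  omega

/-- Module FROB. -/
theorem frob [Fact p.Prime] (K : Poly p) (hK : Irreducible K) (h2 : 2 ≤ K.totalDegree)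
    (hdeg : K.totalDegree < p) (P : Pt p) (hP : SmoothAt K P) :
    ¬ K ∣ (X 0 ^ p - X 0) * pderiv 0 K + (X 1 ^ p - X 1) * pderiv 1 K := by
  intro hG
  set u : Poly p := X 0 ^ p - X 0 with hu
  set w : Poly p := X 1 ^ p - X 1 with hw
  have hp0 : (p : Poly p) = 0 := by
    have : ((p : ℕ) : Poly p) = C ((p : ℕ) : ZMod p) := (map_natCast C p).symm
    rw [this, ZMod.natCast_self, C_0]
  have hDu : DK K u = -pderiv 1 K := by
    rw [hu, map_sub, Derivation.leibniz_pow, DK_apply, pderiv_X_self,
      pderiv_X_of_ne (by decide)]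
    simp only [nsmul_eq_mul, smul_eq_mul, hp0]
    ring
  have hDw : DK K w = pderiv 0 K := by
    rw [hw, map_sub, Derivation.leibniz_pow, DK_apply, pderiv_X_self,
      pderiv_X_of_ne (by decide)]
    simp only [nsmul_eq_mul, smul_eq_mul, hp0]
    ring
  have hDG : K ∣ u * DK K (pderiv 0 K) + w * DK K (pderiv 1 K) := by
    obtain ⟨q, hq⟩ := hG
    refine ⟨DK K q, ?_⟩
    have h1 := congrArg (DK K) hq
    rw [map_add, DK_mul, DK_mul, DK_mul, DK_self, hDu, hDw] at h1
    linear_combination h1
  have h3 : K ∣ u * Wr K := by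
    rw [← DK_wr K]
    have h4 := (hDG.mul_left (pderiv 1 K)).sub (hG.mul_left (DK K (pderiv 1 K)))
    have e : u * (pderiv 1 K * DK K (pderiv 0 K) - pderiv 0 K * DK K (pderiv 1 K)) =
        pderiv 1 K * (u * DK K (pderiv 0 K) + w * DK K (pderiv 1 K)) -
          DK K (pderiv 1 K) * (u * pderiv 0 K + w * pderiv 1 K) := by ring
    rw [e]
    exact h4
  have hprime : Prime K := hK.prime
  rcases hprime.dvd_or_dvd h3 with h4 | h4
  · -- `u` is a product of linear polynomials
    have e : u = ∏ a : ZMod p, (X 0 - C a) := by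
      have h5 := FiniteField.X_pow_card_sub_X_natDegree_eq (ZMod p) (Fact.out : p.Prime).one_lt
      have h6 : (Polynomial.X ^ p - Polynomial.X : Polynomial (ZMod p)) =
          ∏ a : ZMod p, (Polynomial.X - Polynomial.C a) := by
        have hp1 : 1 < p := (Fact.out : p.Prime).one_lt
        have hmonic : (Polynomial.X ^ p - Polynomial.X : Polynomial (ZMod p)).Monic := by
          apply Polynomial.monic_X_pow_sub
          rw [Polynomial.degree_X]
          exact_mod_cast hp1
        have hroots : (Polynomial.X ^ p - Polynomial.X : Polynomial (ZMod p)).roots =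
            Finset.univ.val := by
          have := FiniteField.roots_X_pow_card_sub_X (ZMod p)
          rwa [ZMod.card] at this
        have h8 := Polynomial.prod_multiset_X_sub_C_of_monic_of_roots_card_eq hmonic (by
          rw [hroots, h5]
          exact ZMod.card p)
        rw [hroots] at h8
        exact h8.symm
      have h7 := congrArg (Polynomial.aeval (X 0 : Poly p)) h6
      simp only [map_sub, map_pow, Polynomial.aeval_X, map_prod, Polynomial.aeval_C,
        MvPolynomial.algebraMap_eq] at h7
      exact h7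
    rw [e] at h4
    obtain ⟨a, _, ha⟩ := (Prime.dvd_finsetProd_iff hprime _).mp h4
    have hne : (X 0 - C a : Poly p) ≠ 0 := by
      intro h0
      have := congrArg (ev (a + 1, 0)) h0
      simp at this
    obtain ⟨q, hq⟩ := ha
    have hd : (X 0 - C a : Poly p).totalDegree ≤ 1 := by
      have : (X 0 - C a : Poly p) = lin 1 0 (-a) := by
        simp [lin, sub_eq_add_neg]
      rw [this]
      exact totalDegree_lin_le _ _ _
    have hKq : K ≠ 0 ∧ q ≠ 0 := by
      refine ⟨hK.ne_zero, ?_⟩
      intro h0
      rw [h0, mul_zero] at hq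
      exact hne hq
    rw [hq, totalDegree_mul_of_isDomain hKq.1 hKq.2] at hd
    omega
  · have := hess K hK hdeg P hP h4
    omega

end Pool.Agent.Lib.Arc3
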