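import Pool.Agent.Lib.MP_193dd3_co_ARC.Segre

/-!
Project ARC (MP_193dd3_co): the identity.
-/

namespace Pool.Agent.Lib.Arc3

open Finset MvPolynomial

variable {p : ℕ} [Fact p.Prime]

omit [Fact p.Prime] in
theorem iterD_eq_zero_of_lt (l : List (Pt p)) (f : Poly p) (h : f.totalDegree < l.length) :
    iterD l f = 0 := by
  induction l generalizing f with
  | nil => simp at h
  | cons v l ih =>
    rw [iterD_cons]
    by_cases h0 : f.totalDegree = 0
    · rw [totalDegree_eq_zero_iff_eq_C] at h0
      rw [h0, dd_C, iterD_zero]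
    · apply ih
      have := totalDegree_dd_le v f
      simp only [List.length_cons] at h
      omega

theorem dd_mono (v : Pt p) (i j : ℕ) :
    dd v (X 0 ^ i * X 1 ^ j) = C (v.1 * i) * (X 0 ^ (i - 1) * X 1 ^ j) +
      C (v.2 * j) * (X 0 ^ i * X 1 ^ (j - 1)) := by
  rw [dd_apply]
  have h0 : pderiv 0 (X 0 ^ i * X 1 ^ j : Poly p) = (i : Poly p) * X 0 ^ (i - 1) * X 1 ^ j := by
    rw [pderiv_mul, pderiv_pow, pderiv_pow, pderiv_X_self, pderiv_X_of_ne (by decide)]
    ring
  have h1 : pderiv 1 (X 0 ^ i * X 1 ^ j : Poly p) = (j : Poly p) * X 0 ^ i * X 1 ^ (j - 1) := by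
    rw [pderiv_mul, pderiv_pow, pderiv_pow, pderiv_X_self, pderiv_X_of_ne (by decide)]
    ring
  rw [h0, h1, C_mul, C_mul]
  simp only [map_natCast]
  ring

theorem coeff_vl_mul_zero (v : Pt p) (g : Polynomial (ZMod p)) :
    (vl v * g).coeff 0 = v.1 * g.coeff 0 := by
  unfold vl
  rw [add_mul, Polynomial.coeff_add, Polynomial.coeff_C_mul, mul_assoc, Polynomial.coeff_C_mul,
    Polynomial.coeff_X_mul_zero]
  ring

theorem coeff_vl_mul_succ (v : Pt p) (g : Polynomial (ZMod p)) (j : ℕ) :
    (vl v * g).coeff (j + 1) = v.1 * g.coeff (j + 1) + v.2 * g.coeff j := by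
  unfold vl
  rw [add_mul, Polynomial.coeff_add, Polynomial.coeff_C_mul, mul_assoc, Polynomial.coeff_C_mul,
    Polynomial.coeff_X_mul]

/-- The coefficients of `(P1 + P2 X)^(i+j)`. -/
theorem coeff_vl_pow (P : Pt p) (i j : ℕ) :
    ((i.factorial * j.factorial : ℕ) : ZMod p) * ((vl P) ^ (i + j)).coeff j =
      (((i + j).factorial : ℕ) : ZMod p) * (P.1 ^ i * P.2 ^ j) := by
  have h1 : ((vl P) ^ (i + j)).coeff j = ((i + j).choose j : ZMod p) * (P.1 ^ i * P.2 ^ j) := by
    unfold vl
    rw [add_pow, Polynomial.finsetSum_coeff]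
    rw [Finset.sum_eq_single i]
    · rw [Nat.add_sub_cancel_left, mul_pow, ← Polynomial.C_pow, ← Polynomial.C_pow]
      have : Polynomial.C (P.1 ^ i) * (Polynomial.C (P.2 ^ j) * Polynomial.X ^ j) *
          (((i + j).choose i : ℕ) : Polynomial (ZMod p)) =
          Polynomial.C (P.1 ^ i * P.2 ^ j * ((i + j).choose i : ZMod p)) * Polynomial.X ^ j := by
        simp only [Polynomial.C_mul, map_natCast]
        ring
      rw [this, Polynomial.coeff_C_mul_X_pow, if_pos rfl]
      rw [← Nat.choose_symm_add]
      ring
    · intro m hm hne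
      rw [Finset.mem_range] at hm
      have : Polynomial.C P.1 ^ m * (Polynomial.C P.2 * Polynomial.X) ^ (i + j - m) *
          (((i + j).choose m : ℕ) : Polynomial (ZMod p)) =
          Polynomial.C (P.1 ^ m * P.2 ^ (i + j - m) * ((i + j).choose m : ZMod p)) *
            Polynomial.X ^ (i + j - m) := by
        rw [mul_pow]
        simp only [Polynomial.C_mul, map_natCast, Polynomial.C_pow]
        ring
      rw [this, Polynomial.coeff_C_mul_X_pow, if_neg (by omega)]
    · intro h
      rw [Finset.mem_range] at h
      omega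
  rw [h1, ← mul_assoc, ← Nat.cast_mul]
  congr 2
  have := Nat.add_choose_mul_factorial_mul_factorial i j
  rw [← this]
  ring

theorem prod_vl_pow_natDegree (l : List (Pt p)) (P : Pt p) (k : ℕ) :
    ((l.map vl).prod * (vl P) ^ k).natDegree ≤ l.length + k := by
  refine Polynomial.natDegree_mul_le.trans (add_le_add ?_ (natDegree_vl_pow P k))
  refine (Polynomial.natDegree_list_prod_le _).trans ?_
  induction l with
  | nil => simp
  | cons v l ih =>
    simp only [List.map_cons, List.sum_cons, List.length_cons]
    have := natDegree_vl v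
    omega

/-- Iterated derivatives of monomials. -/
theorem ev_iterD_mono (l : List (Pt p)) (P : Pt p) (k i j : ℕ) (h : i + j = k + l.length) :
    ((k.factorial : ℕ) : ZMod p) * ev P (iterD l (X 0 ^ i * X 1 ^ j)) =
      ((i.factorial * j.factorial : ℕ) : ZMod p) * ((l.map vl).prod * (vl P) ^ k).coeff j := by
  induction l generalizing i j with
  | nil =>
    simp only [List.length_nil, add_zero] at h
    subst h
    rw [iterD_nil, List.map_nil, List.prod_nil, one_mul, coeff_vl_pow]
    simp
  | cons v l ih =>
    simp only [List.length_cons] at h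
    rw [iterD_cons, dd_mono, iterD_add, iterD_C_mul, iterD_C_mul, map_add, map_mul (ev P),
      map_mul (ev P), ev_C, ev_C, List.map_cons, List.prod_cons, mul_assoc (vl v)]
    set g := (l.map vl).prod * (vl P) ^ k with hg
    have e1 : ((k.factorial : ℕ) : ZMod p) * (v.1 * i * ev P (iterD l (X 0 ^ (i - 1) * X 1 ^ j))) =
        ((i.factorial * j.factorial : ℕ) : ZMod p) * (v.1 * g.coeff j) := by
      rcases Nat.eq_zero_or_pos i with hi | hi
      · subst hi
        have : g.coeff j = 0 := by
          apply Polynomial.coeff_eq_zero_of_natDegree_lt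
          have := prod_vl_pow_natDegree l P k
          rw [← hg] at this
          omega
        rw [this]; simp
      · obtain ⟨i, rfl⟩ : ∃ i', i = i' + 1 := ⟨i - 1, by omega⟩
        have := ih i j (by omega)
        rw [Nat.add_sub_cancel, Nat.factorial_succ]
        push_cast at this ⊢
        linear_combination (v.1 * (i + 1)) * this
    have e2 : ((k.factorial : ℕ) : ZMod p) * (v.2 * j * ev P (iterD l (X 0 ^ i * X 1 ^ (j - 1)))) +
        ((i.factorial * j.factorial : ℕ) : ZMod p) * (v.1 * g.coeff j) =
        ((i.factorial * j.factorial : ℕ) : ZMod p) * (vl v * g).coeff j := by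
      rcases Nat.eq_zero_or_pos j with hj | hj
      · subst hj
        rw [coeff_vl_mul_zero]; simp
      · obtain ⟨j, rfl⟩ : ∃ j', j = j' + 1 := ⟨j - 1, by omega⟩
        have := ih i j (by omega)
        rw [Nat.add_sub_cancel, coeff_vl_mul_succ, Nat.factorial_succ]
        push_cast at this ⊢
        linear_combination (v.2 * (j + 1)) * this
    rw [← e2, mul_add, e1]
    ring

/-- The identity. -/
theorem main_identity (A : Finset (Pt p)) (hA : NoFour A) (t : ℕ)
    (hcard : A.card + t = 2 * p + 3) (_ht : t < p) : HasIdent A t := by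
  classical
  refine ⟨gam A, exList A, fun P _ => gam_ne_zero A P,
    fun P hP => exList_length A hA P hP t hcard, fun P _ => exList_ne_zero A P, ?_, ?_⟩
  · intro P _ a b hab
    rw [exList_mult A P a b hab]
    omega
  · -- monomials
    have hmono : ∀ i j : ℕ, i + j + 1 ≤ p + t →
        ∑ P ∈ A, gam A P * ev P (iterD (exList A P) (X 0 ^ i * X 1 ^ j)) = 0 := by
      intro i j hij
      by_cases hlt : i + j < t
      · refine Finset.sum_eq_zero (fun P hP => ?_)
        rw [iterD_eq_zero_of_lt, map_zero, mul_zero]
        rw [exList_length A hA P hP t hcard]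
        refine lt_of_le_of_lt ?_ hlt
        refine (totalDegree_mul _ _).trans (add_le_add ?_ ?_)
        · exact (totalDegree_X_pow _ _).le
        · exact (totalDegree_X_pow _ _).le
      · push Not at hlt
        obtain ⟨k, hk⟩ : ∃ k, i + j = k + t := ⟨i + j - t, by omega⟩
        have hkp : k < p := by omega
        have hfac : ((k.factorial : ℕ) : ZMod p) ≠ 0 := by
          rw [Ne, ZMod.natCast_eq_zero_iff]
          rw [(Fact.out : p.Prime).dvd_factorial]
          omega
        apply (mul_eq_zero.mp ?_).resolve_left hfac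
        rw [Finset.mul_sum]
        have e1 : ∀ P ∈ A, ((k.factorial : ℕ) : ZMod p) *
            (gam A P * ev P (iterD (exList A P) (X 0 ^ i * X 1 ^ j))) =
            ((i.factorial * j.factorial : ℕ) : ZMod p) *
              (Polynomial.C (gam A P) * ((exList A P).map vl).prod * (vl P) ^ k).coeff j := by
          intro P hP
          have h1 := ev_iterD_mono (exList A P) P k i j (by
            rw [exList_length A hA P hP t hcard]; exact hk)
          rw [mul_assoc, Polynomial.coeff_C_mul]
          linear_combination (gam A P) * h1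
        rw [Finset.sum_congr rfl e1, ← Finset.mul_sum, ← Polynomial.finsetSum_coeff]
        change _ * (SS A k).coeff j = 0
        by_cases hi : i < p
        · by_cases hj : j < p
          · rw [SS_coeff A hA t hcard k j hj (by omega), mul_zero]
          · have : ((i.factorial * j.factorial : ℕ) : ZMod p) = 0 := by
              rw [ZMod.natCast_eq_zero_iff]
              apply Dvd.dvd.mul_left
              rw [(Fact.out : p.Prime).dvd_factorial]
              omega
            rw [this, zero_mul]
        · have : ((i.factorial * j.factorial : ℕ) : ZMod p) = 0 := by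
            rw [ZMod.natCast_eq_zero_iff]
            apply Dvd.dvd.mul_right
            rw [(Fact.out : p.Prime).dvd_factorial]
            omega
          rw [this, zero_mul]
    intro Ψ hΨ
    have e2 : ∀ P ∈ A, gam A P * ev P (iterD (exList A P) Ψ) =
        ∑ s ∈ Ψ.support, Ψ.coeff s *
          (gam A P * ev P (iterD (exList A P) (X 0 ^ (s 0) * X 1 ^ (s 1)))) := by
      intro P _
      have e3 : Ψ = ∑ s ∈ Ψ.support, C (Ψ.coeff s) * (X 0 ^ (s 0) * X 1 ^ (s 1)) := by
        conv_lhs => rw [Ψ.as_sum]
        refine Finset.sum_congr rfl (fun s _ => ?_)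
        rw [monomial_eq, Finsupp.prod_fintype _ _ (by simp)]
        simp [Fin.prod_univ_two]
      conv_lhs => rw [e3]
      rw [iterD_sum, map_sum, Finset.mul_sum]
      refine Finset.sum_congr rfl (fun s _ => ?_)
      rw [iterD_C_mul, map_mul, ev_C]
      ring
    rw [Finset.sum_congr rfl e2, Finset.sum_comm]
    refine Finset.sum_eq_zero (fun s hs => ?_)
    rw [← Finset.mul_sum, hmono, mul_zero]
    have h1 : s.sum (fun _ e => e) ≤ Ψ.totalDegree := le_totalDegree hs
    have h2 : s.sum (fun _ e => e) = s 0 + s 1 := by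
      rw [Finsupp.sum_fintype _ _ (by simp)]
      simp [Fin.sum_univ_two]
    omega

end Pool.Agent.Lib.Arc3
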