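import Pool.Agent.Lib.MP_193dd3_co_ARC.Bez
import Pool.Agent.Lib.MP_193dd3_co_ARC.Hess

/-!
Project ARC (MP_193dd3_co), modules SING and POINTS: singular points of a squarefree polynomial,
rational points of an irreducible curve.
-/

namespace Pool.Agent.Lib.Arc3

open MvPolynomial

variable {p : ℕ}

namespace PointsAux

/-- A polynomial of degree less than `p` with zero gradient is constant. -/
theorem const_of_pderiv [Fact p.Prime] (f : Poly p) (hdeg : f.totalDegree < p)
    (h0 : pderiv 0 f = 0) (h1 : pderiv 1 f = 0) : f.totalDegree = 0 := by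
  rw [totalDegree_eq_zero_iff]
  intro m hm x
  by_contra hx
  have hmi : ∀ i : Fin 2, m i < p := by
    intro i
    have h2 : m i ≤ (m.sum fun _ e => e) := by
      by_cases hi : m i = 0
      · rw [hi]; exact Nat.zero_le _
      · exact Finset.single_le_sum (f := fun i => m i) (fun _ _ => Nat.zero_le _)
          (Finsupp.mem_support_iff.mpr hi)
    exact (h2.trans (le_totalDegree hm)).trans_lt hdeg
  have hpd : pderiv x f = 0 := by
    fin_cases x
    · exact h0
    · exact h1
  have hc := coeff_pderiv f (i := x) (m - Finsupp.single x 1)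
  rw [hpd, coeff_zero] at hc
  have hle : Finsupp.single x 1 ≤ m := by
    rw [Finsupp.single_le_iff]; omega
  rw [tsub_add_cancel_of_le hle] at hc
  have h3 : (((m - Finsupp.single x 1 : Fin 2 →₀ ℕ) x : ℕ) : ZMod p) + 1 = (m x : ZMod p) := by
    rw [Finsupp.tsub_apply, Finsupp.single_eq_same]
    have : m x = (m x - 1) + 1 := by omega
    conv_rhs => rw [this]
    push_cast
    ring
  rw [h3] at hc
  have h4 : (m x : ZMod p) ≠ 0 := by
    intro h5
    rw [ZMod.natCast_eq_zero_iff] at h5
    exact absurd (Nat.le_of_dvd (by omega) h5) (by have := hmi x; omega)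
  rcases mul_eq_zero.mp hc.symm with h5 | h5
  · exact (mem_support_iff.mp hm) h5
  · exact h4 h5

theorem irr_pos [Fact p.Prime] {K : Poly p} (hK : Irreducible K) : 0 < K.totalDegree := by
  by_contra h
  have h4 : K.totalDegree = 0 := by omega
  rw [totalDegree_eq_zero_iff_eq_C] at h4
  apply hK.not_isUnit
  rw [h4]
  apply IsUnit.map
  rw [isUnit_iff_ne_zero]
  intro h5
  apply hK.ne_zero
  rw [h4, h5, map_zero]

theorem relPrime_of_lt [Fact p.Prime] {K f : Poly p} (hK : Irreducible K) (hf : f ≠ 0)
    (hd : f.totalDegree < K.totalDegree) : IsRelPrime K f := by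
  rw [hK.isRelPrime_iff_not_dvd]
  rintro ⟨g, hg⟩
  have hg0 : g ≠ 0 := by rintro rfl; apply hf; rw [hg, mul_zero]
  have := totalDegree_mul_of_isDomain hK.ne_zero hg0
  rw [← hg] at this
  omega

/-- Singular points of an irreducible curve. -/
theorem sing_irr [Fact p.Prime] (K : Poly p) (hK : Irreducible K) (hdeg : K.totalDegree < p)
    (S : Finset (Pt p)) (h : ∀ Q ∈ S, ev Q K = 0)
    (h0 : ∀ Q ∈ S, ev Q (pderiv 0 K) = 0) (h1 : ∀ Q ∈ S, ev Q (pderiv 1 K) = 0) :
    S.card ≤ K.totalDegree ^ 2 := by
  have hpos := irr_pos hK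
  have key : ∀ i : Fin 2, pderiv i K ≠ 0 → (∀ Q ∈ S, ev Q (pderiv i K) = 0) →
      S.card ≤ K.totalDegree ^ 2 := by
    intro i hi hv
    have hd := totalDegree_pderiv_le i K
    have := bezout_points K (pderiv i K) hK.ne_zero hi (relPrime_of_lt hK hi (by omega)) S h hv
    refine this.trans ?_
    rw [sq]
    exact Nat.mul_le_mul_left _ (by omega)
  by_cases hx : pderiv 0 K = 0
  · by_cases hy : pderiv 1 K = 0
    · have := const_of_pderiv K hdeg hx hy
      omega
    · exact key 1 hy h1
  · exact key 0 hx h0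

end PointsAux

open PointsAux

/-- Module SING: the singular rational points of a squarefree polynomial. -/
theorem card_sing [Fact p.Prime] (M : Poly p) (hM : M ≠ 0) (hsq : Squarefree M)
    (hdeg : M.totalDegree < p) (S : Finset (Pt p)) (h : ∀ Q ∈ S, ev Q M = 0)
    (h0 : ∀ Q ∈ S, ev Q (pderiv 0 M) = 0) (h1 : ∀ Q ∈ S, ev Q (pderiv 1 M) = 0) :
    S.card ≤ M.totalDegree ^ 2 := by
  classical
  suffices H : ∀ n : ℕ, ∀ M : Poly p, M.totalDegree = n → M ≠ 0 → Squarefree M →
      M.totalDegree < p → ∀ S : Finset (Pt p), (∀ Q ∈ S, ev Q M = 0) →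
      (∀ Q ∈ S, ev Q (pderiv 0 M) = 0) → (∀ Q ∈ S, ev Q (pderiv 1 M) = 0) →
      S.card ≤ M.totalDegree ^ 2 from H _ M rfl hM hsq hdeg S h h0 h1
  clear hM hsq hdeg h h0 h1 M S
  intro n
  induction n using Nat.strong_induction_on with
  | _ n ih =>
    intro M hn hM hsq hdeg S h h0 h1
    by_cases hu : IsUnit M
    · have hS : S = ∅ := by
        rw [Finset.eq_empty_iff_forall_notMem]
        intro Q hQ
        have := hu.map (ev Q)
        rw [h Q hQ] at this
        exact not_isUnit_zero this
      rw [hS, Finset.card_empty]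
      exact Nat.zero_le _
    obtain ⟨K, hK, M', rfl⟩ := WfDvdMonoid.exists_irreducible_factor hu hM
    have hM' : M' ≠ 0 := by rintro rfl; exact hM (mul_zero K)
    have hdm := totalDegree_mul_of_isDomain hK.ne_zero hM'
    have hpos := irr_pos hK
    have hcop : IsRelPrime K M' := by
      rw [hK.isRelPrime_iff_not_dvd]
      rintro ⟨N, rfl⟩
      exact hK.not_isUnit (hsq K ⟨N, by ring⟩)
    have hd0 : ∀ (i : Fin 2) (Q : Pt p), ev Q (pderiv i (K * M')) =
        ev Q K * ev Q (pderiv i M') + ev Q M' * ev Q (pderiv i K) := by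
      intro i Q
      rw [Derivation.leibniz]
      simp [smul_eq_mul]
    -- the three parts
    set S1 := S.filter (fun Q => ev Q K ≠ 0) with hS1
    set S2 := S.filter (fun Q => ev Q K = 0 ∧ ev Q M' = 0) with hS2
    set S3 := S.filter (fun Q => ev Q K = 0 ∧ ev Q M' ≠ 0) with hS3
    have hcov : S ⊆ S1 ∪ (S2 ∪ S3) := by
      intro Q hQ
      simp only [hS1, hS2, hS3, Finset.mem_union, Finset.mem_filter]
      tauto
    have c1 : S1.card ≤ M'.totalDegree ^ 2 := by
      refine ih M'.totalDegree (by omega) M' rfl hM' (hsq.of_mul_right) (by omega) S1 ?_ ?_ ?_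
      · intro Q hQ
        rw [hS1, Finset.mem_filter] at hQ
        have := h Q hQ.1
        rw [map_mul] at this
        exact (mul_eq_zero.mp this).resolve_left hQ.2
      · intro Q hQ
        rw [hS1, Finset.mem_filter] at hQ
        have h2 := h Q hQ.1
        rw [map_mul] at h2
        have h3 := (mul_eq_zero.mp h2).resolve_left hQ.2
        have h4 := h0 Q hQ.1
        rw [hd0, h3, zero_mul, add_zero] at h4
        exact (mul_eq_zero.mp h4).resolve_left hQ.2
      · intro Q hQ
        rw [hS1, Finset.mem_filter] at hQ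
        have h2 := h Q hQ.1
        rw [map_mul] at h2
        have h3 := (mul_eq_zero.mp h2).resolve_left hQ.2
        have h4 := h1 Q hQ.1
        rw [hd0, h3, zero_mul, add_zero] at h4
        exact (mul_eq_zero.mp h4).resolve_left hQ.2
    have c2 : S2.card ≤ K.totalDegree * M'.totalDegree := by
      refine bezout_points K M' hK.ne_zero hM' hcop S2 ?_ ?_
      · intro Q hQ
        rw [hS2, Finset.mem_filter] at hQ
        exact hQ.2.1
      · intro Q hQ
        rw [hS2, Finset.mem_filter] at hQ
        exact hQ.2.2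
    have c3 : S3.card ≤ K.totalDegree ^ 2 := by
      refine sing_irr K hK (by omega) S3 ?_ ?_ ?_
      · intro Q hQ
        rw [hS3, Finset.mem_filter] at hQ
        exact hQ.2.1
      · intro Q hQ
        rw [hS3, Finset.mem_filter] at hQ
        have h4 := h0 Q hQ.1
        rw [hd0, hQ.2.1, zero_mul, zero_add] at h4
        exact (mul_eq_zero.mp h4).resolve_left hQ.2.2
      · intro Q hQ
        rw [hS3, Finset.mem_filter] at hQ
        have h4 := h1 Q hQ.1
        rw [hd0, hQ.2.1, zero_mul, zero_add] at h4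
        exact (mul_eq_zero.mp h4).resolve_left hQ.2.2
    have c4 := Finset.card_le_card hcov
    have c5 := Finset.card_union_le S1 (S2 ∪ S3)
    have c6 := Finset.card_union_le S2 S3
    rw [hdm]
    nlinarith

/-- Module POINTS: rational points of an irreducible curve. -/
theorem card_points [Fact p.Prime] (K : Poly p) (hK : Irreducible K) (h2 : 2 ≤ K.totalDegree)
    (hdeg : K.totalDegree < p) (S : Finset (Pt p)) (h : Van S K) :
    2 * S.card ≤ K.totalDegree * (p + K.totalDegree) + 2 * K.totalDegree ^ 2 := by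
  classical
  set S1 := S.filter (fun Q => SmoothAt K Q) with hS1
  set S2 := S.filter (fun Q => ¬ SmoothAt K Q) with hS2
  have hcc : S1.card + S2.card = S.card := Finset.card_filter_add_card_filter_not _
  have c2 : S2.card ≤ K.totalDegree ^ 2 := by
    have hns : ∀ Q ∈ S2, ev Q K = 0 ∧ ev Q (pderiv 0 K) = 0 ∧ ev Q (pderiv 1 K) = 0 := by
      intro Q hQ
      rw [hS2, Finset.mem_filter] at hQ
      have h3 := h Q hQ.1
      have h4 := hQ.2
      unfold SmoothAt at h4
      rw [not_and_or, not_or, not_not, not_not] at h4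
      exact ⟨h3, h4.resolve_left (fun h5 => h5 h3)⟩
    exact sing_irr K hK hdeg S2 (fun Q hQ => (hns Q hQ).1) (fun Q hQ => (hns Q hQ).2.1)
      (fun Q hQ => (hns Q hQ).2.2)
  have c1 : 2 * S1.card ≤ K.totalDegree * (p + K.totalDegree) := by
    rcases S1.eq_empty_or_nonempty with he | ⟨P, hP⟩
    · rw [he]; simp
    have hPs : SmoothAt K P := (Finset.mem_filter.mp hP).2
    have hp : p.Prime := Fact.out
    have hfr := frob K hK h2 hdeg P hPs
    set G : Poly p := (X 0 ^ p - X 0) * pderiv 0 K + (X 1 ^ p - X 1) * pderiv 1 K with hG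
    have hG0 : G ≠ 0 := by
      intro h3
      apply hfr
      rw [h3]
      exact dvd_zero K
    have hcop : IsRelPrime K G := hK.isRelPrime_iff_not_dvd.mpr hfr
    have hu0 : ∀ Q : Pt p, ev Q (X 0 ^ p - X 0) = 0 := by
      intro Q
      rw [map_sub, map_pow, ev_X0, ZMod.pow_card, sub_self]
    have hu1 : ∀ Q : Pt p, ev Q (X 1 ^ p - X 1) = 0 := by
      intro Q
      rw [map_sub, map_pow, ev_X1, ZMod.pow_card, sub_self]
    have hcp : ((p : ℕ) : Poly p) = 0 := CharP.cast_eq_zero _ p
    have hdu : ∀ i j : Fin 2, pderiv i (X j ^ p - X j : Poly p) = if i = j then -1 else 0 := by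
      intro i j
      rw [map_sub, Derivation.leibniz_pow, pderiv_X]
      simp only [nsmul_eq_mul, hcp, zero_mul, zero_sub]
      by_cases hij : i = j
      · subst hij; simp
      · rw [if_neg hij, Pi.single_apply, if_neg (fun h' => hij h'.symm), neg_zero]
    have hGd : ∀ (i : Fin 2) (Q : Pt p), ev Q (pderiv i G) = - ev Q (pderiv i K) := by
      intro i Q
      rw [hG, map_add, Derivation.leibniz, Derivation.leibniz, hdu, hdu]
      simp only [smul_eq_mul, map_add, map_mul, hu0, hu1, zero_mul, zero_add]
      fin_cases i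
      · simp
      · simp
    have hdG : G.totalDegree ≤ p + K.totalDegree := by
      have hx : ∀ i : Fin 2, (X i ^ p - X i : Poly p).totalDegree ≤ p := by
        intro i
        refine (totalDegree_sub _ _).trans (max_le ?_ ?_)
        · rw [totalDegree_X_pow]
        · rw [totalDegree_X]; exact hp.one_lt.le
      rw [hG]
      refine (totalDegree_add _ _).trans (max_le ?_ ?_)
      · refine (totalDegree_mul _ _).trans ?_
        have := totalDegree_pderiv_le 0 K
        have := hx 0
        omega
      · refine (totalDegree_mul _ _).trans ?_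
        have := totalDegree_pderiv_le 1 K
        have := hx 1
        omega
    have hb := bezout_double K G hK.ne_zero hG0 hcop S1
      (fun Q hQ => (Finset.mem_filter.mp hQ).2) (fun Q _ => by
        rw [hG, map_add, map_mul, map_mul, hu0, hu1]; ring) (fun Q _ => by
        rw [hGd, hGd]; ring)
    exact hb.trans (Nat.mul_le_mul_left _ hdG)
  omega

end Pool.Agent.Lib.Arc3
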