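import Pool.Agent.Lib.MP_193dd3_co_ARC.GForm

/-!
Project ARC (MP_193dd3_co): the polynomials `S_k` and their vanishing coefficients.
-/

namespace Pool.Agent.Lib.Arc3

open Finset

variable {p : ℕ} [Fact p.Prime]

omit [Fact p.Prime] in
/-- In a fibre with three distinct points, these are all the points. -/
theorem fib_three (A : Finset (Pt p)) (f : Pt p → ZMod p)
    (h3 : ∀ c, (A.filter (fun Q => f Q = c)).card ≤ 3) {P Q T : Pt p} (hP : P ∈ A) (hQ : Q ∈ A)
    (hT : T ∈ A) (hPQ : P ≠ Q) (hPT : P ≠ T) (hQT : Q ≠ T) (hfQ : f Q = f P) (hfT : f T = f P) :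
    A.filter (fun R => f R = f P) = {P, Q, T} := by
  symm
  apply Finset.eq_of_subset_of_card_le
  · intro R hR
    simp only [mem_insert, mem_singleton] at hR
    rw [mem_filter]
    rcases hR with rfl | rfl | rfl
    · exact ⟨hP, rfl⟩
    · exact ⟨hQ, hfQ⟩
    · exact ⟨hT, hfT⟩
  · rw [Finset.card_eq_three.mpr ⟨P, Q, T, hPQ, hPT, hQT, rfl⟩]
    exact h3 _

theorem erase_three (A : Finset (Pt p)) (f : Pt p → ZMod p)
    (h3 : ∀ c, (A.filter (fun Q => f Q = c)).card ≤ 3) {P Q T : Pt p} (hP : P ∈ A) (hQ : Q ∈ A)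
    (hT : T ∈ A) (hPQ : P ≠ Q) (hPT : P ≠ T) (hQT : Q ≠ T) (hfQ : f Q = f P) (hfT : f T = f P)
    (F : Pt p → Polynomial (ZMod p)) :
    ∏ R ∈ A.erase P, F R = F Q * (F T * ∏ R ∈ A.filter (fun R => f R ≠ f P), F R) := by
  have h := fib_three A f h3 hP hQ hT hPQ hPT hQT hfQ hfT
  have e : A.erase P = insert Q (insert T (A.filter (fun R => f R ≠ f P))) := by
    ext R
    simp only [mem_erase, mem_insert, mem_filter]
    constructor
    · rintro ⟨h1, h2⟩
      by_cases hf : f R = f P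
      · have : R ∈ A.filter (fun R => f R = f P) := mem_filter.mpr ⟨h2, hf⟩
        rw [h] at this
        simp only [mem_insert, mem_singleton] at this
        rcases this with h' | h' | h'
        · exact absurd h' h1
        · exact Or.inl h'
        · exact Or.inr (Or.inl h')
      · exact Or.inr (Or.inr ⟨h2, hf⟩)
    · rintro (rfl | rfl | ⟨h1, h2⟩)
      · exact ⟨hPQ.symm, hQ⟩
      · exact ⟨hPT.symm, hT⟩
      · refine ⟨?_, h1⟩
        rintro rfl
        exact h2 rfl
  rw [e, Finset.prod_insert, Finset.prod_insert]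
  · simp [hfT]
  · simp [hfQ, hQT]

theorem erase_three' (A : Finset (Pt p)) (f : Pt p → ZMod p)
    (h3 : ∀ c, (A.filter (fun Q => f Q = c)).card ≤ 3) {P Q T : Pt p} (hP : P ∈ A) (hQ : Q ∈ A)
    (hT : T ∈ A) (hPQ : P ≠ Q) (hPT : P ≠ T) (hQT : Q ≠ T) (hfQ : f Q = f P) (hfT : f T = f P)
    (F : Pt p → ZMod p) :
    ∏ R ∈ A.erase P, F R = F Q * (F T * ∏ R ∈ A.filter (fun R => f R ≠ f P), F R) := by
  have h := erase_three A f h3 hP hQ hT hPQ hPT hQT hfQ hfT (fun R => Polynomial.C (F R))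
  rw [← map_prod, ← map_prod, ← Polynomial.C_mul, ← Polynomial.C_mul] at h
  exact Polynomial.C_injective h

/-- The sum over the three-point lines of a parallel class. -/
theorem three_sum (A : Finset (Pt p)) (f x g : Pt p → ZMod p) (W ω : ZMod p → ZMod p)
    (_h3 : ∀ c, (A.filter (fun Q => f Q = c)).card ≤ 3)
    (h0 : ∀ P ∈ A, (A.filter (fun Q => f Q = f P)).card ≠ 3 → g P = 0)
    (hW : ∀ c, W c ≠ 0)
    (hx : ∀ P ∈ A, ∀ Q ∈ A, P ≠ Q → f P = f Q → x P ≠ x Q)
    (hg : ∀ P ∈ A, ∀ Q ∈ A, ∀ T ∈ A, P ≠ Q → P ≠ T → Q ≠ T → f Q = f P → f T = f P →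
      g P * ((x Q - x P) * (x T - x P) * W (f P)) = ω (f P)) (k : ℕ) :
    ∑ P ∈ A, g P * (f P) ^ k = 0 := by
  rw [← Finset.sum_fiberwise (s := A) (g := f)]
  refine Finset.sum_eq_zero (fun c _ => ?_)
  have h1 : ∑ P ∈ A.filter (fun Q => f Q = c), g P * f P ^ k =
      (∑ P ∈ A.filter (fun Q => f Q = c), g P) * c ^ k := by
    rw [Finset.sum_mul]
    refine Finset.sum_congr rfl (fun P hP => ?_)
    rw [(mem_filter.mp hP).2]
  rw [h1]
  by_cases hc : (A.filter (fun Q => f Q = c)).card = 3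
  · obtain ⟨P, Q, T, hPQ, hPT, hQT, he⟩ := Finset.card_eq_three.mp hc
    have hP : P ∈ A ∧ f P = c := by
      have h : P ∈ A.filter (fun Q => f Q = c) := by rw [he]; simp
      exact mem_filter.mp h
    have hQ : Q ∈ A ∧ f Q = c := by
      have h : Q ∈ A.filter (fun Q => f Q = c) := by rw [he]; simp
      exact mem_filter.mp h
    have hT : T ∈ A ∧ f T = c := by
      have h : T ∈ A.filter (fun Q => f Q = c) := by rw [he]; simp
      exact mem_filter.mp h
    have e1 := hg P hP.1 Q hQ.1 T hT.1 hPQ hPT hQT (by rw [hQ.2, hP.2]) (by rw [hT.2, hP.2])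
    have e2 := hg Q hQ.1 P hP.1 T hT.1 hPQ.symm hQT hPT (by rw [hQ.2, hP.2]) (by rw [hT.2, hQ.2])
    have e3 := hg T hT.1 P hP.1 Q hQ.1 hPT.symm hQT.symm hPQ (by rw [hT.2, hP.2])
      (by rw [hQ.2, hT.2])
    have n1 := hx P hP.1 Q hQ.1 hPQ (by rw [hQ.2, hP.2])
    have n2 := hx P hP.1 T hT.1 hPT (by rw [hT.2, hP.2])
    have n3 := hx Q hQ.1 T hT.1 hQT (by rw [hT.2, hQ.2])
    rw [hP.2] at e1
    rw [hQ.2] at e2
    rw [hT.2] at e3
    have hs : ∑ P ∈ A.filter (fun Q => f Q = c), g P = g P + g Q + g T := by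
      rw [he, Finset.sum_insert, Finset.sum_insert, Finset.sum_singleton]
      · ring
      · simpa using hQT
      · simp only [mem_insert, mem_singleton, not_or]
        exact ⟨hPQ, hPT⟩
    rw [hs]
    have key : (g P + g Q + g T) * (W c * ((x Q - x P) * (x T - x P) * (x T - x Q))) = 0 := by
      linear_combination (x T - x Q) * e1 - (x T - x P) * e2 + (x Q - x P) * e3
    have hne : W c * ((x Q - x P) * (x T - x P) * (x T - x Q)) ≠ 0 := by
      refine mul_ne_zero (hW c) (mul_ne_zero (mul_ne_zero ?_ ?_) ?_)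
      · exact sub_ne_zero.mpr n1.symm
      · exact sub_ne_zero.mpr n2.symm
      · exact sub_ne_zero.mpr n3.symm
    rcases mul_eq_zero.mp key with h | h
    · rw [h, zero_mul]
    · exact absurd h hne
  · rw [Finset.sum_eq_zero, zero_mul]
    intro P hP
    rw [mem_filter] at hP
    exact h0 P hP.1 (by rw [hP.2]; exact hc)

theorem kk_fib (A : Finset (Pt p)) (P : Pt p) (hP : P ∈ A) (f : Pt p → ZMod p) (a b : ZMod p)
    (hf : ∀ Q : Pt p, f Q - f P = (Q.1 - P.1) * a + (Q.2 - P.2) * b) :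
    kk A P a b + 1 = (A.filter (fun Q => f Q = f P)).card := by
  have e : A.filter (fun Q => f Q = f P) =
      insert P ((A.erase P).filter (fun Q => (Q.1 - P.1) * a + (Q.2 - P.2) * b = 0)) := by
    ext Q
    simp only [mem_filter, mem_insert, mem_erase, ← hf, sub_eq_zero]
    constructor
    · rintro ⟨h1, h2⟩
      by_cases hQ : Q = P
      · exact Or.inl hQ
      · exact Or.inr ⟨⟨hQ, h1⟩, h2⟩
    · rintro (rfl | ⟨⟨_, h1⟩, h2⟩)
      · exact ⟨hP, rfl⟩
      · exact ⟨h1, h2⟩
  rw [e, card_insert_of_notMem (by simp)]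
  rfl

theorem fib_card_le (A : Finset (Pt p)) (hA : NoFour A) (a b : ZMod p) (hab : (a, b) ≠ (0, 0))
    (f : Pt p → ZMod p) (hf : ∀ Q : Pt p, f Q = a * Q.1 + b * Q.2) (c : ZMod p) :
    (A.filter (fun Q => f Q = c)).card ≤ 3 := by
  have h := hA a b c hab
  simp only [← hf] at h
  exact h

/-- The polynomials `S_k`. -/
noncomputable def SS (A : Finset (Pt p)) (k : ℕ) : Polynomial (ZMod p) :=
  ∑ P ∈ A, Polynomial.C (gam A P) * ((exList A P).map vl).prod * (vl P) ^ k

theorem eval_vl (v : Pt p) (m : ZMod p) : (vl v).eval m = v.1 + v.2 * m := by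
  simp [vl]

theorem natDegree_vl (v : Pt p) : (vl v).natDegree ≤ 1 := by
  unfold vl
  refine (Polynomial.natDegree_add_le _ _).trans (max_le (by simp) ?_)
  exact (Polynomial.natDegree_C_mul_le _ _).trans (by simp)

/-- `S_k` vanishes at every element of the field. -/
theorem SS_eval (A : Finset (Pt p)) (hA : NoFour A) (k : ℕ) (m : ZMod p) :
    (SS A k).eval m = 0 := by
  unfold SS
  rw [Polynomial.eval_finsetSum]
  have e1 : ∀ P ∈ A, (Polynomial.C (gam A P) * ((exList A P).map vl).prod * (vl P) ^ k).eval m =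
      (gam A P * (((exList A P).map vl).prod).eval m) * (1 * P.1 + m * P.2) ^ k := by
    intro P _
    rw [Polynomial.eval_mul, Polynomial.eval_mul, Polynomial.eval_C, Polynomial.eval_pow, eval_vl]
    congr 2
    ring
  rw [Finset.sum_congr rfl e1]
  have h3 : ∀ c, (A.filter (fun Q => (1 * Q.1 + m * Q.2) = c)).card ≤ 3 :=
    fib_card_le A hA 1 m (by simp) (fun Q => 1 * Q.1 + m * Q.2) (fun _ => rfl)
  refine three_sum A (fun Q => 1 * Q.1 + m * Q.2) (fun Q => Q.2)
    (fun P => gam A P * (((exList A P).map vl).prod).eval m)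
    (fun c => ∏ R ∈ A.filter (fun R => (1 * R.1 + m * R.2) ≠ c), ((1 * R.1 + m * R.2) - c))
    (fun _ => (∏ m' ∈ Finset.univ.erase m, (m - m')) ^ 2) h3 ?_ ?_ ?_ ?_ k
  · intro P hP hne
    have h1 := kk_fib A P hP (fun Q => 1 * Q.1 + m * Q.2) 1 m (by intro Q; ring)
    have h2 := kk_le A hA P hP 1 m (by simp)
    have h4 : 2 - kk A P 1 m ≠ 0 := by omega
    rw [prod_exList, Polynomial.eval_prod]
    rw [Finset.prod_eq_zero (mem_univ m), mul_zero]
    rw [Polynomial.eval_pow]
    simp [h4]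
  · intro c
    rw [Finset.prod_ne_zero_iff]
    intro R hR
    exact sub_ne_zero.mpr (mem_filter.mp hR).2
  · intro P _ Q _ hPQ hf h
    apply hPQ
    refine Prod.ext ?_ h
    rw [h] at hf
    linear_combination hf
  · intro P hP Q hQ T hT hPQ hPT hQT hfQ hfT
    have h1 := gform A hA P hP
    rw [erase_three A (fun Q => 1 * Q.1 + m * Q.2) h3 hP hQ hT hPQ hPT hQT hfQ hfT] at h1
    have h2 : ∀ Q : Pt p, 1 * Q.1 + m * Q.2 = 1 * P.1 + m * P.2 →
        vl (Q - P) = Polynomial.C (Q.2 - P.2) * (Polynomial.X - Polynomial.C m) := by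
      intro Q hQ
      have : Q.1 - P.1 = - ((Q.2 - P.2) * m) := by linear_combination hQ
      simp only [vl, Prod.fst_sub, Prod.snd_sub]
      rw [this, mul_sub, ← Polynomial.C_mul, Polynomial.C_neg]
      ring
    rw [h2 Q hfQ, h2 T hfT, ← prod_X_sub,
      ← Finset.mul_prod_erase Finset.univ _ (mem_univ m)] at h1
    have h5 : (Polynomial.X - Polynomial.C m) ^ 2 ≠ (0 : Polynomial (ZMod p)) :=
      pow_ne_zero _ (Polynomial.X_sub_C_ne_zero m)
    have h6 : Polynomial.C (gam A P) * ((exList A P).map vl).prod * (Polynomial.C (Q.2 - P.2) *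
        (Polynomial.C (T.2 - P.2) *
          ∏ R ∈ A.filter (fun R => 1 * R.1 + m * R.2 ≠ 1 * P.1 + m * P.2), vl (R - P))) =
        (∏ m' ∈ Finset.univ.erase m, (Polynomial.X - Polynomial.C m')) ^ 2 := by
      apply mul_left_cancel₀ h5
      linear_combination h1
    have h7 := congrArg (Polynomial.eval m) h6
    simp only [Polynomial.eval_mul, Polynomial.eval_C, Polynomial.eval_pow, Polynomial.eval_prod,
      eval_vl, Polynomial.eval_sub, Polynomial.eval_X] at h7
    rw [← h7]
    have h8 : ∏ R ∈ A.filter (fun R => 1 * R.1 + m * R.2 ≠ 1 * P.1 + m * P.2),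
        ((1 * R.1 + m * R.2) - (1 * P.1 + m * P.2)) =
        ∏ R ∈ A.filter (fun R => 1 * R.1 + m * R.2 ≠ 1 * P.1 + m * P.2),
          ((R - P).1 + (R - P).2 * m) := by
      refine Finset.prod_congr rfl (fun R _ => ?_)
      simp only [Prod.fst_sub, Prod.snd_sub]
      ring
    rw [h8]
    ring

theorem exList_prod_natDegree (A : Finset (Pt p)) (P : Pt p) :
    (((exList A P).map vl).prod).natDegree ≤ (exList A P).length := by
  refine (Polynomial.natDegree_list_prod_le _).trans ?_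
  generalize exList A P = l
  induction l with
  | nil => simp
  | cons v l ih =>
    simp only [List.map_cons, List.sum_cons, List.length_cons]
    have := natDegree_vl v
    omega

theorem natDegree_vl_pow (P : Pt p) (k : ℕ) : ((vl P) ^ k).natDegree ≤ k := by
  refine Polynomial.natDegree_pow_le.trans ?_
  have := natDegree_vl P
  nlinarith

theorem term_natDegree (A : Finset (Pt p)) (hA : NoFour A) (t : ℕ)
    (hcard : A.card + t = 2 * p + 3) (k : ℕ) (P : Pt p) (hP : P ∈ A) :
    (Polynomial.C (gam A P) * ((exList A P).map vl).prod * (vl P) ^ k).natDegree ≤ t + k := by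
  refine Polynomial.natDegree_mul_le.trans (add_le_add ?_ (natDegree_vl_pow P k))
  refine (Polynomial.natDegree_C_mul_le _ _).trans ?_
  rw [← exList_length A hA P hP t hcard]
  exact exList_prod_natDegree A P

theorem SS_natDegree (A : Finset (Pt p)) (hA : NoFour A) (t : ℕ)
    (hcard : A.card + t = 2 * p + 3) (k : ℕ) : (SS A k).natDegree ≤ t + k := by
  unfold SS
  refine (Polynomial.natDegree_sum_le_of_forall_le _ _ ?_)
  intro P hP
  exact term_natDegree A hA t hcard k P hP

theorem coeff_list_top (l : List (Pt p)) :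
    ((l.map vl).prod).coeff l.length = (l.map (fun v => v.2)).prod := by
  have h := Polynomial.coeff_list_prod_of_natDegree_le (l.map vl) 1 (by
    intro q hq
    obtain ⟨v, _, rfl⟩ := List.mem_map.mp hq
    exact natDegree_vl v)
  rw [List.length_map, mul_one] at h
  rw [h, List.map_map]
  congr 1
  refine List.map_congr_left (fun v _ => ?_)
  simp [vl]

theorem exList_top (A : Finset (Pt p)) (P : Pt p) :
    ((exList A P).map (fun v => v.2)).prod = (0 : ZMod p) ^ (2 - kk A P 0 1) := by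
  unfold exList
  rw [List.map_append, List.prod_append, List.map_flatMap, prod_flatMap']
  simp

/-- The coefficient of `z^(t+k)` of `S_k` vanishes. -/
theorem SS_top (A : Finset (Pt p)) (hA : NoFour A) (t : ℕ)
    (hcard : A.card + t = 2 * p + 3) (k : ℕ) : (SS A k).coeff (t + k) = 0 := by
  unfold SS
  rw [Polynomial.finsetSum_coeff]
  have e1 : ∀ P ∈ A, (Polynomial.C (gam A P) * ((exList A P).map vl).prod *
      (vl P) ^ k).coeff (t + k) = (gam A P * (0 : ZMod p) ^ (2 - kk A P 0 1)) * P.2 ^ k := by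
    intro P hP
    have hl := exList_length A hA P hP t hcard
    rw [Polynomial.coeff_mul_add_eq_of_natDegree_le (df := t) (dg := k)]
    · rw [Polynomial.coeff_C_mul]
      conv_lhs => rw [← hl]
      rw [coeff_list_top, exList_top]
      congr 1
      have := Polynomial.coeff_pow_of_natDegree_le (m := k) (natDegree_vl P)
      rw [mul_one] at this
      rw [this]
      simp [vl]
    · refine (Polynomial.natDegree_C_mul_le _ _).trans ?_
      rw [← hl]
      exact exList_prod_natDegree A P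
    · exact natDegree_vl_pow P k
  rw [Finset.sum_congr rfl e1]
  have h3 : ∀ c, (A.filter (fun Q => Q.2 = c)).card ≤ 3 :=
    fib_card_le A hA 0 1 (by simp) (fun Q => Q.2) (fun _ => by ring)
  refine three_sum A (fun Q => Q.2) (fun Q => Q.1)
    (fun P => gam A P * (0 : ZMod p) ^ (2 - kk A P 0 1))
    (fun c => ∏ R ∈ A.filter (fun R => R.2 ≠ c), (R.2 - c))
    (fun _ => 1) h3 ?_ ?_ ?_ ?_ k
  · intro P hP hne
    have h1 := kk_fib A P hP (fun Q => Q.2) 0 1 (by intro Q; ring)
    have h2 := kk_le A hA P hP 0 1 (by simp)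
    have h4 : 2 - kk A P 0 1 ≠ 0 := by omega
    simp [h4]
  · intro c
    rw [Finset.prod_ne_zero_iff]
    intro R hR
    exact sub_ne_zero.mpr (mem_filter.mp hR).2
  · intro P _ Q _ hPQ hf h
    exact hPQ (Prod.ext h hf)
  · intro P hP Q hQ T hT hPQ hPT hQT hfQ hfT
    have h1 := kk_fib A P hP (fun Q => Q.2) 0 1 (by intro Q; ring)
    have h2 := fib_three A (fun Q => Q.2) h3 hP hQ hT hPQ hPT hQT hfQ hfT
    have h4 : kk A P 0 1 = 2 := by
      have h5 : (A.filter (fun Q => Q.2 = P.2)).card = 3 := by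
        rw [h2]; exact Finset.card_eq_three.mpr ⟨P, Q, T, hPQ, hPT, hQT, rfl⟩
      omega
    rw [h4, Nat.sub_self, pow_zero, mul_one]
    have h6 : gam A P = ((Q.1 - P.1) * ((T.1 - P.1) *
        ∏ R ∈ A.filter (fun R => R.2 ≠ P.2), (R.2 - P.2)))⁻¹ := by
      unfold gam
      rw [erase_three' A (fun Q => Q.2) h3 hP hQ hT hPQ hPT hQT hfQ hfT]
      have h7 : (∏ R ∈ A.filter (fun R => R.2 ≠ P.2),
          if R.2 ≠ P.2 then R.2 - P.2 else R.1 - P.1) =
          ∏ R ∈ A.filter (fun R => R.2 ≠ P.2), (R.2 - P.2) := by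
        refine Finset.prod_congr rfl (fun R hR => ?_)
        rw [if_pos (mem_filter.mp hR).2]
      rw [h7, if_neg (by simp [hfQ]), if_neg (by simp [hfT])]
    rw [h6]
    have h7 : (Q.1 - P.1) * ((T.1 - P.1) *
        ∏ R ∈ A.filter (fun R => R.2 ≠ P.2), (R.2 - P.2)) ≠ 0 := by
      have := gam_ne_zero A P
      rw [h6] at this
      intro h; apply this; rw [h, inv_zero]
    rw [mul_assoc, inv_mul_cancel₀ h7]

/-- The vanishing coefficients of `S_k`. -/
theorem SS_coeff (A : Finset (Pt p)) (hA : NoFour A) (t : ℕ)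
    (hcard : A.card + t = 2 * p + 3) (k j : ℕ) (hj : j < p) (hj2 : t + k < p + j) :
    (SS A k).coeff j = 0 := by
  classical
  -- `X^p - X` divides `S_k`
  have hdvd : (Polynomial.X ^ p - Polynomial.X : Polynomial (ZMod p)) ∣ SS A k := by
    rw [← prod_X_sub]
    refine Finset.prod_dvd_of_coprime ?_ ?_
    · intro a _ b _ hab
      exact Polynomial.pairwise_coprime_X_sub_C Function.injective_id hab
    · intro m _
      exact Polynomial.dvd_iff_isRoot.mpr (SS_eval A hA k m)
  obtain ⟨u, hu⟩ := hdvd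
  have hp1 : 1 < p := (Fact.out : p.Prime).one_lt
  by_cases hu0 : u = 0
  · rw [hu, hu0]; simp
  have hmon : (Polynomial.X ^ p - Polynomial.X : Polynomial (ZMod p)).Monic := by
    apply Polynomial.monic_X_pow_sub
    rw [Polynomial.degree_X]
    exact_mod_cast hp1
  have hdeg : (SS A k).natDegree = p + u.natDegree := by
    rw [hu, hmon.natDegree_mul' hu0, FiniteField.X_pow_card_sub_X_natDegree_eq _ hp1]
  have hlt : (SS A k).natDegree < t + k := by
    refine lt_of_le_of_ne (SS_natDegree A hA t hcard k) ?_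
    intro h
    have h1 := SS_top A hA t hcard k
    rw [← h] at h1
    have h2 : SS A k = 0 := Polynomial.leadingCoeff_eq_zero.mp h1
    rw [h2] at hdeg
    simp at hdeg
    omega
  rw [hu, sub_mul, Polynomial.coeff_sub, Polynomial.coeff_X_pow_mul', if_neg (by omega)]
  rcases Nat.eq_zero_or_pos j with h0 | h0
  · omega
  · obtain ⟨i, rfl⟩ : ∃ i, j = i + 1 := ⟨j - 1, by omega⟩
    rw [Polynomial.coeff_X_mul, Polynomial.coeff_eq_zero_of_natDegree_lt (by omega)]
    simp

end Pool.Agent.Lib.Arc3
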